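import Mathlib

/-!
Abstract lemmas: Bessel's inequality for averages over the fibres of independent maps, and a lower bound for the
number of pairs of elements of a dense set which lie over opposite values.
-/

set_option autoImplicit false
set_option linter.unusedSectionVars false
set_option linter.unusedVariables false

namespace Pool.Agent.Helper520_bf

open Finset

lemma bessel {Ω ι : Type*} (O : Finset Ω) (I : Finset ι) (f : Ω → ℝ) (g : ι → Ω → ℝ)
    (h1 : ∀ j ∈ I, ∑ s ∈ O, f s * g j s = ∑ s ∈ O, g j s ^ 2)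
    (h2 : ∀ i ∈ I, ∀ j ∈ I, i ≠ j → ∑ s ∈ O, g i s * g j s = 0) :
    ∑ j ∈ I, ∑ s ∈ O, g j s ^ 2 ≤ ∑ s ∈ O, f s ^ 2 := by
  classical
  have h0 : 0 ≤ ∑ s ∈ O, (f s - ∑ j ∈ I, g j s) ^ 2 := Finset.sum_nonneg fun s _ => sq_nonneg _
  have h3 : ∑ s ∈ O, (f s - ∑ j ∈ I, g j s) ^ 2 = ∑ s ∈ O, f s ^ 2 - 2 * ∑ j ∈ I, ∑ s ∈ O, f s * g j s +
      ∑ i ∈ I, ∑ j ∈ I, ∑ s ∈ O, g i s * g j s := by
    have h4 : ∀ s, (f s - ∑ j ∈ I, g j s) ^ 2 = f s ^ 2 - 2 * ∑ j ∈ I, f s * g j s + ∑ i ∈ I, ∑ j ∈ I, g i s * g j s := by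
      intro s
      rw [← Finset.mul_sum, ← Finset.sum_mul_sum]
      ring
    simp_rw [h4]
    rw [Finset.sum_add_distrib, Finset.sum_sub_distrib, ← Finset.mul_sum]
    congr 1
    · congr 2
      exact Finset.sum_comm
    · rw [Finset.sum_comm]
      refine Finset.sum_congr rfl fun i _ => ?_
      exact Finset.sum_comm
  have h5 : ∑ i ∈ I, ∑ j ∈ I, ∑ s ∈ O, g i s * g j s = ∑ i ∈ I, ∑ s ∈ O, g i s ^ 2 := by
    refine Finset.sum_congr rfl fun i hi => ?_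
    rw [Finset.sum_eq_single_of_mem i hi fun j hj hji => h2 i hi j hj (Ne.symm hji)]
    refine Finset.sum_congr rfl fun s _ => by ring
  have h6 : ∑ j ∈ I, ∑ s ∈ O, f s * g j s = ∑ i ∈ I, ∑ s ∈ O, g i s ^ 2 :=
    Finset.sum_congr rfl h1
  rw [h3, h5, h6] at h0
  linarith

/-- the fibres of `φ` on `O` have the same number of elements -/
def Unif {Ω β : Type*} [Fintype β] [DecidableEq β] (O : Finset Ω) (φ : Ω → β) : Prop :=
  ∀ u : β, ((#{s ∈ O | φ s = u} : ℕ) : ℝ) * Fintype.card β = #O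

section
variable {Ω β : Type*} [Fintype β] [DecidableEq β] [DecidableEq Ω] {O : Finset Ω} {φ : Ω → β}

lemma Unif.sum (h : Unif O φ) (hβ : 0 < Fintype.card β) (f : β → ℝ) :
    ∑ s ∈ O, f (φ s) = (#O / Fintype.card β : ℝ) * ∑ u, f u := by
  have hβ' : (0 : ℝ) < Fintype.card β := by exact_mod_cast hβ
  rw [← Finset.sum_fiberwise_of_maps_to (g := φ) (t := (univ : Finset β)) fun s _ => Finset.mem_univ _, Finset.mul_sum]
  refine Finset.sum_congr rfl fun u _ => ?_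
  have h1 : ∑ s ∈ O with φ s = u, f (φ s) = ∑ _s ∈ O with φ _s = u, f u :=
    Finset.sum_congr rfl fun s hs => by rw [(Finset.mem_filter.1 hs).2]
  rw [h1, Finset.sum_const, nsmul_eq_mul, ← h u]
  field_simp

/-- the density of `S` in the fibres -/
noncomputable def av (O S : Finset Ω) (φ : Ω → β) (u : β) : ℝ :=
  (#{s ∈ S | φ s = u} : ℝ) * Fintype.card β / #O

lemma Unif.av_bounds (h : Unif O φ) {S : Finset Ω} (hS : S ⊆ O) (u : β) : 0 ≤ av O S φ u ∧ av O S φ u ≤ 1 := by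
  unfold av
  refine ⟨by positivity, ?_⟩
  rw [← h u]
  have h1 : (#{s ∈ S | φ s = u} : ℝ) ≤ #{s ∈ O | φ s = u} := by
    exact_mod_cast Finset.card_le_card (Finset.filter_subset_filter _ hS)
  refine div_le_one_of_le₀ ?_ (by positivity)
  exact mul_le_mul_of_nonneg_right h1 (by positivity)

lemma sum_av {S : Finset Ω} (hO : 0 < #O) (φ : Ω → β) :
    ∑ u, av O S φ u = (Fintype.card β : ℝ) * (#S / #O : ℝ) := by
  unfold av
  rw [← Finset.sum_div, ← Finset.sum_mul]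
  have h1 : ∑ u : β, (#{s ∈ S | φ s = u} : ℝ) = #S := by
    have h2 := Finset.card_eq_sum_card_fiberwise (s := S) (f := φ) (t := (univ : Finset β)) fun s _ => Finset.mem_coe.2 (Finset.mem_univ _)
    rw [h2]
    push_cast
    rfl
  rw [h1]
  ring

lemma Unif.sum_S (h : Unif O φ) (hβ : 0 < Fintype.card β) (hO : 0 < #O) (S : Finset Ω) (f : β → ℝ) :
    ∑ s ∈ S, f (φ s) = (#O / Fintype.card β : ℝ) * ∑ u, av O S φ u * f u := by
  have hβ' : (0 : ℝ) < Fintype.card β := by exact_mod_cast hβ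
  have hO' : (0 : ℝ) < #O := by exact_mod_cast hO
  rw [← Finset.sum_fiberwise_of_maps_to (g := φ) (t := (univ : Finset β)) fun s _ => Finset.mem_univ _, Finset.mul_sum]
  refine Finset.sum_congr rfl fun u _ => ?_
  have h1 : ∑ s ∈ S with φ s = u, f (φ s) = ∑ _s ∈ S with φ _s = u, f u :=
    Finset.sum_congr rfl fun s hs => by rw [(Finset.mem_filter.1 hs).2]
  rw [h1, Finset.sum_const, nsmul_eq_mul]
  unfold av
  field_simp

/-- the deviation from the mean -/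
noncomputable def dv (O S : Finset Ω) (φ : Ω → β) (s : Ω) : ℝ := av O S φ (φ s) - #S / #O

lemma Unif.dv_self (h : Unif O φ) (hβ : 0 < Fintype.card β) (hO : 0 < #O) {S : Finset Ω} (hS : S ⊆ O) :
    ∑ s ∈ O, ((if s ∈ S then (1 : ℝ) else 0) - #S / #O) * dv O S φ s = ∑ s ∈ O, dv O S φ s ^ 2 := by
  have h1 : ∑ s ∈ O, ((if s ∈ S then (1 : ℝ) else 0) - #S / #O) * dv O S φ s =
      ∑ s ∈ S, dv O S φ s - ∑ s ∈ O, (#S / #O : ℝ) * dv O S φ s := by
    rw [← Finset.sum_filter_add_sum_filter_not O (fun s => s ∈ S)]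
    have h2 : ({s ∈ O | s ∈ S} : Finset Ω) = S := by
      ext s
      rw [Finset.mem_filter]
      exact ⟨fun h => h.2, fun h => ⟨hS h, h⟩⟩
    rw [← Finset.sum_filter_add_sum_filter_not O (fun s => s ∈ S) (f := fun s => (#S / #O : ℝ) * dv O S φ s)]
    have h3 : ∑ s ∈ O with s ∈ S, ((if s ∈ S then (1 : ℝ) else 0) - #S / #O) * dv O S φ s =
        ∑ s ∈ O with s ∈ S, (dv O S φ s - (#S / #O : ℝ) * dv O S φ s) := by
      refine Finset.sum_congr rfl fun s hs => ?_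
      rw [if_pos (Finset.mem_filter.1 hs).2]
      ring
    have h4 : ∑ s ∈ O with s ∉ S, ((if s ∈ S then (1 : ℝ) else 0) - #S / #O) * dv O S φ s =
        - ∑ s ∈ O with s ∉ S, (#S / #O : ℝ) * dv O S φ s := by
      rw [← Finset.sum_neg_distrib]
      refine Finset.sum_congr rfl fun s hs => ?_
      rw [if_neg (Finset.mem_filter.1 hs).2]
      ring
    rw [h3, h4, Finset.sum_sub_distrib]
    have h5 : ∑ s ∈ O with s ∈ S, dv O S φ s = ∑ s ∈ S, dv O S φ s := by rw [h2]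
    rw [h5]
    ring
  rw [h1, ← Finset.mul_sum]
  unfold dv
  have e1 := h.sum_S hβ hO S (fun u => av O S φ u - #S / #O)
  have e2 := h.sum hβ (fun u => av O S φ u - #S / #O)
  have e3 := h.sum hβ (fun u => (av O S φ u - #S / #O) ^ 2)
  rw [e1, e2, e3]
  have h6 : ∀ u, (av O S φ u - (#S : ℝ) / #O) ^ 2 =
      av O S φ u * (av O S φ u - #S / #O) - (#S / #O : ℝ) * (av O S φ u - #S / #O) := fun u => by ring
  have h7 : ∑ u, (av O S φ u - (#S : ℝ) / #O) ^ 2 = ∑ u, av O S φ u * (av O S φ u - #S / #O) -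
      (#S / #O : ℝ) * ∑ u, (av O S φ u - #S / #O) := by
    rw [Finset.mul_sum, ← Finset.sum_sub_distrib]
    exact Finset.sum_congr rfl fun u _ => h6 u
  rw [h7]
  ring

lemma Unif.dv_pair {β' : Type*} [Fintype β'] [DecidableEq β'] {φ' : Ω → β'}
    (h : Unif O (fun s => (φ s, φ' s))) (hβ : 0 < Fintype.card β) (hβ' : 0 < Fintype.card β') (hO : 0 < #O)
    (S : Finset Ω) : ∑ s ∈ O, dv O S φ s * dv O S φ' s = 0 := by
  unfold dv
  have hc : 0 < Fintype.card (β × β') := by rw [Fintype.card_prod]; positivity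
  have e1 := h.sum hc (fun u => (av O S φ u.1 - #S / #O) * (av O S φ' u.2 - #S / #O))
  rw [e1, Fintype.sum_prod_type]
  have h2 : ∑ u : β, (av O S φ u - (#S : ℝ) / #O) = 0 := by
    rw [Finset.sum_sub_distrib, sum_av hO, Finset.sum_const, Finset.card_univ, nsmul_eq_mul, sub_self]
  have h3 : ∑ x : β, ∑ y : β', (av O S φ x - (#S : ℝ) / #O) * (av O S φ' y - (#S : ℝ) / #O) =
      (∑ x : β, (av O S φ x - (#S : ℝ) / #O)) * ∑ y : β', (av O S φ' y - (#S : ℝ) / #O) := by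
    rw [Finset.sum_mul_sum]
  rw [h3, h2]
  ring

lemma pairs_alg {γ : Type*} [Fintype γ] [AddCommGroup γ] (δ : ℝ) (hδ0 : 0 ≤ δ) (A B E : γ → ℝ)
    (hAE : ∀ n, A n = δ * B n + E n) (hBsym : ∀ n, B (-n) = B n)
    (he : ∑ n, E n ^ 2 ≤ δ ^ 2 / 64 * ∑ n, B n ^ 2) :
    δ ^ 2 / 2 * ∑ n, B n ^ 2 ≤ ∑ n, A n * A (-n) := by
  generalize hb2 : ∑ n, B n ^ 2 = b2 at *
  generalize he2 : ∑ n, E n ^ 2 = e2 at *
  have hb20 : 0 ≤ b2 := by rw [← hb2]; exact Finset.sum_nonneg fun n _ => sq_nonneg _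
  have he20 : 0 ≤ e2 := by rw [← he2]; exact Finset.sum_nonneg fun n _ => sq_nonneg _
  have hBE : |∑ n, B n * E n| ≤ δ / 8 * b2 := by
    have e1 : (∑ n, B n * E n) ^ 2 ≤ b2 * e2 := by
      rw [← hb2, ← he2]
      exact Finset.sum_mul_sq_le_sq_mul_sq _ _ _
    have e2' : (∑ n, B n * E n) ^ 2 ≤ (δ / 8 * b2) ^ 2 := by
      refine e1.trans ?_
      calc b2 * e2 ≤ b2 * (δ ^ 2 / 64 * b2) := mul_le_mul_of_nonneg_left he hb20
        _ = (δ / 8 * b2) ^ 2 := by ring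
    exact abs_le_of_sq_le_sq e2' (by positivity)
  have hEE : |∑ n, E n * E (-n)| ≤ e2 := by
    have e3 : ∑ n, E (-n) ^ 2 = e2 := by
      rw [← he2]
      exact Equiv.sum_comp (Equiv.neg γ) fun n => E n ^ 2
    have e1 : (∑ n, E n * E (-n)) ^ 2 ≤ e2 * e2 := by
      have e4 := Finset.sum_mul_sq_le_sq_mul_sq (univ : Finset γ) E (fun n => E (-n))
      rw [e3, he2] at e4
      exact e4
    refine abs_le_of_sq_le_sq ?_ he20
    rw [sq e2]
    exact e1
  have hexp : ∑ n, A n * A (-n) = δ ^ 2 * b2 + 2 * δ * ∑ n, B n * E n + ∑ n, E n * E (-n) := by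
    have e1 : ∀ n, A n * A (-n) = δ ^ 2 * B n ^ 2 + δ * (B (-n) * E (-n)) + δ * (B n * E n) + E n * E (-n) := by
      intro n
      rw [hAE n, hAE (-n), hBsym n]
      ring
    have e3 : ∑ n, B (-n) * E (-n) = ∑ n, B n * E n := Equiv.sum_comp (Equiv.neg γ) fun n => B n * E n
    rw [Finset.sum_congr rfl fun n _ => e1 n, Finset.sum_add_distrib, Finset.sum_add_distrib, Finset.sum_add_distrib,
      ← Finset.mul_sum, ← Finset.mul_sum, ← Finset.mul_sum, e3, hb2]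
    ring
  rw [hexp]
  have e1 := (abs_le.1 hBE).1
  have e2' := (abs_le.1 hEE).1
  have e3 : 2 * δ * (-(δ / 8 * b2)) ≤ 2 * δ * ∑ n, B n * E n := mul_le_mul_of_nonneg_left e1 (by positivity)
  have e4 : δ ^ 2 / 64 * b2 ≤ δ ^ 2 / 4 * b2 := by
    have : 0 ≤ δ ^ 2 * b2 := by positivity
    linarith
  nlinarith

/-- a pair count over opposite values -/
lemma Unif.pairs {γ : Type*} [Fintype γ] [DecidableEq γ] [AddCommGroup γ] (h : Unif O φ) (hβ : 0 < Fintype.card β)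
    (hO : 0 < #O) {S : Finset Ω} (hS : S ⊆ O) (G : β → γ)
    (hsym : ∀ n, #{s ∈ O | G (φ s) = -n} = #{s ∈ O | G (φ s) = n})
    (h1 : Real.sqrt (∑ s ∈ O, dv O S φ s ^ 2) * Real.sqrt (∑ n, (#{s ∈ O | G (φ s) = n} : ℝ) ^ 3) ≤
      (#S / #O : ℝ) ^ 2 / 64 * ∑ n, (#{s ∈ O | G (φ s) = n} : ℝ) ^ 2) :
    (#S / #O : ℝ) ^ 2 / 2 * ∑ n, (#{s ∈ O | G (φ s) = n} : ℝ) ^ 2 ≤
      #{x ∈ S ×ˢ S | G (φ x.1) + G (φ x.2) = 0} := by
  have hβ' : (0 : ℝ) < Fintype.card β := by exact_mod_cast hβ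
  have hO' : (0 : ℝ) < #O := by exact_mod_cast hO
  set δ : ℝ := #S / #O with hδ
  have hδ0 : 0 ≤ δ := by positivity
  have hδ1 : δ ≤ 1 := by
    rw [hδ, div_le_one hO']
    exact_mod_cast Finset.card_le_card hS
  set B : γ → ℝ := fun n => (#{s ∈ O | G (φ s) = n} : ℝ) with hB
  set A : γ → ℝ := fun n => (#{s ∈ S | G (φ s) = n} : ℝ) with hA
  set E : γ → ℝ := fun n => ∑ s ∈ O with G (φ s) = n, dv O S φ s with hE
  have hAE : ∀ n, A n = δ * B n + E n := by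
    intro n
    have e1 := h.sum_S hβ hO S (fun u => if G u = n then (1 : ℝ) else 0)
    have e2 := h.sum hβ (fun u => if G u = n then av O S φ u else 0)
    have e3 : A n = ∑ s ∈ S, if G (φ s) = n then (1 : ℝ) else 0 := by
      rw [hA, ← Finset.sum_filter, Finset.sum_const, nsmul_eq_mul, mul_one]
    have e4 : ∑ s ∈ O, (if G (φ s) = n then av O S φ (φ s) else 0) = δ * B n + E n := by
      rw [← Finset.sum_filter]
      have e5 : ∀ s, av O S φ (φ s) = δ + dv O S φ s := fun s => by unfold dv; ring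
      rw [Finset.sum_congr rfl fun s _ => e5 s, Finset.sum_add_distrib, Finset.sum_const, nsmul_eq_mul]
      ring
    rw [e3, e1, ← e4, e2]
    congr 1
    refine Finset.sum_congr rfl fun u _ => ?_
    split_ifs <;> ring
  have hcount : (#{x ∈ S ×ˢ S | G (φ x.1) + G (φ x.2) = 0} : ℝ) = ∑ n, A n * A (-n) := by
    have e1 : ({x ∈ S ×ˢ S | G (φ x.1) + G (φ x.2) = 0} : Finset (Ω × Ω)) =
        (univ : Finset γ).biUnion fun n => ({s ∈ S | G (φ s) = n} : Finset Ω) ×ˢ ({s ∈ S | G (φ s) = -n} : Finset Ω) := by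
      ext x
      simp only [Finset.mem_filter, Finset.mem_product, Finset.mem_biUnion, Finset.mem_univ, true_and]
      constructor
      · rintro ⟨⟨a, b⟩, c⟩
        exact ⟨G (φ x.1), ⟨a, rfl⟩, b, eq_neg_of_add_eq_zero_right c⟩
      · rintro ⟨n, ⟨a, b⟩, c, d⟩
        refine ⟨⟨a, c⟩, ?_⟩
        rw [b, d, add_neg_cancel]
    rw [e1, Finset.card_biUnion]
    · push_cast
      refine Finset.sum_congr rfl fun n _ => ?_
      rw [Finset.card_product]
      push_cast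
      rfl
    · intro n _ n' _ hnn
      show Disjoint (_ : Finset (Ω × Ω)) _
      rw [Finset.disjoint_left]
      intro x hx hx'
      rw [Finset.mem_product, Finset.mem_filter] at hx hx'
      exact hnn (hx.1.2.symm.trans hx'.1.2)
  set b2 : ℝ := ∑ n, B n ^ 2 with hb2
  set e2 : ℝ := ∑ n, E n ^ 2 with he2
  have hb20 : 0 ≤ b2 := Finset.sum_nonneg fun n _ => sq_nonneg _
  have he20 : 0 ≤ e2 := Finset.sum_nonneg fun n _ => sq_nonneg _
  have hBsym : ∀ n, B (-n) = B n := fun n => by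
    show ((#{s ∈ O | G (φ s) = -n} : ℕ) : ℝ) = ((#{s ∈ O | G (φ s) = n} : ℕ) : ℝ)
    rw [hsym n]
  -- the error
  have hdv1 : ∀ s, dv O S φ s ^ 4 ≤ dv O S φ s ^ 2 := by
    intro s
    have e1 := h.av_bounds hS (φ s)
    have e2 : dv O S φ s ^ 2 ≤ 1 := by
      rw [sq_le_one_iff_abs_le_one, abs_le]
      unfold dv
      rw [← hδ]
      constructor <;> linarith [e1.1, e1.2]
    have e3 : (0 : ℝ) ≤ dv O S φ s ^ 2 := sq_nonneg _
    nlinarith
  have herr : e2 ≤ Real.sqrt (∑ s ∈ O, dv O S φ s ^ 2) * Real.sqrt (∑ n, B n ^ 3) := by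
    have e1 : e2 ≤ ∑ s ∈ O, dv O S φ s ^ 2 * B (G (φ s)) := by
      have e3 : ∀ n, E n ^ 2 ≤ ∑ s ∈ O with G (φ s) = n, dv O S φ s ^ 2 * B (G (φ s)) := by
        intro n
        have e4 := Finset.sum_mul_sq_le_sq_mul_sq ({s ∈ O | G (φ s) = n} : Finset Ω) (fun _ => (1 : ℝ)) (dv O S φ)
        simp only [one_mul, one_pow, Finset.sum_const, nsmul_eq_mul, mul_one] at e4
        refine e4.trans (le_of_eq ?_)
        rw [Finset.mul_sum]
        refine Finset.sum_congr rfl fun s hs => ?_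
        rw [(Finset.mem_filter.1 hs).2]
        show B n * _ = _ * B n
        ring
      calc e2 ≤ ∑ n, ∑ s ∈ O with G (φ s) = n, dv O S φ s ^ 2 * B (G (φ s)) := Finset.sum_le_sum fun n _ => e3 n
        _ = _ := Finset.sum_fiberwise_of_maps_to (fun s _ => Finset.mem_univ _) _
    have e5 : (∑ s ∈ O, dv O S φ s ^ 2 * B (G (φ s))) ^ 2 ≤ (∑ s ∈ O, (dv O S φ s ^ 2) ^ 2) * ∑ s ∈ O, B (G (φ s)) ^ 2 :=
      Finset.sum_mul_sq_le_sq_mul_sq _ _ _
    have e6 : ∑ s ∈ O, B (G (φ s)) ^ 2 = ∑ n, B n ^ 3 := by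
      rw [← Finset.sum_fiberwise_of_maps_to (g := fun s => G (φ s)) (t := (univ : Finset γ)) fun s _ => Finset.mem_univ _]
      refine Finset.sum_congr rfl fun n _ => ?_
      have e7 : ∑ s ∈ O with G (φ s) = n, B (G (φ s)) ^ 2 = ∑ _s ∈ O with G (φ _s) = n, B n ^ 2 :=
        Finset.sum_congr rfl fun s hs => by rw [(Finset.mem_filter.1 hs).2]
      rw [e7, Finset.sum_const, nsmul_eq_mul]
      show B n * B n ^ 2 = B n ^ 3
      ring
    have e8 : ∑ s ∈ O, (dv O S φ s ^ 2) ^ 2 ≤ ∑ s ∈ O, dv O S φ s ^ 2 := by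
      refine Finset.sum_le_sum fun s _ => ?_
      have := hdv1 s
      calc (dv O S φ s ^ 2) ^ 2 = dv O S φ s ^ 4 := by ring
        _ ≤ _ := this
    have hB3 : 0 ≤ ∑ n, B n ^ 3 := Finset.sum_nonneg fun n _ => by positivity
    have hd2 : 0 ≤ ∑ s ∈ O, dv O S φ s ^ 2 := Finset.sum_nonneg fun s _ => sq_nonneg _
    refine e1.trans ?_
    rw [← Real.sqrt_mul hd2]
    refine Real.le_sqrt_of_sq_le ?_
    refine e5.trans ?_
    rw [e6]
    exact mul_le_mul_of_nonneg_right e8 hB3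
  have he2b : e2 ≤ δ ^ 2 / 64 * b2 := herr.trans h1
  rw [hcount]
  exact pairs_alg δ hδ0 A B E hAE hBsym he2b

end

end Pool.Agent.Helper520_bf
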