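import Mathlib

/-!
The number of solutions of `F(x) = n` modulo `q` and its moments.
-/

set_option autoImplicit false
set_option linter.unusedSectionVars false
set_option linter.unusedVariables false

namespace Pool.Agent.Helper520_bf

open Finset MvPolynomial

variable {m : ℕ}

lemma map_ev {R S : Type*} [CommRing R] [CommRing S] (f : R →+* S) (F : MvPolynomial (Fin m) ℤ) (x : Fin m → R) :
    f (aeval x F) = aeval (fun i => f (x i)) F := by
  have h := MvPolynomial.comp_aeval_apply (R := ℤ) (f := x) (f.toIntAlgHom) F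
  simpa using h

/-- the number of solutions of `F(x) = n` modulo `q` -/
noncomputable def sol (F : MvPolynomial (Fin m) ℤ) (q : ℕ) (n : ZMod q) : ℕ :=
  Nat.card {x : Fin m → ZMod q // aeval x F = n}

lemma sol_eq (F : MvPolynomial (Fin m) ℤ) (q : ℕ) [NeZero q] (n : ZMod q) :
    sol F q n = #{x : Fin m → ZMod q | aeval x F = n} := by
  classical
  unfold sol
  rw [Nat.card_eq_fintype_card, Fintype.card_subtype]

/-- the moments -/
noncomputable def mom (F : MvPolynomial (Fin m) ℤ) (q k : ℕ) : ℕ := ∑ n ∈ range q, sol F q (n : ZMod q) ^ k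

lemma mom_eq (F : MvPolynomial (Fin m) ℤ) (q k : ℕ) [NeZero q] : mom F q k = ∑ n : ZMod q, sol F q n ^ k := by
  unfold mom
  refine Finset.sum_bij' (fun n _ => (n : ZMod q)) (fun a _ => a.val) ?_ ?_ ?_ ?_ ?_
  · intro n _
    exact Finset.mem_univ _
  · intro a _
    exact Finset.mem_range.2 (ZMod.val_lt a)
  · intro n hn
    exact ZMod.val_cast_of_lt (Finset.mem_range.1 hn)
  · intro a _
    exact ZMod.natCast_zmod_val a
  · intro n _
    rfl

lemma sol_mul (F : MvPolynomial (Fin m) ℤ) {a b : ℕ} (h : a.Coprime b) (n : ZMod (a * b)) :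
    sol F (a * b) n = sol F a (ZMod.chineseRemainder h n).1 * sol F b (ZMod.chineseRemainder h n).2 := by
  unfold sol
  rw [← Nat.card_prod]
  set e := ZMod.chineseRemainder h with he
  have h1 : ∀ x : Fin m → ZMod (a * b), (e (aeval x F)).1 = aeval (fun i => (e (x i)).1) F := fun x =>
    map_ev ((RingHom.fst _ _).comp e.toRingHom) F x
  have h2 : ∀ x : Fin m → ZMod (a * b), (e (aeval x F)).2 = aeval (fun i => (e (x i)).2) F := fun x =>
    map_ev ((RingHom.snd _ _).comp e.toRingHom) F x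
  refine Nat.card_congr
    { toFun := fun x => (⟨fun i => (e (x.1 i)).1, by rw [← h1, x.2]⟩, ⟨fun i => (e (x.1 i)).2, by rw [← h2, x.2]⟩)
      invFun := fun y => ⟨fun i => e.symm (y.1.1 i, y.2.1 i), ?_⟩
      left_inv := ?_
      right_inv := ?_ }
  · apply e.injective
    refine Prod.ext ?_ ?_
    · rw [h1]
      simp only [RingEquiv.apply_symm_apply]
      exact y.1.2
    · rw [h2]
      simp only [RingEquiv.apply_symm_apply]
      exact y.2.2
  · intro x
    refine Subtype.ext (funext fun i => ?_)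
    show e.symm ((e (x.1 i)).1, (e (x.1 i)).2) = x.1 i
    rw [Prod.mk.eta, RingEquiv.symm_apply_apply]
  · rintro ⟨y, z⟩
    refine Prod.ext (Subtype.ext (funext fun i => ?_)) (Subtype.ext (funext fun i => ?_))
    · show (e (e.symm (y.1 i, z.1 i))).1 = y.1 i
      rw [RingEquiv.apply_symm_apply]
    · show (e (e.symm (y.1 i, z.1 i))).2 = z.1 i
      rw [RingEquiv.apply_symm_apply]

lemma mom_mul (F : MvPolynomial (Fin m) ℤ) {a b : ℕ} (h : a.Coprime b) (ha : a ≠ 0) (hb : b ≠ 0) (k : ℕ) :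
    mom F (a * b) k = mom F a k * mom F b k := by
  have : NeZero a := ⟨ha⟩
  have : NeZero b := ⟨hb⟩
  have : NeZero (a * b) := ⟨mul_ne_zero ha hb⟩
  rw [mom_eq, mom_eq, mom_eq, Finset.sum_mul_sum, ← Fintype.sum_prod_type',
    ← Equiv.sum_comp (ZMod.chineseRemainder h).toEquiv]
  refine Finset.sum_congr rfl fun n _ => ?_
  rw [sol_mul F h n, mul_pow]
  rfl

lemma coprime_prod {T : Finset ℕ} {p : ℕ} (hp : p.Prime) (hT : ∀ q ∈ T, q.Prime) (hpT : p ∉ T) :
    p.Coprime (∏ q ∈ T, q) :=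
  Nat.Coprime.prod_right fun q hq => (Nat.coprime_primes hp (hT q hq)).2 fun h => hpT (h ▸ hq)

lemma prod_ne_zero_primes {T : Finset ℕ} (hT : ∀ q ∈ T, q.Prime) : (∏ q ∈ T, q) ≠ 0 :=
  Finset.prod_ne_zero_iff.2 fun q hq => (hT q hq).ne_zero

lemma mom_prod (F : MvPolynomial (Fin m) ℤ) (T : Finset ℕ) (hT : ∀ q ∈ T, q.Prime) (k : ℕ) :
    mom F (∏ q ∈ T, q) k = ∏ q ∈ T, mom F q k := by
  classical
  induction T using Finset.induction_on with
  | empty =>
    rw [Finset.prod_empty, Finset.prod_empty]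
    unfold mom
    rw [Finset.sum_range_one]
    have h1 : sol F 1 ((0 : ℕ) : ZMod 1) = 1 := by
      rw [sol_eq, Finset.filter_true_of_mem fun x _ => Subsingleton.elim _ _, Finset.card_univ]
      simp
    rw [h1, one_pow]
  | insert p T hpT ih =>
    rw [Finset.prod_insert hpT, Finset.prod_insert hpT,
      mom_mul F (coprime_prod (hT p (Finset.mem_insert_self _ _)) (fun q hq => hT q (Finset.mem_insert_of_mem hq)) hpT)
        (hT p (Finset.mem_insert_self _ _)).ne_zero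
        (prod_ne_zero_primes fun q hq => hT q (Finset.mem_insert_of_mem hq)),
      ih fun q hq => hT q (Finset.mem_insert_of_mem hq)]

/-- symmetry of the number of solutions -/
def Sym (F : MvPolynomial (Fin m) ℤ) (q : ℕ) : Prop := ∀ n : ZMod q, sol F q (-n) = sol F q n

lemma Sym.mul {F : MvPolynomial (Fin m) ℤ} {a b : ℕ} (h : a.Coprime b) (ha : Sym F a) (hb : Sym F b) : Sym F (a * b) := by
  intro n
  rw [sol_mul F h, sol_mul F h, map_neg, Prod.fst_neg, Prod.snd_neg, ha, hb]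

lemma Sym.prod {F : MvPolynomial (Fin m) ℤ} (T : Finset ℕ) (hT : ∀ q ∈ T, q.Prime) (h : ∀ q ∈ T, Sym F q) :
    Sym F (∏ q ∈ T, q) := by
  classical
  induction T using Finset.induction_on with
  | empty =>
    rw [Finset.prod_empty]
    intro n
    have : -n = n := Subsingleton.elim _ _
    rw [this]
  | insert p T hpT ih =>
    rw [Finset.prod_insert hpT]
    exact Sym.mul (coprime_prod (hT p (Finset.mem_insert_self _ _)) (fun q hq => hT q (Finset.mem_insert_of_mem hq)) hpT)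
      (h p (Finset.mem_insert_self _ _))
      (ih (fun q hq => hT q (Finset.mem_insert_of_mem hq)) fun q hq => h q (Finset.mem_insert_of_mem hq))

lemma ev_scale {R : Type*} [CommRing R] {F : MvPolynomial (Fin m) ℤ} {d : ℕ} (hF : F.IsHomogeneous d) (c : R)
    (x : Fin m → R) : aeval (fun i => c * x i) F = c ^ d * aeval x F := by
  rw [aeval_def, aeval_def, eval₂_eq', eval₂_eq', Finset.mul_sum]
  refine Finset.sum_congr rfl fun s hs => ?_
  have h1 : ∑ i, s i = d := by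
    have h2 := hF (mem_support_iff.1 hs)
    rw [← h2, Finsupp.weight_apply, Finsupp.sum_fintype _ _ (by simp)]
    simp
  simp_rw [mul_pow]
  rw [Finset.prod_mul_distrib, Finset.prod_pow_eq_pow_sum, h1]
  ring

lemma sq_eq_one_iff_of_nz {R : Type*} [CommRing R] [IsDomain R] {a : R} (h : a ^ 2 = 1) : a = 1 ∨ a = -1 :=
  (sq_eq_sq_iff_eq_or_eq_neg (a := a) (b := 1)).1 (by rw [h, one_pow])

lemma neg_one_pow_root {p d : ℕ} [hp : Fact p.Prime] (hd : 0 < d) (h : p % (2 * d) = 1) : ∃ c : ZMod p, c ≠ 0 ∧ c ^ d = -1 := by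
  obtain ⟨g, hg⟩ := IsCyclic.exists_generator (α := (ZMod p)ˣ)
  have hord : orderOf g = p - 1 := by
    rw [orderOf_eq_card_of_forall_mem_zpowers hg, Nat.card_eq_fintype_card, ZMod.card_units]
  have hp1 : 1 < p := hp.out.one_lt
  obtain ⟨k, hk⟩ : ∃ k, p = 2 * d * k + 1 := ⟨p / (2 * d), by
    have := Nat.div_add_mod p (2 * d)
    rw [h] at this
    exact this.symm⟩
  have hk0 : 0 < k := by
    rcases Nat.eq_zero_or_pos k with h0 | h0
    · rw [h0] at hk
      omega
    · exact h0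
  refine ⟨((g ^ k : (ZMod p)ˣ) : ZMod p), Units.ne_zero _, ?_⟩
  have h1 : ((g ^ k) ^ d) ^ 2 = (1 : (ZMod p)ˣ) := by
    rw [← pow_mul, ← pow_mul]
    have h2 : k * (d * 2) = orderOf g := by
      rw [hord]
      have : p - 1 = 2 * d * k := by omega
      rw [this]
      ring
    rw [h2, pow_orderOf_eq_one]
  have h3 : (g ^ k) ^ d ≠ (1 : (ZMod p)ˣ) := by
    rw [← pow_mul]
    intro h4
    have h5 := orderOf_dvd_of_pow_eq_one h4
    rw [hord] at h5
    have h6 : p - 1 = 2 * (k * d) := by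
      have : p - 1 = 2 * d * k := by omega
      rw [this]
      ring
    rw [h6] at h5
    have h7 : 0 < k * d := Nat.mul_pos hk0 hd
    have := Nat.le_of_dvd h7 h5
    omega
  have h4 : (((g ^ k) ^ d : (ZMod p)ˣ) : ZMod p) ^ 2 = 1 := by
    rw [← Units.val_pow_eq_pow_val, h1, Units.val_one]
  rcases sq_eq_one_iff_of_nz h4 with h5 | h5
  · exact absurd (Units.ext h5) h3
  · rw [← Units.val_pow_eq_pow_val]
    exact h5

lemma sym_prime {F : MvPolynomial (Fin m) ℤ} {d : ℕ} (hd : 0 < d) (hF : F.IsHomogeneous d) {p : ℕ} (hp : p.Prime)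
    (h : p % (2 * d) = 1) : Sym F p := by
  have : Fact p.Prime := ⟨hp⟩
  obtain ⟨c, hc0, hc⟩ := neg_one_pow_root (p := p) hd h
  have hc' : c⁻¹ ^ d = -1 := by rw [inv_pow, hc, inv_neg, inv_one]
  intro n
  unfold sol
  refine Nat.card_congr
    { toFun := fun x => ⟨fun i => c⁻¹ * x.1 i, by rw [ev_scale hF, x.2, hc']; ring⟩
      invFun := fun x => ⟨fun i => c * x.1 i, by rw [ev_scale hF, x.2, hc]; ring⟩
      left_inv := ?_
      right_inv := ?_ }
  · intro x
    refine Subtype.ext (funext fun i => ?_)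
    show c * (c⁻¹ * x.1 i) = x.1 i
    rw [← mul_assoc, mul_inv_cancel₀ hc0, one_mul]
  · intro x
    refine Subtype.ext (funext fun i => ?_)
    show c⁻¹ * (c * x.1 i) = x.1 i
    rw [← mul_assoc, inv_mul_cancel₀ hc0, one_mul]

/-- the deviation of `F` modulo `p` from the uniform distribution: `N_p / p ^ (2 m - 1) - 1`, where `N_p` is the number
of the solutions of `F(x) = F(y)` modulo `p` -/
noncomputable def vv (F : MvPolynomial (Fin m) ℤ) (p : ℕ) : ℝ :=
  (Nat.card {x : (Fin m → ZMod p) × (Fin m → ZMod p) // (aeval x.1 F : ZMod p) = aeval x.2 F} : ℝ) /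
    (p : ℝ) ^ (2 * m - 1) - 1

lemma card_pairs (F : MvPolynomial (Fin m) ℤ) (q : ℕ) [NeZero q] :
    Nat.card {x : (Fin m → ZMod q) × (Fin m → ZMod q) // (aeval x.1 F : ZMod q) = aeval x.2 F} = mom F q 2 := by
  classical
  rw [Nat.card_eq_fintype_card, Fintype.card_subtype, mom_eq]
  rw [Finset.card_eq_sum_card_fiberwise (f := fun x : (Fin m → ZMod q) × (Fin m → ZMod q) => (aeval x.1 F : ZMod q))
    (t := (univ : Finset (ZMod q))) fun x _ => Finset.mem_coe.2 (Finset.mem_univ _)]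
  refine Finset.sum_congr rfl fun n _ => ?_
  rw [sol_eq, sq, ← Finset.card_product]
  congr 1
  ext x
  simp only [Finset.mem_filter, Finset.mem_univ, true_and, Finset.mem_product]
  constructor
  · rintro ⟨h1, h2⟩
    exact ⟨h2, h1 ▸ h2⟩
  · rintro ⟨h1, h2⟩
    exact ⟨h1.trans h2.symm, h1⟩

lemma sum_sol (F : MvPolynomial (Fin m) ℤ) (q : ℕ) [NeZero q] : ∑ n : ZMod q, sol F q n = q ^ m := by
  classical
  have h1 : Fintype.card (Fin m → ZMod q) = q ^ m := by
    rw [Fintype.card_fun, ZMod.card, Fintype.card_fin]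
  rw [← h1, ← Finset.card_univ, Finset.card_eq_sum_card_fiberwise (f := fun x : Fin m → ZMod q => (aeval x F : ZMod q))
    (t := (univ : Finset (ZMod q))) fun x _ => Finset.mem_coe.2 (Finset.mem_univ _)]
  refine Finset.sum_congr rfl fun n _ => ?_
  rw [sol_eq]

/-- abstract moment inequalities -/
lemma moments {ι : Type*} (s : Finset ι) (P : ℝ) (hP : P = #s) (hP0 : 0 < P) (R : ι → ℝ) (D : ℝ) (hD : 1 ≤ D)
    (hR : ∀ i ∈ s, 0 ≤ R i ∧ R i ≤ D) (hsum : ∑ i ∈ s, R i = P) (v : ℝ) (hv : ∑ i ∈ s, R i ^ 2 = P * (1 + v)) :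
    0 ≤ v ∧ 1 + v ≤ D ∧ ∑ i ∈ s, R i ^ 3 ≤ P * (1 + (3 + D) * v) ∧ ∀ i ∈ s, (R i - 1) ^ 2 ≤ P * v := by
  have h1 : ∑ i ∈ s, (R i - 1) ^ 2 = P * v := by
    have e1 : ∀ i, (R i - 1) ^ 2 = R i ^ 2 - 2 * R i + 1 := fun i => by ring
    rw [Finset.sum_congr rfl fun i _ => e1 i, Finset.sum_add_distrib, Finset.sum_sub_distrib, ← Finset.mul_sum, hv, hsum,
      Finset.sum_const, nsmul_eq_mul, mul_one, ← hP]
    ring
  have hv0 : 0 ≤ v := by
    have e1 : 0 ≤ P * v := by
      rw [← h1]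
      exact Finset.sum_nonneg fun i _ => sq_nonneg _
    exact nonneg_of_mul_nonneg_right e1 hP0
  refine ⟨hv0, ?_, ?_, ?_⟩
  · have e1 : ∑ i ∈ s, R i ^ 2 ≤ ∑ i ∈ s, D * R i := by
      refine Finset.sum_le_sum fun i hi => ?_
      rw [sq]
      exact mul_le_mul_of_nonneg_right (hR i hi).2 (hR i hi).1
    rw [← Finset.mul_sum, hsum, hv] at e1
    have e2 : P * (1 + v) ≤ P * D := by linarith
    exact le_of_mul_le_mul_left e2 hP0
  · have e1 : ∑ i ∈ s, R i ^ 3 ≤ ∑ i ∈ s, (1 + 3 * (R i - 1) + (3 + D) * (R i - 1) ^ 2) := by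
      refine Finset.sum_le_sum fun i hi => ?_
      have e2 : (R i - 1) ^ 3 ≤ D * (R i - 1) ^ 2 := by
        have e3 : (R i - 1) ≤ D := by linarith [(hR i hi).2]
        calc (R i - 1) ^ 3 = (R i - 1) * (R i - 1) ^ 2 := by ring
          _ ≤ D * (R i - 1) ^ 2 := mul_le_mul_of_nonneg_right e3 (sq_nonneg _)
      calc R i ^ 3 = 1 + 3 * (R i - 1) + 3 * (R i - 1) ^ 2 + (R i - 1) ^ 3 := by ring
        _ ≤ _ := by linarith
    refine e1.trans (le_of_eq ?_)
    rw [Finset.sum_add_distrib, Finset.sum_add_distrib, ← Finset.mul_sum, ← Finset.mul_sum, h1, Finset.sum_sub_distrib,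
      hsum, Finset.sum_const, nsmul_eq_mul, mul_one, ← hP]
    ring
  · intro i hi
    rw [← h1]
    exact Finset.single_le_sum (f := fun i => (R i - 1) ^ 2) (fun i _ => sq_nonneg _) hi

/-- normalised moments -/
noncomputable def M2 (F : MvPolynomial (Fin m) ℤ) (q : ℕ) : ℝ := (mom F q 2 : ℝ) / (q : ℝ) ^ (2 * m - 1)

noncomputable def M3 (F : MvPolynomial (Fin m) ℤ) (q : ℕ) : ℝ := (mom F q 3 : ℝ) / (q : ℝ) ^ (3 * m - 2)

lemma M2_prod (F : MvPolynomial (Fin m) ℤ) (T : Finset ℕ) (hT : ∀ q ∈ T, q.Prime) :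
    M2 F (∏ q ∈ T, q) = ∏ q ∈ T, M2 F q := by
  unfold M2
  rw [mom_prod F T hT, Finset.prod_div_distrib]
  push_cast
  rw [Finset.prod_pow]

lemma M3_prod (F : MvPolynomial (Fin m) ℤ) (T : Finset ℕ) (hT : ∀ q ∈ T, q.Prime) :
    M3 F (∏ q ∈ T, q) = ∏ q ∈ T, M3 F q := by
  unfold M3
  rw [mom_prod F T hT, Finset.prod_div_distrib]
  push_cast
  rw [Finset.prod_pow]

lemma M2_eq (F : MvPolynomial (Fin m) ℤ) (q : ℕ) [NeZero q] : M2 F q = 1 + vv F q := by
  unfold M2 vv
  rw [card_pairs]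
  ring

/-- the local inequalities at a prime -/
theorem local_bounds (hm : 0 < m) (F : MvPolynomial (Fin m) ℤ) {p : ℕ} (hp : p.Prime) (D : ℝ) (hD : 1 ≤ D)
    (hb : ∀ n : ZMod p, (sol F p n : ℝ) ≤ D * (p : ℝ) ^ (m - 1)) :
    0 ≤ vv F p ∧ 1 + vv F p ≤ D ∧ M3 F p ≤ 1 + (3 + D) * vv F p ∧
      ∀ n : ZMod p, ((sol F p n : ℝ) / (p : ℝ) ^ (m - 1) - 1) ^ 2 ≤ p * vv F p := by
  have : Fact p.Prime := ⟨hp⟩
  have hp0 : (0 : ℝ) < p := by exact_mod_cast hp.pos
  have hpm : (0 : ℝ) < (p : ℝ) ^ (m - 1) := by positivity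
  have h1 : ∑ n : ZMod p, (sol F p n : ℝ) / (p : ℝ) ^ (m - 1) = p := by
    rw [← Finset.sum_div]
    have e1 : ∑ n : ZMod p, (sol F p n : ℝ) = (p : ℝ) ^ m := by exact_mod_cast sum_sol F p
    rw [e1, div_eq_iff hpm.ne', ← pow_succ']
    congr 1
    omega
  have h2 : ∑ n : ZMod p, ((sol F p n : ℝ) / (p : ℝ) ^ (m - 1)) ^ 2 = p * (1 + vv F p) := by
    rw [← M2_eq]
    unfold M2
    rw [mom_eq]
    push_cast
    simp_rw [div_pow]
    rw [← Finset.sum_div, ← pow_mul, mul_div_assoc', div_eq_div_iff (by positivity) (by positivity)]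
    have e1 : (p : ℝ) ^ (2 * m - 1) = p * (p : ℝ) ^ ((m - 1) * 2) := by
      rw [← pow_succ']
      congr 1
      omega
    rw [e1]
    ring
  have h3 : M3 F p * p = ∑ n : ZMod p, ((sol F p n : ℝ) / (p : ℝ) ^ (m - 1)) ^ 3 := by
    unfold M3
    rw [mom_eq]
    push_cast
    simp_rw [div_pow]
    rw [← Finset.sum_div, ← pow_mul, div_mul_eq_mul_div, div_eq_div_iff (by positivity) (by positivity)]
    have e1 : (p : ℝ) ^ (3 * m - 2) = p * (p : ℝ) ^ ((m - 1) * 3) := by
      rw [← pow_succ']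
      congr 1
      omega
    rw [e1]
    ring
  have h4 := moments (univ : Finset (ZMod p)) (p : ℝ) (by rw [Finset.card_univ, ZMod.card]) hp0
    (fun n => (sol F p n : ℝ) / (p : ℝ) ^ (m - 1)) D hD
    (fun n _ => ⟨by positivity, (div_le_iff₀ hpm).2 (hb n)⟩) h1 (vv F p) h2
  refine ⟨h4.1, h4.2.1, ?_, fun n => h4.2.2.2 n (Finset.mem_univ _)⟩
  have h5 := h4.2.2.1
  rw [← h3, mul_comm] at h5
  exact le_of_mul_le_mul_left h5 hp0

/-- the number of solutions is at most `D p ^ (m - 1)` -/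
theorem sol_le (hm : 0 < m) {F : MvPolynomial (Fin m) ℤ} {d : ℕ} (hF : F.IsHomogeneous d) (hd : 0 < d)
    {s : Fin m →₀ ℕ} (hs : F.coeff s ≠ 0) {p : ℕ} (hp : p.Prime) (hps : ¬ (p : ℤ) ∣ F.coeff s) (n : ZMod p) :
    (sol F p n : ℝ) ≤ d * (p : ℝ) ^ (m - 1) := by
  classical
  have : Fact p.Prime := ⟨hp⟩
  set P : MvPolynomial (Fin m) (ZMod p) := MvPolynomial.map (Int.castRingHom (ZMod p)) F - C n with hP
  have hev : ∀ x : Fin m → ZMod p, eval x P = aeval x F - n := by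
    intro x
    rw [hP, map_sub, eval_C, eval_map]
    rfl
  have hs0 : s ≠ 0 := by
    intro h0
    have h2 := hF hs
    rw [h0] at h2
    simp at h2
    omega
  have hP0 : P ≠ 0 := by
    intro h0
    have h1 : P.coeff s = ((F.coeff s : ℤ) : ZMod p) := by
      rw [hP, coeff_sub, coeff_map, coeff_C, if_neg (Ne.symm hs0), sub_zero]
      rfl
    rw [h0, coeff_zero] at h1
    exact hps ((ZMod.intCast_zmod_eq_zero_iff_dvd _ _).1 h1.symm)
  have h1 := MvPolynomial.schwartz_zippel_totalDegree hP0 (univ : Finset (ZMod p))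
  have hdeg : P.totalDegree ≤ d := by
    rw [hP, sub_eq_add_neg, ← C_neg]
    refine (totalDegree_add _ _).trans (max_le ?_ ?_)
    · exact (hF.map (Int.castRingHom (ZMod p))).totalDegree_le
    · rw [totalDegree_C]
      exact Nat.zero_le _
  have hcard : #(univ : Finset (ZMod p)) = p := by rw [Finset.card_univ, ZMod.card]
  have h2 : ((#{f ∈ Fintype.piFinset fun _ : Fin m => (univ : Finset (ZMod p)) | eval f P = 0} : ℚ≥0) : ℝ) ≤
      d * (p : ℝ) ^ (m - 1) := by
    have e1 : ((#{f ∈ Fintype.piFinset fun _ : Fin m => (univ : Finset (ZMod p)) | eval f P = 0} /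
        (#(univ : Finset (ZMod p)) ^ m : ℚ≥0) : ℚ≥0) : ℝ) ≤ ((P.totalDegree / #(univ : Finset (ZMod p)) : ℚ≥0) : ℝ) := by
      exact_mod_cast h1
    push_cast at e1
    rw [hcard] at e1
    have hp0 : (0 : ℝ) < p := by exact_mod_cast hp.pos
    rw [div_le_div_iff₀ (by positivity) hp0] at e1
    have e2 : (p : ℝ) ^ m = p * (p : ℝ) ^ (m - 1) := by
      rw [← pow_succ']
      congr 1
      omega
    rw [e2] at e1
    have e3 : (P.totalDegree : ℝ) ≤ d := by exact_mod_cast hdeg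
    have e4 : (P.totalDegree : ℝ) * (p * (p : ℝ) ^ (m - 1)) ≤ d * (p * (p : ℝ) ^ (m - 1)) :=
      mul_le_mul_of_nonneg_right e3 (by positivity)
    have e5 : (p : ℝ) * ((#{f ∈ Fintype.piFinset fun _ : Fin m => (univ : Finset (ZMod p)) | eval f P = 0} : ℚ≥0) : ℝ) ≤
        p * (d * (p : ℝ) ^ (m - 1)) := by
      push_cast
      nlinarith
    exact le_of_mul_le_mul_left e5 hp0
  refine le_trans (le_of_eq ?_) h2
  rw [sol_eq]
  push_cast
  congr 2
  ext x
  simp only [Finset.mem_filter, Finset.mem_univ, true_and, Fintype.mem_piFinset, implies_true]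
  rw [hev, sub_eq_zero]

end Pool.Agent.Helper520_bf
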