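import Pool.Agent.Helper520_bf.Abs
import Pool.Agent.Helper520_bf.Loc

/-!
Dense subsets of boxes: a modulus for which many pairs have opposite values.
-/

set_option autoImplicit false
set_option linter.unusedSectionVars false
set_option linter.unusedVariables false

namespace Pool.Agent.Helper520_bf

open Finset MvPolynomial

variable {m : ℕ}

/-- the box -/
noncomputable def bx (X : Fin m → ℕ) : Finset (Fin m → ℤ) := Fintype.piFinset fun i => Finset.Ico (-(X i : ℤ)) (X i : ℤ)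

/-- reduction -/
def red (q : ℕ) (x : Fin m → ℤ) : Fin m → ZMod q := fun i => ((x i : ℤ) : ZMod q)

lemma card_bx (X : Fin m → ℕ) : #(bx X) = ∏ i, (2 * X i) := by
  unfold bx
  rw [Fintype.card_piFinset]
  refine Finset.prod_congr rfl fun i _ => ?_
  rw [Int.card_Ico]
  omega

lemma ev_red (F : MvPolynomial (Fin m) ℤ) (q : ℕ) (x : Fin m → ℤ) :
    (aeval (red q x) F : ZMod q) = ((aeval x F : ℤ) : ZMod q) := by
  have h := map_ev (Int.castRingHom (ZMod q)) F x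
  exact h.symm

lemma line_unif (q : ℕ) [NeZero q] (X : ℕ) (h : q ∣ X) (a : ZMod q) :
    #{x ∈ Finset.Ico (-(X : ℤ)) (X : ℤ) | ((x : ℤ) : ZMod q) = a} * q = 2 * X := by
  obtain ⟨t, rfl⟩ := h
  have hq : 0 < q := Nat.pos_of_ne_zero (NeZero.ne q)
  have h1 : ({x ∈ Finset.Ico (-((q * t : ℕ) : ℤ)) ((q * t : ℕ) : ℤ) | ((x : ℤ) : ZMod q) = a} : Finset ℤ) =
      {x ∈ Finset.Ico (-((q * t : ℕ) : ℤ)) ((q * t : ℕ) : ℤ) | x ≡ (a.val : ℤ) [ZMOD q]} := by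
    ext x
    simp only [Finset.mem_filter]
    refine and_congr_right fun _ => ?_
    rw [← ZMod.intCast_eq_intCast_iff]
    rw [Int.cast_natCast, ZMod.natCast_zmod_val]
  rw [h1]
  have hq' : (0 : ℤ) < q := by exact_mod_cast hq
  have h2 := Int.Ico_filter_modEq_card (-((q * t : ℕ) : ℤ)) ((q * t : ℕ) : ℤ) hq' (a.val : ℤ)
  have hq2 : (q : ℚ) ≠ 0 := by exact_mod_cast hq.ne'
  have h3 : ((((q * t : ℕ) : ℤ) : ℚ) - ((a.val : ℤ) : ℚ)) / ((q : ℤ) : ℚ) = ((2 * t : ℤ) : ℚ) + ((-((q * t : ℕ) : ℤ) : ℤ) - ((a.val : ℤ) : ℚ)) / ((q : ℤ) : ℚ) := by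
    push_cast
    field_simp
    ring
  push_cast at h2 h3 ⊢
  rw [h3] at h2
  have h4 : ⌈(2 : ℚ) * (t : ℚ) + (-((q : ℚ) * t) - (a.val : ℚ)) / (q : ℚ)⌉ =
      2 * (t : ℤ) + ⌈(-((q : ℚ) * t) - (a.val : ℚ)) / (q : ℚ)⌉ := by
    have := Int.ceil_intCast_add (2 * (t : ℤ)) ((-((q : ℚ) * t) - (a.val : ℚ)) / (q : ℚ))
    push_cast at this
    exact this
  rw [h4] at h2
  have h5 : ((#{x ∈ Finset.Ico (-((q : ℤ) * t)) ((q : ℤ) * t) | x ≡ (a.val : ℤ) [ZMOD q]} : ℕ) : ℤ) = 2 * t := by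
    rw [h2]
    have : 2 * (t : ℤ) + ⌈(-((q : ℚ) * t) - (a.val : ℚ)) / (q : ℚ)⌉ - ⌈(-((q : ℚ) * t) - (a.val : ℚ)) / (q : ℚ)⌉ = 2 * t := by ring
    rw [this]
    exact max_eq_left (by positivity)
  have h6 : #{x ∈ Finset.Ico (-((q : ℤ) * t)) ((q : ℤ) * t) | x ≡ (a.val : ℤ) [ZMOD q]} = 2 * t := by exact_mod_cast h5
  rw [h6]
  ring

lemma fib_box (q : ℕ) [NeZero q] (X : Fin m → ℕ) (h : ∀ i, q ∣ X i) (u : Fin m → ZMod q) :
    #{s ∈ bx X | red q s = u} * q ^ m = #(bx X) := by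
  classical
  have h1 : ({s ∈ bx X | red q s = u} : Finset (Fin m → ℤ)) =
      Fintype.piFinset fun i => {x ∈ Finset.Ico (-(X i : ℤ)) (X i : ℤ) | ((x : ℤ) : ZMod q) = u i} := by
    ext s
    simp only [Finset.mem_filter, Fintype.mem_piFinset, bx]
    constructor
    · rintro ⟨a, b⟩ i
      exact ⟨a i, congrFun b i⟩
    · intro a
      exact ⟨fun i => (a i).1, funext fun i => (a i).2⟩
  rw [h1, Fintype.card_piFinset, card_bx]
  have h2 : q ^ m = ∏ _i : Fin m, q := by rw [Finset.prod_const, Finset.card_univ, Fintype.card_fin]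
  rw [h2, ← Finset.prod_mul_distrib]
  exact Finset.prod_congr rfl fun i _ => line_unif q (X i) (h i) (u i)

lemma unif_box (q : ℕ) [NeZero q] (X : Fin m → ℕ) (h : ∀ i, q ∣ X i) : Unif (bx X) (red q) := by
  intro u
  have h1 := fib_box q X h u
  have h2 : Fintype.card (Fin m → ZMod q) = q ^ m := by rw [Fintype.card_fun, ZMod.card, Fintype.card_fin]
  rw [h2]
  exact_mod_cast h1

lemma unif_pair (a b : ℕ) [NeZero a] [NeZero b] (hab : a.Coprime b) (X : Fin m → ℕ) (h : ∀ i, a * b ∣ X i) :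
    Unif (bx X) (fun s => (red a s, red b s)) := by
  classical
  have : NeZero (a * b) := ⟨mul_ne_zero (NeZero.ne a) (NeZero.ne b)⟩
  rintro ⟨u, u'⟩
  set e := ZMod.chineseRemainder hab with he
  have h1 := fib_box (a * b) X h (fun i => e.symm (u i, u' i))
  have h2 : Fintype.card ((Fin m → ZMod a) × (Fin m → ZMod b)) = (a * b) ^ m := by
    rw [Fintype.card_prod, Fintype.card_fun, Fintype.card_fun, ZMod.card, ZMod.card, Fintype.card_fin, mul_pow]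
  rw [h2]
  have h3 : ({s ∈ bx X | (red a s, red b s) = (u, u')} : Finset (Fin m → ℤ)) =
      {s ∈ bx X | red (a * b) s = fun i => e.symm (u i, u' i)} := by
    refine Finset.filter_congr fun s _ => ?_
    have h4 : ∀ z : ℤ, e (z : ZMod (a * b)) = ((z : ZMod a), (z : ZMod b)) := by
      intro z
      rw [map_intCast]
      rfl
    constructor
    · intro h5
      have h6 := Prod.ext_iff.1 h5
      funext i
      apply e.injective
      rw [RingEquiv.apply_symm_apply]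
      show e ((s i : ℤ) : ZMod (a * b)) = _
      rw [h4]
      exact Prod.ext (congrFun h6.1 i) (congrFun h6.2 i)
    · intro h5
      have h6 : ∀ i, (((s i : ℤ) : ZMod a), ((s i : ℤ) : ZMod b)) = (u i, u' i) := by
        intro i
        have h7 := congrFun h5 i
        have h8 : e ((s i : ℤ) : ZMod (a * b)) = (u i, u' i) := by
          show e (red (a * b) s i) = _
          rw [h7, RingEquiv.apply_symm_apply]
        rw [← h8, h4]
      exact Prod.ext (funext fun i => (Prod.ext_iff.1 (h6 i)).1) (funext fun i => (Prod.ext_iff.1 (h6 i)).2)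
  rw [h3]
  exact_mod_cast h1

/-- the number of elements of the box with given value -/
lemma val_box (F : MvPolynomial (Fin m) ℤ) (q : ℕ) [NeZero q] (X : Fin m → ℕ) (h : ∀ i, q ∣ X i) (n : ZMod q) :
    (#{s ∈ bx X | (aeval (red q s) F : ZMod q) = n} : ℝ) = #(bx X) / (q : ℝ) ^ m * sol F q n := by
  classical
  have h2 : (Fintype.card (Fin m → ZMod q) : ℝ) = (q : ℝ) ^ m := by
    rw [Fintype.card_fun, ZMod.card, Fintype.card_fin]
    push_cast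
    rfl
  have h3 := (unif_box q X h).sum (by rw [Fintype.card_pos_iff]; exact ⟨0⟩) (fun u => if (aeval u F : ZMod q) = n then (1 : ℝ) else 0)
  rw [← Finset.sum_filter, Finset.sum_const, nsmul_eq_mul, mul_one, h2] at h3
  rw [h3, sol_eq, ← Finset.sum_filter, Finset.sum_const, nsmul_eq_mul, mul_one]

lemma sum_val (F : MvPolynomial (Fin m) ℤ) (q : ℕ) [NeZero q] (X : Fin m → ℕ) (h : ∀ i, q ∣ X i) (k : ℕ) :
    ∑ n : ZMod q, (#{s ∈ bx X | (aeval (red q s) F : ZMod q) = n} : ℝ) ^ k =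
      (#(bx X) / (q : ℝ) ^ m) ^ k * mom F q k := by
  simp_rw [val_box F q X h, mul_pow]
  rw [← Finset.mul_sum, mom_eq]
  push_cast
  rfl

theorem block (hm : 0 < m) (F : MvPolynomial (Fin m) ℤ) (J : ℕ) (T : ℕ → Finset ℕ)
    (hT : ∀ j, ∀ q ∈ T j, q.Prime) (hdisj : ∀ i j, i ≠ j → Disjoint (T i) (T j))
    (hsym : ∀ j, ∀ q ∈ T j, Sym F q) (K M δ0 : ℝ) (hK1 : 1 ≤ K)
    (hK : ∀ j, K ≤ M2 F (∏ q ∈ T j, q)) (hM : ∀ j, M3 F (∏ q ∈ T j, q) ≤ M)
    (hδ0 : 0 < δ0) (hM0 : 0 < M) (hJ : 4096 * M ≤ J * δ0 ^ 4) (X : Fin m → ℕ) (hX0 : ∀ i, 0 < X i)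
    (hX : ∀ i, (∏ j ∈ range J, ∏ q ∈ T j, q) ∣ X i) (S : Finset (Fin m → ℤ)) (hS : S ⊆ bx X)
    (hSδ : δ0 * #(bx X) ≤ #S) :
    ∃ j < J, δ0 ^ 2 / 2 * K * ((#(bx X) : ℝ) ^ 2 / ((∏ q ∈ T j, q : ℕ) : ℝ)) ≤
      #{x ∈ S ×ˢ S | (((∏ q ∈ T j, q : ℕ) : ℤ)) ∣ (aeval x.1 F : ℤ) + aeval x.2 F} := by
  classical
  set Q : ℕ → ℕ := fun j => ∏ q ∈ T j, q with hQ
  have hQ0 : ∀ j, NeZero (Q j) := fun j => ⟨prod_ne_zero_primes (hT j)⟩
  have hO : 0 < #(bx X) := by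
    rw [card_bx]
    exact Finset.prod_pos fun i _ => by have := hX0 i; positivity
  have hO' : (0 : ℝ) < #(bx X) := by exact_mod_cast hO
  have hQX : ∀ j < J, ∀ i, Q j ∣ X i := fun j hj i =>
    (Finset.dvd_prod_of_mem Q (Finset.mem_range.2 hj)).trans (hX i)
  have hcop : ∀ i j, i ≠ j → (Q i).Coprime (Q j) := by
    intro i j hij
    refine Nat.Coprime.prod_right fun q hq => (coprime_prod (hT j q hq) (hT i) ?_).symm
    exact fun h => (Finset.disjoint_left.1 (hdisj i j hij)) h hq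
  have hQQX : ∀ i < J, ∀ j < J, i ≠ j → ∀ k, Q i * Q j ∣ X k := fun i hi j hj hij k =>
    (hcop i j hij).mul_dvd_of_dvd_of_dvd (hQX i hi k) (hQX j hj k)
  have hJ0 : 0 < J := by
    rcases Nat.eq_zero_or_pos J with h0 | h0
    · rw [h0] at hJ
      push_cast at hJ
      linarith
    · exact h0
  have hJ0' : (0 : ℝ) < J := by exact_mod_cast hJ0
  have hcard : ∀ j, 0 < Fintype.card (Fin m → ZMod (Q j)) := fun j => Fintype.card_pos_iff.2 ⟨0⟩
  -- Bessel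
  have hb := bessel (bx X) (range J) (fun s => (if s ∈ S then (1 : ℝ) else 0) - #S / #(bx X))
    (fun j s => dv (bx X) S (red (Q j)) s)
    (fun j hj => (unif_box (Q j) X (hQX j (Finset.mem_range.1 hj))).dv_self (hcard j) hO hS)
    (fun i hi j hj hij => (unif_pair (Q i) (Q j) (hcop i j hij) X
      (hQQX i (Finset.mem_range.1 hi) j (Finset.mem_range.1 hj) hij)).dv_pair (hcard i) (hcard j) hO S)
  have hf : ∑ s ∈ bx X, ((if s ∈ S then (1 : ℝ) else 0) - #S / #(bx X)) ^ 2 ≤ #(bx X) := by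
    have h1 : ∀ s, ((if s ∈ S then (1 : ℝ) else 0) - #S / #(bx X)) ^ 2 ≤ 1 := by
      intro s
      have e1 : (0 : ℝ) ≤ #S / #(bx X) := by positivity
      have e2 : (#S / #(bx X) : ℝ) ≤ 1 := by
        rw [div_le_one hO']
        exact_mod_cast Finset.card_le_card hS
      rw [sq_le_one_iff_abs_le_one, abs_le]
      split_ifs <;> constructor <;> linarith
    calc ∑ s ∈ bx X, ((if s ∈ S then (1 : ℝ) else 0) - #S / #(bx X)) ^ 2 ≤ ∑ _s ∈ bx X, (1 : ℝ) :=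
          Finset.sum_le_sum fun s _ => h1 s
      _ = #(bx X) := by rw [Finset.sum_const, nsmul_eq_mul, mul_one]
  obtain ⟨j, hj, hjs⟩ : ∃ j ∈ range J, ∑ s ∈ bx X, dv (bx X) S (red (Q j)) s ^ 2 ≤ (#(bx X) : ℝ) / J := by
    refine Finset.exists_le_of_sum_le (Finset.nonempty_range_iff.2 hJ0.ne') ?_
    rw [Finset.sum_const, Finset.card_range, nsmul_eq_mul]
    refine (hb.trans hf).trans (le_of_eq ?_)
    field_simp
  have hjJ := Finset.mem_range.1 hj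
  refine ⟨j, hjJ, ?_⟩
  have hun := unif_box (Q j) X (hQX j hjJ)
  have hQr : (0 : ℝ) < (Q j : ℝ) := by exact_mod_cast Nat.pos_of_ne_zero (NeZero.ne (Q j))
  have hsymQ : Sym F (Q j) := Sym.prod (T j) (hT j) (hsym j)
  have hδ : δ0 ≤ (#S : ℝ) / #(bx X) := by rwa [le_div_iff₀ hO']
  have hδ1 : (#S : ℝ) / #(bx X) ≤ 1 := by
    rw [div_le_one hO']
    exact_mod_cast Finset.card_le_card hS
  have hb2 : ∑ n : ZMod (Q j), (#{s ∈ bx X | (aeval (red (Q j) s) F : ZMod (Q j)) = n} : ℝ) ^ 2 =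
      (#(bx X) : ℝ) ^ 2 / Q j * M2 F (Q j) := by
    rw [sum_val F (Q j) X (hQX j hjJ) 2]
    unfold M2
    have e1 : ((Q j : ℝ) ^ m) ^ 2 = Q j * (Q j : ℝ) ^ (2 * m - 1) := by
      rw [← pow_succ', ← pow_mul]
      congr 1
      omega
    rw [div_pow, e1]
    field_simp
  have hb3 : ∑ n : ZMod (Q j), (#{s ∈ bx X | (aeval (red (Q j) s) F : ZMod (Q j)) = n} : ℝ) ^ 3 =
      (#(bx X) : ℝ) ^ 3 / (Q j : ℝ) ^ 2 * M3 F (Q j) := by
    rw [sum_val F (Q j) X (hQX j hjJ) 3]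
    unfold M3
    have e1 : ((Q j : ℝ) ^ m) ^ 3 = (Q j : ℝ) ^ 2 * (Q j : ℝ) ^ (3 * m - 2) := by
      rw [← pow_add, ← pow_mul]
      congr 1
      omega
    rw [div_pow, e1]
    field_simp
  have hM2' : 1 ≤ M2 F (Q j) := hK1.trans (hK j)
  have hkey := hun.pairs (hcard j) hO hS (fun u => (aeval u F : ZMod (Q j))) ?_ ?_
  · have e1 : ({x ∈ S ×ˢ S | (aeval (red (Q j) x.1) F : ZMod (Q j)) + aeval (red (Q j) x.2) F = 0} :
        Finset ((Fin m → ℤ) × (Fin m → ℤ))) = {x ∈ S ×ˢ S | ((Q j : ℕ) : ℤ) ∣ (aeval x.1 F : ℤ) + aeval x.2 F} := by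
      refine Finset.filter_congr fun x _ => ?_
      rw [ev_red, ev_red, ← Int.cast_add, ZMod.intCast_zmod_eq_zero_iff_dvd]
    rw [e1, hb2] at hkey
    refine le_trans ?_ hkey
    have e2 : δ0 ^ 2 ≤ ((#S : ℝ) / #(bx X)) ^ 2 := pow_le_pow_left₀ hδ0.le hδ 2
    have e3 : 0 ≤ (#(bx X) : ℝ) ^ 2 / Q j := by positivity
    calc δ0 ^ 2 / 2 * K * ((#(bx X) : ℝ) ^ 2 / (Q j : ℝ)) ≤
        ((#S : ℝ) / #(bx X)) ^ 2 / 2 * M2 F (Q j) * ((#(bx X) : ℝ) ^ 2 / (Q j : ℝ)) := by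
          refine mul_le_mul_of_nonneg_right ?_ e3
          refine mul_le_mul (by linarith) (hK j) (by linarith) (by positivity)
      _ = _ := by ring
  · intro n
    have e1 := val_box F (Q j) X (hQX j hjJ) n
    have e2 := val_box F (Q j) X (hQX j hjJ) (-n)
    rw [hsymQ n, ← e1] at e2
    exact_mod_cast e2
  · rw [hb2, hb3]
    have hd : 0 ≤ ∑ s ∈ bx X, dv (bx X) S (red (Q j)) s ^ 2 := Finset.sum_nonneg fun s _ => sq_nonneg _
    have e0 : M3 F (Q j) ≤ M := hM j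
    have e1 : Real.sqrt (∑ s ∈ bx X, dv (bx X) S (red (Q j)) s ^ 2) * Real.sqrt ((#(bx X) : ℝ) ^ 3 / (Q j : ℝ) ^ 2 * M3 F (Q j)) ≤
        Real.sqrt ((#(bx X) : ℝ) / J) * Real.sqrt ((#(bx X) : ℝ) ^ 3 / (Q j : ℝ) ^ 2 * M) := by
      refine mul_le_mul (Real.sqrt_le_sqrt hjs) (Real.sqrt_le_sqrt ?_) (Real.sqrt_nonneg _) (Real.sqrt_nonneg _)
      exact mul_le_mul_of_nonneg_left e0 (by positivity)
    refine e1.trans ?_
    rw [← Real.sqrt_mul (by positivity)]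
    have e2 : Real.sqrt ((#(bx X) : ℝ) / J * ((#(bx X) : ℝ) ^ 3 / (Q j : ℝ) ^ 2 * M)) ≤ δ0 ^ 2 / 64 * ((#(bx X) : ℝ) ^ 2 / Q j) := by
      refine Real.sqrt_le_iff.2 ⟨by positivity, ?_⟩
      have e3 : (#(bx X) : ℝ) / J * ((#(bx X) : ℝ) ^ 3 / (Q j : ℝ) ^ 2 * M) = ((#(bx X) : ℝ) ^ 2 / Q j) ^ 2 * (M / J) := by
        field_simp
      have e4 : M / J ≤ δ0 ^ 4 / 4096 := by
        rw [div_le_div_iff₀ hJ0' (by norm_num)]
        linarith
      rw [e3]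
      calc ((#(bx X) : ℝ) ^ 2 / Q j) ^ 2 * (M / J) ≤ ((#(bx X) : ℝ) ^ 2 / Q j) ^ 2 * (δ0 ^ 4 / 4096) :=
            mul_le_mul_of_nonneg_left e4 (by positivity)
        _ = _ := by ring
    refine e2.trans ?_
    have e5 : δ0 ^ 2 ≤ ((#S : ℝ) / #(bx X)) ^ 2 := pow_le_pow_left₀ hδ0.le hδ 2
    calc δ0 ^ 2 / 64 * ((#(bx X) : ℝ) ^ 2 / Q j) ≤ ((#S : ℝ) / #(bx X)) ^ 2 / 64 * ((#(bx X) : ℝ) ^ 2 / Q j * M2 F (Q j)) := by
          refine mul_le_mul (by linarith) ?_ (by positivity) (by positivity)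
          exact le_mul_of_one_le_right (by positivity) hM2'
      _ = _ := rfl

end Pool.Agent.Helper520_bf
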