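import Pool.Agent.Helper520_bf.Up

/-!
Sets with a bounded representation function contain few elements near the values of a form of degree `2 m` in `m`
variables which is badly distributed modulo many primes.
-/

set_option autoImplicit false
set_option linter.unusedSectionVars false
set_option linter.unusedVariables false

namespace Pool.Agent.Helper520_bf

open Finset MvPolynomial Filter

variable {m : ℕ}

/-- the elements of `A` up to `N` within `W` of `α F(x)`, `x` an integral point of height at most `C N ^ (1 / (2 m))` -/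
def nearVal (A : Set ℕ) (F : MvPolynomial (Fin m) ℤ) (α C : ℝ) (W N : ℕ) : Set ℕ :=
  {a | a ∈ A ∧ a ≤ N ∧ ∃ x : Fin m → ℤ, (∀ i, |((x i : ℤ) : ℝ)| ≤ C * (N : ℝ) ^ (1 / (2 * m) : ℝ)) ∧
    |(a : ℝ) - α * ((aeval x F : ℤ) : ℝ)| ≤ W}

lemma nearVal_finite (A : Set ℕ) (F : MvPolynomial (Fin m) ℤ) (α C : ℝ) (W N : ℕ) : (nearVal A F α C W N).Finite :=
  (Set.finite_Iic N).subset fun a ha => ha.2.1

lemma not_summable_remove (f : ℕ → ℝ) (P : ℕ → Prop) (c : ℤ) (hc : c ≠ 0) (hP : ∀ p, P p → p.Prime)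
    (h : ¬ Summable fun p : {p : ℕ // P p} => f p) :
    ¬ Summable fun p : ({p : ℕ | P p ∧ ¬ (p : ℤ) ∣ c} : Set ℕ) => f p := by
  intro h1
  apply h
  have h2 : Summable (Set.indicator {p : ℕ | P p ∧ ¬ (p : ℤ) ∣ c} f) := summable_subtype_iff_indicator.1 h1
  have h3 : Summable (Set.indicator {p : ℕ | P p} f) := by
    refine (summable_congr_cofinite ?_).1 h2
    have h4 : {p : ℕ | P p ∧ (p : ℤ) ∣ c}.Finite := by
      refine (Set.finite_Iic c.natAbs).subset fun p hp => ?_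
      exact Nat.le_of_dvd (Int.natAbs_pos.2 hc) (Int.natCast_dvd.1 hp.2)
    filter_upwards [h4.compl_mem_cofinite] with p hp
    by_cases h5 : P p
    · have h6 : ¬ (p : ℤ) ∣ c := fun h7 => hp ⟨h5, h7⟩
      rw [Set.indicator_of_mem (show p ∈ {p : ℕ | P p ∧ ¬ (p : ℤ) ∣ c} from ⟨h5, h6⟩),
        Set.indicator_of_mem (show p ∈ {p : ℕ | P p} from h5)]
    · rw [Set.indicator_of_notMem (fun h : p ∈ {p : ℕ | P p ∧ ¬ (p : ℤ) ∣ c} => h5 h.1),
        Set.indicator_of_notMem (fun h : p ∈ {p : ℕ | P p} => h5 h)]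
  exact (summable_subtype_iff_indicator (s := {p : ℕ | P p})).2 h3

lemma rpow_root (hm : 0 < m) (N : ℕ) : ((N : ℝ) ^ (1 / (2 * m) : ℝ)) ^ m = Real.sqrt N := by
  rw [← Real.rpow_natCast, ← Real.rpow_mul (Nat.cast_nonneg _), Real.sqrt_eq_rpow]
  congr 1
  have : (m : ℝ) ≠ 0 := by exact_mod_cast hm.ne'
  field_simp

theorem crit (hm : 0 < m) (F : MvPolynomial (Fin m) ℤ) (hF : F.IsHomogeneous (2 * m))
    (hdiv : ¬ Summable fun p : {p : ℕ // p.Prime ∧ p % (4 * m) = 1} => vv F p)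
    (α C : ℝ) (hα : 0 < α) (hC : 0 < C) (W g : ℕ) (ε : ℝ) (hε : 0 < ε) :
    ∃ N0 : ℕ, ∀ N, N0 ≤ N → ∀ A : Set ℕ, (∀ n, rep A n ≤ g) →
      ((nearVal A F α C W N).ncard : ℝ) ≤ ε * Real.sqrt N := by
  classical
  rcases eq_or_ne F 0 with hF0 | hF0
  · -- the zero form
    obtain ⟨N0, hN0⟩ := exists_nat_ge (((W + 1 : ℕ) / ε) ^ 2)
    refine ⟨N0, fun N hN A _ => ?_⟩
    have h1 : (nearVal A F α C W N).ncard ≤ W + 1 := by
      have h2 : nearVal A F α C W N ⊆ ((Finset.range (W + 1) : Finset ℕ) : Set ℕ) := by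
        rintro a ⟨_, _, x, _, hx⟩
        rw [hF0, map_zero] at hx
        rw [Finset.mem_coe, Finset.mem_range]
        have h3 : (a : ℝ) ≤ W := by
          have := (abs_le.1 hx).2
          simpa using this
        have : a ≤ W := by exact_mod_cast h3
        omega
      have h3 := Set.ncard_le_ncard h2 (Finset.finite_toSet _)
      rwa [Set.ncard_coe_finset, Finset.card_range] at h3
    have h2 : ((W + 1 : ℕ) : ℝ) / ε ≤ Real.sqrt N := by
      refine Real.le_sqrt_of_sq_le (hN0.trans ?_)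
      exact_mod_cast hN
    rw [div_le_iff₀ hε] at h2
    calc ((nearVal A F α C W N).ncard : ℝ) ≤ ((W + 1 : ℕ) : ℝ) := by exact_mod_cast h1
      _ ≤ Real.sqrt N * ε := h2
      _ = _ := by ring
  obtain ⟨s0, hs0⟩ : ∃ s, F.coeff s ≠ 0 := by
    by_contra hcon
    push Not at hcon
    exact hF0 (MvPolynomial.ext _ _ fun s => by rw [hcon s, coeff_zero])
  set Pr : Set ℕ := {p : ℕ | (p.Prime ∧ p % (4 * m) = 1) ∧ ¬ (p : ℤ) ∣ F.coeff s0} with hPr
  have hdiv' : ¬ Summable fun p : Pr => vv F p :=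
    not_summable_remove (vv F) (fun p => p.Prime ∧ p % (4 * m) = 1) (F.coeff s0) hs0 (fun p h => h.1) hdiv
  set D : ℝ := ((2 * m : ℕ) : ℝ) with hD
  have hD1 : 1 ≤ D := by
    rw [hD]
    exact_mod_cast (by omega : 1 ≤ 2 * m)
  have hloc : ∀ p ∈ Pr, 0 ≤ vv F p ∧ 1 + vv F p ≤ D ∧ M3 F p ≤ 1 + (3 + D) * vv F p := by
    intro p hp
    have h1 := local_bounds hm F hp.1.1 D hD1 fun n => sol_le hm hF (by omega) hs0 hp.1.1 hp.2 n
    exact ⟨h1.1, h1.2.1, h1.2.2.1⟩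
  -- the parameters
  set δ0 : ℝ := ε / ((2 * W + 1) * (4 * C) ^ m) with hδ0
  have hδ0pos : 0 < δ0 := by positivity
  set K : ℝ := 2 + 2 * (g * (4 * W + 1) * (3 / α + 1)) / (δ0 ^ 2 * (2 * C) ^ (2 * m)) with hK
  have hK1 : 1 < K := by
    have : 0 ≤ 2 * (g * (4 * W + 1) * (3 / α + 1)) / (δ0 ^ 2 * (2 * C) ^ (2 * m)) := by positivity
    linarith
  obtain ⟨T, hT1, hT2, hT3⟩ := blocks Pr (vv F) D (fun p hp => (hloc p hp).1) (fun p hp => (hloc p hp).2.1) hdiv' K hK1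
  set M : ℝ := (K * D) ^ (3 + 2 * m) with hM
  have hM0 : 0 < M := by positivity
  obtain ⟨J, hJ⟩ := exists_nat_ge (4096 * M / δ0 ^ 4)
  have hJ' : 4096 * M ≤ J * δ0 ^ 4 := by rwa [div_le_iff₀ (by positivity)] at hJ
  have hTprime : ∀ j, ∀ q ∈ T j, q.Prime := fun j q hq => (hT1 j q hq).1.1
  have hne : ∀ q : ℕ, q.Prime → M2 F q = 1 + vv F q := by
    intro q hq
    have : NeZero q := ⟨hq.ne_zero⟩
    exact M2_eq F q
  have hM2 : ∀ j, K ≤ M2 F (∏ q ∈ T j, q) := by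
    intro j
    rw [M2_prod F _ (hTprime j), Finset.prod_congr rfl fun q hq => hne q (hTprime j q hq)]
    exact (hT3 j).1
  have hM3 : ∀ j, M3 F (∏ q ∈ T j, q) ≤ M := by
    intro j
    rw [M3_prod F _ (hTprime j)]
    have h1 : ∏ q ∈ T j, M3 F q ≤ ∏ q ∈ T j, (1 + vv F q) ^ (3 + 2 * m) := by
      refine Finset.prod_le_prod (fun q _ => by unfold M3; positivity) fun q hq => ?_
      have h2 := hloc q (hT1 j q hq)
      refine h2.2.2.trans ?_
      have h3 := one_add_mul_le_pow (a := vv F q) (by linarith [h2.1]) (3 + 2 * m)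
      refine le_trans (le_of_eq ?_) h3
      rw [hD]
      push_cast
      ring
    refine h1.trans ?_
    rw [Finset.prod_pow]
    refine pow_le_pow_left₀ (Finset.prod_nonneg fun q hq => ?_) (hT3 j).2 _
    have := (hloc q (hT1 j q hq)).1
    linarith
  set P0 : ℕ := ∏ j ∈ range J, ∏ q ∈ T j, q with hP0def
  have hPpos : 0 < P0 := Finset.prod_pos fun j _ => Nat.pos_of_ne_zero (prod_ne_zero_primes (hTprime j))
  have hPr0 : (0 : ℝ) < P0 := by exact_mod_cast hPpos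
  -- the threshold
  obtain ⟨N1, hN1⟩ := exists_nat_ge (((P0 : ℝ) / C) ^ (2 * m))
  refine ⟨max (max (4 * W) P0) (max N1 1), fun N hN A hA => ?_⟩
  have hNW : 4 * W ≤ N := (le_max_left _ _).trans ((le_max_left _ _).trans hN)
  have hNP : P0 ≤ N := (le_max_right _ _).trans ((le_max_left _ _).trans hN)
  have hNN1 : N1 ≤ N := (le_max_left _ _).trans ((le_max_right _ _).trans hN)
  have hN1' : 1 ≤ N := (le_max_right _ _).trans ((le_max_right _ _).trans hN)
  have hNr : (0 : ℝ) < N := by exact_mod_cast hN1'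
  set ρ : ℝ := (N : ℝ) ^ (1 / (2 * m) : ℝ) with hρ
  have hρ0 : 0 < ρ := by positivity
  have hρm : ρ ^ m = Real.sqrt N := rpow_root hm N
  have hρ2m : ρ ^ (2 * m) = N := by
    rw [mul_comm, pow_mul, hρm, Real.sq_sqrt hNr.le]
  set R : ℝ := C * ρ with hR
  have hR0 : 0 < R := by positivity
  have hRP : (P0 : ℝ) ≤ R := by
    have h1 : ((P0 : ℝ) / C) ^ (2 * m) ≤ ρ ^ (2 * m) := by
      rw [hρ2m]
      exact hN1.trans (by exact_mod_cast hNN1)
    have h2 : (P0 : ℝ) / C ≤ ρ := le_of_pow_le_pow_left₀ (by omega) hρ0.le h1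
    rw [div_le_iff₀ hC] at h2
    rw [hR]
    linarith
  by_contra hcon
  push Not at hcon
  -- the box
  set X : ℕ := P0 * (⌊R / P0⌋₊ + 1) with hX
  have hXpos : 0 < X := Nat.mul_pos hPpos (Nat.succ_pos _)
  have hRX : R < X := by
    have h1 : R / P0 < ⌊R / P0⌋₊ + 1 := Nat.lt_floor_add_one _
    rw [div_lt_iff₀ hPr0] at h1
    rw [hX]
    push_cast
    linarith
  have hX2R : (X : ℝ) ≤ 2 * R := by
    have h1 : (⌊R / P0⌋₊ : ℝ) ≤ R / P0 := Nat.floor_le (by positivity)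
    rw [le_div_iff₀ hPr0] at h1
    rw [hX]
    push_cast
    linarith
  -- the choice
  set A' := nearVal A F α C W N with hA'
  have hfin : A'.Finite := nearVal_finite A F α C W N
  set B : Finset ℕ := hfin.toFinset with hB
  have hex : ∀ a : ℕ, ∃ x : Fin m → ℤ, a ∈ A' → (∀ i, |((x i : ℤ) : ℝ)| ≤ R) ∧ |(a : ℝ) - α * ((aeval x F : ℤ) : ℝ)| ≤ W := by
    intro a
    by_cases ha : a ∈ A'
    · obtain ⟨_, _, x, h1, h2⟩ := ha
      exact ⟨x, fun _ => ⟨h1, h2⟩⟩
    · exact ⟨0, fun h => absurd h ha⟩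
  choose x hx using hex
  set S : Finset (Fin m → ℤ) := B.image x with hS
  have hSex : ∀ s : Fin m → ℤ, ∃ a : ℕ, s ∈ S → a ∈ A' ∧ x a = s := by
    intro s
    by_cases hs : s ∈ S
    · rw [hS, Finset.mem_image] at hs
      obtain ⟨a, ha, hxa⟩ := hs
      exact ⟨a, fun _ => ⟨hfin.mem_toFinset.1 ha, hxa⟩⟩
    · exact ⟨0, fun h => absurd h hs⟩
  choose φ hφ using hSex
  have hinj : Set.InjOn φ S := by
    intro s hs t ht hst
    rw [← (hφ s hs).2, ← (hφ t ht).2, hst]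
  have hφA : ∀ s ∈ S, φ s ∈ A ∧ φ s ≤ N ∧ |(φ s : ℝ) - α * ((aeval s F : ℤ) : ℝ)| ≤ W := by
    intro s hs
    have h1 := hφ s hs
    have h2 := (hx (φ s) h1.1).2
    rw [h1.2] at h2
    exact ⟨h1.1.1, h1.1.2.1, h2⟩
  have hcardB : #B ≤ (2 * W + 1) * #S := by
    refine Finset.card_le_mul_card_image B (2 * W + 1) fun s hs => ?_
    rw [← card_nearNat (α * ((aeval s F : ℤ) : ℝ)) W]
    refine Finset.card_le_card fun a ha => ?_
    rw [Finset.mem_filter] at ha
    refine mem_nearNat ?_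
    have := (hx a (hfin.mem_toFinset.1 ha.1)).2
    rwa [ha.2] at this
  have hSbox : S ⊆ bx fun _ => X := by
    intro s hs
    unfold bx
    rw [Fintype.mem_piFinset]
    intro i
    have h1 := hφ s hs
    have h2 := (hx (φ s) h1.1).1 i
    rw [h1.2] at h2
    obtain ⟨h3, h4⟩ := abs_le.1 h2
    rw [Finset.mem_Ico]
    constructor
    · have : (-(X : ℤ) : ℝ) ≤ (s i : ℤ) := by push_cast; linarith
      exact_mod_cast this
    · have : ((s i : ℤ) : ℝ) < ((X : ℤ) : ℝ) := by push_cast; linarith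
      exact_mod_cast this
  have hcardbx : (#(bx fun _ : Fin m => X) : ℝ) = (2 * X) ^ m := by
    rw [card_bx, Finset.prod_const, Finset.card_univ, Fintype.card_fin]
    push_cast
    rfl
  have hSδ : δ0 * #(bx fun _ : Fin m => X) ≤ #S := by
    rw [hcardbx]
    have h1 : ((2 : ℝ) * X) ^ m ≤ (4 * C) ^ m * Real.sqrt N := by
      rw [← hρm, ← mul_pow]
      refine pow_le_pow_left₀ (by positivity) ?_ _
      rw [hR] at hX2R
      linarith
    have h2 : (#B : ℝ) ≤ (2 * W + 1) * #S := by exact_mod_cast hcardB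
    have h3 : ((A'.ncard : ℕ) : ℝ) = #B := by
      rw [hB, Set.ncard_eq_toFinset_card A' hfin]
    rw [h3] at hcon
    have h4 : ε * Real.sqrt N ≤ (2 * W + 1) * #S := hcon.le.trans h2
    calc δ0 * ((2 : ℝ) * X) ^ m ≤ δ0 * ((4 * C) ^ m * Real.sqrt N) := mul_le_mul_of_nonneg_left h1 hδ0pos.le
      _ = ε * Real.sqrt N / (2 * W + 1) := by
          rw [hδ0]
          field_simp
      _ ≤ (2 * W + 1) * #S / (2 * W + 1) := by
          refine div_le_div_of_nonneg_right h4 (by positivity)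
      _ = #S := by field_simp
  have hsym : ∀ j, ∀ q ∈ T j, Sym F q := by
    intro j q hq
    refine sym_prime (d := 2 * m) (by omega) hF (hTprime j q hq) ?_
    have := (hT1 j q hq).1.2
    rw [show 2 * (2 * m) = 4 * m by ring]
    exact this
  obtain ⟨j, hjJ, hj⟩ := block hm F J T hTprime hT2 hsym K M δ0 hK1.le hM2 hM3 hδ0pos hM0 hJ' (fun _ => X) (fun _ => hXpos)
    (fun _ => Dvd.intro _ rfl) S hSbox hSδ
  set Q : ℕ := ∏ q ∈ T j, q with hQ
  have hQpos : 0 < Q := Nat.pos_of_ne_zero (prod_ne_zero_primes (hTprime j))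
  have hQr : (0 : ℝ) < Q := by exact_mod_cast hQpos
  have hQP : Q ≤ P0 := Nat.le_of_dvd hPpos (Finset.dvd_prod_of_mem (fun j => ∏ q ∈ T j, q) (Finset.mem_range.2 hjJ))
  have hup := upper A g hA F α hα W N Q hQpos S φ hinj hφA
  have h1 := hj.trans hup
  have hQN : (Q : ℝ) ≤ N := by exact_mod_cast hQP.trans hNP
  have h2 : (2 * N + 4 * W) / (α * Q) + 1 ≤ (3 / α + 1) * (N / Q) := by
    have e1 : (2 * (N : ℝ) + 4 * W) ≤ 3 * N := by
      have : (4 : ℝ) * W ≤ N := by exact_mod_cast hNW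
      linarith
    have e2 : (2 * (N : ℝ) + 4 * W) / (α * Q) ≤ 3 * N / (α * Q) := div_le_div_of_nonneg_right e1 (by positivity)
    have e3 : (1 : ℝ) ≤ N / Q := by rwa [one_le_div hQr]
    have e4 : 3 * (N : ℝ) / (α * Q) = 3 / α * (N / Q) := by field_simp
    rw [e4] at e2
    linarith
  have h3 : (2 * C) ^ (2 * m) * N ≤ (#(bx fun _ : Fin m => X) : ℝ) ^ 2 := by
    rw [hcardbx, ← hρ2m, ← mul_pow, ← pow_mul, mul_comm m 2]
    refine pow_le_pow_left₀ (by positivity) ?_ _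
    rw [hR] at hRX
    linarith
  have h4 : δ0 ^ 2 / 2 * K * ((2 * C) ^ (2 * m) * (N / Q)) ≤ g * (4 * W + 1) * ((3 / α + 1) * (N / Q)) := by
    refine le_trans ?_ (h1.trans (mul_le_mul_of_nonneg_left h2 (by positivity)))
    refine mul_le_mul_of_nonneg_left ?_ (by positivity)
    rw [mul_div_assoc']
    exact div_le_div_of_nonneg_right h3 hQr.le
  have h5 : δ0 ^ 2 / 2 * K * (2 * C) ^ (2 * m) ≤ g * (4 * W + 1) * (3 / α + 1) := by
    have e1 : (0 : ℝ) < N / Q := by positivity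
    refine le_of_mul_le_mul_right ?_ e1
    calc δ0 ^ 2 / 2 * K * (2 * C) ^ (2 * m) * (N / Q) = δ0 ^ 2 / 2 * K * ((2 * C) ^ (2 * m) * (N / Q)) := by ring
      _ ≤ _ := h4
      _ = _ := by ring
  have h6 : δ0 ^ 2 / 2 * K * (2 * C) ^ (2 * m) = δ0 ^ 2 * (2 * C) ^ (2 * m) + g * (4 * W + 1) * (3 / α + 1) := by
    rw [hK]
    field_simp
  rw [h6] at h5
  have : 0 < δ0 ^ 2 * (2 * C) ^ (2 * m) := by positivity
  linarith

end Pool.Agent.Helper520_bf
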