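import Pool.Agent.Helper520_bf.PowC

/-!
Forms which are reducible over the algebraic numbers are badly distributed modulo many primes.
-/

set_option autoImplicit false
set_option linter.unusedSectionVars false
set_option linter.unusedVariables false

namespace Pool.Agent.Helper520_bf

open Finset MvPolynomial NumberField

variable {m : ℕ}

lemma zero_div (hm : 0 < m) :
    ¬ Summable fun p : {p : ℕ // p.Prime ∧ p % (4 * m) = 1} => vv (0 : MvPolynomial (Fin m) ℤ) p := by
  classical
  have : NeZero (4 * m) := ⟨by omega⟩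
  have hcyc : IsCyclotomicExtension {4 * m} ℚ (CyclotomicField (4 * m) ℚ) := CyclotomicField.isCyclotomicExtension (4 * m) ℚ
  have hζ : IsPrimitiveRoot (IsCyclotomicExtension.zeta (4 * m) ℚ (CyclotomicField (4 * m) ℚ)) (4 * m) :=
    IsCyclotomicExtension.zeta_spec (4 * m) ℚ (CyclotomicField (4 * m) ℚ)
  refine div_transfer hm 0 {p : ℕ | (p.Prime ∧ Nonempty (𝓞 (CyclotomicField (4 * m) ℚ) →+* ZMod p)) ∧ ¬ (p : ℤ) ∣ ((4 * m : ℕ) : ℤ)}
    (1 / 2) (by norm_num) ?_ ?_
  · rintro p ⟨⟨hp, ⟨φ⟩⟩, hpN⟩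
    have : Fact p.Prime := ⟨hp⟩
    have hp4 : ¬ p ∣ 4 * m := fun h => hpN (by exact_mod_cast h)
    have hmod := mod_of_hom hm hζ.toInteger hζ.toInteger_isPrimitiveRoot hp hp4 φ
    refine ⟨hp, hmod, ?_⟩
    have hp3 : 3 ≤ p := by
      by_contra hcon
      have h1 := hp.two_le
      have h2 : p = 2 := by omega
      apply hp4
      rw [h2]
      exact Dvd.dvd.mul_right (by norm_num) _
    have e7 := vv_of_image hm (0 : MvPolynomial (Fin m) ℤ) hp hp3 {0} (by rw [Finset.card_singleton]; omega) fun x => by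
      rw [map_zero]
      exact Finset.mem_singleton_self _
    have hp1 : (1 : ℝ) ≤ p := by exact_mod_cast hp.one_lt.le
    have e8 : 1 / (p : ℝ) ≤ 1 := by
      rw [div_le_one (by linarith)]
      exact hp1
    linarith
  · exact not_summable_remove (fun p : ℕ => 1 / (p : ℝ))
      (fun p => p.Prime ∧ Nonempty (𝓞 (CyclotomicField (4 * m) ℚ) →+* ZMod p)) ((4 * m : ℕ) : ℤ)
      (by exact_mod_cast (by omega : 4 * m ≠ 0)) (fun p h => h.1) (split_div _)

theorem reducible_div (hm : 0 < m) {F : MvPolynomial (Fin m) ℤ} (hF : F.IsHomogeneous (2 * m))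
    (h : ¬ Irreducible (MvPolynomial.map (algebraMap ℤ (AlgebraicClosure ℚ)) F)) :
    ¬ Summable fun p : {p : ℕ // p.Prime ∧ p % (4 * m) = 1} => vv F p := by
  classical
  rcases eq_or_ne F 0 with rfl | hF0
  · exact zero_div hm
  have hinj : Function.Injective (MvPolynomial.map (σ := Fin m) (algebraMap ℤ (AlgebraicClosure ℚ))) :=
    MvPolynomial.map_injective _ (algebraMap ℤ (AlgebraicClosure ℚ)).injective_int
  have hFΩ0 : MvPolynomial.map (algebraMap ℤ (AlgebraicClosure ℚ)) F ≠ 0 := fun h => hF0 (hinj (by rw [h, map_zero]))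
  have hnu : ¬ IsUnit (MvPolynomial.map (algebraMap ℤ (AlgebraicClosure ℚ)) F) := by
    intro hu
    rw [isUnit_iff_totalDegree_of_isReduced, (hF.map _).totalDegree hFΩ0] at hu
    omega
  obtain ⟨G, H, hGH, hG, hH⟩ : ∃ G H : MvPolynomial (Fin m) (AlgebraicClosure ℚ),
      MvPolynomial.map (algebraMap ℤ (AlgebraicClosure ℚ)) F = G * H ∧ ¬ IsUnit G ∧ ¬ IsUnit H := by
    rw [irreducible_iff] at h
    by_contra hcon
    push Not at hcon
    refine h ⟨hnu, fun G H hGH => ?_⟩
    by_contra hc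
    push Not at hc
    exact hc.2 (hcon G H hGH hc.1)
  -- the field
  have h4m : NeZero (4 * m) := ⟨by omega⟩
  have h4mΩ : NeZero (((4 * m : ℕ)) : AlgebraicClosure ℚ) := ⟨by exact_mod_cast (by omega : 4 * m ≠ 0)⟩
  obtain ⟨ζ, hζ⟩ : ∃ ζ : AlgebraicClosure ℚ, IsPrimitiveRoot ζ (4 * m) :=
    HasEnoughRootsOfUnity.exists_primitiveRoot (AlgebraicClosure ℚ) (4 * m)
  set St : Set (AlgebraicClosure ℚ) := (G.coeffs : Set (AlgebraicClosure ℚ)) ∪ (H.coeffs : Set (AlgebraicClosure ℚ)) ∪ {ζ} with hSt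
  have hfin : Finite St := by
    rw [hSt]
    exact Set.Finite.to_subtype ((G.coeffs.finite_toSet.union H.coeffs.finite_toSet).union (Set.finite_singleton ζ))
  have hint : ∀ x ∈ St, IsIntegral ℚ x := fun x _ => ((AlgebraicClosure.isAlgebraic ℚ).isAlgebraic x).isIntegral
  have hfd : FiniteDimensional ℚ (IntermediateField.adjoin ℚ St) := IntermediateField.finiteDimensional_adjoin hint
  have hnf : NumberField (IntermediateField.adjoin ℚ St) := { to_charZero := inferInstance, to_finiteDimensional := hfd }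
  set K := IntermediateField.adjoin ℚ St with hK
  have hmem : ∀ x ∈ St, x ∈ K := fun x hx => IntermediateField.subset_adjoin ℚ St hx
  have hlift : ∀ G : MvPolynomial (Fin m) (AlgebraicClosure ℚ), (∀ c ∈ G.coeffs, c ∈ K) →
      ∃ G' : MvPolynomial (Fin m) K, MvPolynomial.map (algebraMap K (AlgebraicClosure ℚ)) G' = G := by
    intro G hG
    have h1 : G ∈ Set.range (MvPolynomial.map (σ := Fin m) (algebraMap K (AlgebraicClosure ℚ))) := by
      rw [mem_range_map_iff_coeffs_subset]
      intro c hc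
      exact ⟨⟨c, hG c hc⟩, rfl⟩
    exact h1
  obtain ⟨G', hG'⟩ := hlift G fun c hc => hmem c (Or.inl (Or.inl hc))
  obtain ⟨H', hH'⟩ := hlift H fun c hc => hmem c (Or.inl (Or.inr hc))
  have hGu : ¬ IsUnit G' := fun h => hG (hG' ▸ h.map (MvPolynomial.map (algebraMap K (AlgebraicClosure ℚ))))
  have hHu : ¬ IsUnit H' := fun h => hH (hH' ▸ h.map (MvPolynomial.map (algebraMap K (AlgebraicClosure ℚ))))
  have hFK : MvPolynomial.map (algebraMap ℤ K) F = G' * H' := by
    apply MvPolynomial.map_injective _ (algebraMap K (AlgebraicClosure ℚ)).injective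
    rw [map_mul, hG', hH', ← hGH, MvPolynomial.map_map]
    congr 1
  have hFK0 : MvPolynomial.map (algebraMap ℤ K) F ≠ 0 := by
    intro h
    exact hF0 (MvPolynomial.map_injective _ (algebraMap ℤ K).injective_int (by rw [h, map_zero]))
  have hG0 : G' ≠ 0 := by
    rintro h
    rw [h, zero_mul] at hFK
    exact hFK0 hFK
  set ζ1 : K := ⟨ζ, hmem _ (Or.inr rfl)⟩ with hζ1
  have hζ1p : IsPrimitiveRoot ζ1 (4 * m) := by
    refine IsPrimitiveRoot.of_map_of_injective (f := algebraMap K (AlgebraicClosure ℚ)) ?_ (algebraMap K (AlgebraicClosure ℚ)).injective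
    exact hζ
  -- the factors
  obtain ⟨P1, hP1, hP1G⟩ := WfDvdMonoid.exists_irreducible_factor hGu hG0
  have hP1F : P1 ∣ MvPolynomial.map (algebraMap ℤ K) F := by
    rw [hFK]
    exact Dvd.dvd.mul_right hP1G _
  by_cases hcase : ∃ P2, Irreducible P2 ∧ P2 ∣ MvPolynomial.map (algebraMap ℤ K) F ∧ ¬ P1 ∣ P2
  · obtain ⟨P2, hP2, hP2F, hna⟩ := hcase
    exact two_factors_div hm hF hF0 hζ1p.toInteger hζ1p.toInteger_isPrimitiveRoot P1 P2 hP1 hP2 hna hP1F hP2F
  · push Not at hcase
    obtain ⟨e, R, hR, hFR⟩ := WfDvdMonoid.max_power_factor hFK0 hP1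
    have hRu : IsUnit R := by
      by_contra hRu
      have hR0 : R ≠ 0 := by
        rintro rfl
        exact hR (dvd_zero _)
      obtain ⟨P2, hP2, hP2R⟩ := WfDvdMonoid.exists_irreducible_factor hRu hR0
      exact hR ((hcase P2 hP2 (by rw [hFR]; exact Dvd.dvd.mul_left hP2R _)).trans hP2R)
    obtain ⟨c, hc, hRc⟩ := isUnit_iff_eq_C_of_isReduced.1 hRu
    have he : 2 ≤ e := by
      by_contra hcon
      have h1 : e = 0 ∨ e = 1 := by omega
      rcases h1 with rfl | rfl
      · rw [hFR, pow_zero, one_mul] at hP1F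
        exact hR hP1F
      · have h2 : Irreducible (MvPolynomial.map (algebraMap ℤ K) F) := by
          rw [hFR, pow_one]
          exact (irreducible_mul_isUnit hRu).2 hP1
        rcases h2.isUnit_or_isUnit hFK with h3 | h3
        · exact hGu h3
        · exact hHu h3
    refine pow_case hm hF hF0 hζ1p.toInteger hζ1p.toInteger_isPrimitiveRoot P1 c e he ?_
    refine hFR.trans ?_
    rw [hRc, mul_comm]

end Pool.Agent.Helper520_bf
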