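import Pool.Agent.Helper520_bf.Crit

/-!
Positive definite forms, finite families, and asymptotic bases.
-/

set_option autoImplicit false
set_option linter.unusedSectionVars false
set_option linter.unusedVariables false

namespace Pool.Agent.Helper520_bf

open Finset MvPolynomial Filter

variable {m : ℕ}

/-- the values at real points -/
lemma ev_cast (F : MvPolynomial (Fin m) ℤ) (x : Fin m → ℤ) :
    (aeval (fun i => ((x i : ℤ) : ℝ)) F : ℝ) = ((aeval x F : ℤ) : ℝ) :=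
  (map_ev (Int.castRingHom ℝ) F x).symm

lemma ev_cont (F : MvPolynomial (Fin m) ℤ) : Continuous fun x : Fin m → ℝ => (aeval x F : ℝ) := by
  have h : (fun x : Fin m → ℝ => (aeval x F : ℝ)) = fun x => eval x (MvPolynomial.map (Int.castRingHom ℝ) F) := by
    funext x
    rw [eval_map]
    rfl
  rw [h]
  exact MvPolynomial.continuous_eval _

/-- positive definite -/
def PosDef (F : MvPolynomial (Fin m) ℤ) : Prop := ∀ x : Fin m → ℝ, x ≠ 0 → 0 < (aeval x F : ℝ)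

lemma PosDef.lower (hm : 0 < m) {F : MvPolynomial (Fin m) ℤ} {d : ℕ} (hF : F.IsHomogeneous d) (hd : 0 < d) (h : PosDef F) :
    ∃ κ : ℝ, 0 < κ ∧ ∀ x : Fin m → ℝ, κ * ‖x‖ ^ d ≤ (aeval x F : ℝ) := by
  have hne : (Metric.sphere (0 : Fin m → ℝ) 1).Nonempty := by
    refine ⟨fun _ => 1, ?_⟩
    rw [mem_sphere_zero_iff_norm]
    haveI : Nonempty (Fin m) := ⟨⟨0, hm⟩⟩
    rw [pi_norm_const, norm_one]
  obtain ⟨x0, hx0, hmin⟩ := (isCompact_sphere (0 : Fin m → ℝ) 1).exists_isMinOn hne (ev_cont F).continuousOn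
  have hx0' : x0 ≠ 0 := by
    rintro rfl
    rw [mem_sphere_zero_iff_norm, norm_zero] at hx0
    exact zero_ne_one hx0
  refine ⟨(aeval x0 F : ℝ), h x0 hx0', fun x => ?_⟩
  rcases eq_or_ne x 0 with rfl | hx
  · rw [norm_zero, zero_pow hd.ne', mul_zero]
    have h1 := ev_scale hF (0 : ℝ) (0 : Fin m → ℝ)
    have h2 : (fun i => (0 : ℝ) * (0 : Fin m → ℝ) i) = 0 := by funext i; simp
    rw [h2, zero_pow hd.ne', zero_mul] at h1
    rw [h1]
  · have hn : 0 < ‖x‖ := norm_pos_iff.2 hx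
    set y : Fin m → ℝ := fun i => ‖x‖⁻¹ * x i with hy
    have hy1 : y ∈ Metric.sphere (0 : Fin m → ℝ) 1 := by
      rw [mem_sphere_zero_iff_norm]
      have : y = ‖x‖⁻¹ • x := rfl
      rw [this, norm_smul, norm_inv, norm_norm, inv_mul_cancel₀ hn.ne']
    have h1 := hmin hy1
    have h2 := ev_scale hF (‖x‖) y
    have h3 : (fun i => ‖x‖ * y i) = x := by
      funext i
      rw [hy]
      simp only
      rw [← mul_assoc, mul_inv_cancel₀ hn.ne', one_mul]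
    rw [h3] at h2
    rw [h2, mul_comm]
    exact mul_le_mul_of_nonneg_left h1 (by positivity)

/-- the integers within `W` of a value of `α F` -/
def Near (F : MvPolynomial (Fin m) ℤ) (α : ℝ) (W : ℕ) : Set ℕ :=
  {a | ∃ x : Fin m → ℤ, |(a : ℝ) - α * ((aeval x F : ℤ) : ℝ)| ≤ W}

/-- the number of elements up to `N` -/
noncomputable def upto (B : Set ℕ) (N : ℕ) : ℕ := Set.ncard {a | a ∈ B ∧ a ≤ N}

lemma upto_mono {B B' : Set ℕ} (h : B ⊆ B') (N : ℕ) : upto B N ≤ upto B' N := by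
  unfold upto
  exact Set.ncard_le_ncard (fun a ha => ⟨h ha.1, ha.2⟩) ((Set.finite_Iic N).subset fun a ha => ha.2)

lemma near_sub (hm : 0 < m) {F : MvPolynomial (Fin m) ℤ} (hF : F.IsHomogeneous (2 * m)) (h : PosDef F) (α : ℝ) (hα : 0 < α)
    (W : ℕ) : ∃ C : ℝ, 0 < C ∧ ∀ N : ℕ, 1 ≤ N → ∀ A : Set ℕ,
      {a | a ∈ A ∩ Near F α W ∧ a ≤ N} ⊆ nearVal A F α C W N := by
  obtain ⟨κ, hκ, hlow⟩ := h.lower hm hF (by omega)
  have hm' : (0 : ℝ) < 2 * m := by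
    have : (0 : ℝ) < m := by exact_mod_cast hm
    linarith
  set C : ℝ := ((1 + W) / (α * κ)) ^ (1 / (2 * m) : ℝ) with hC
  have hC0 : 0 < C := by positivity
  refine ⟨C, hC0, fun N hN A a ha => ?_⟩
  obtain ⟨⟨ha1, x, hx⟩, ha2⟩ := ha
  refine ⟨ha1, ha2, x, fun i => ?_, hx⟩
  have hN' : (1 : ℝ) ≤ N := by exact_mod_cast hN
  have h1 := hlow (fun i => ((x i : ℤ) : ℝ))
  rw [ev_cast] at h1
  have h2 : α * ((aeval x F : ℤ) : ℝ) ≤ (1 + W) * N := by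
    have e1 := (abs_le.1 hx).1
    have e2 : (a : ℝ) ≤ N := by exact_mod_cast ha2
    have e3 : (W : ℝ) ≤ W * N := le_mul_of_one_le_right (Nat.cast_nonneg _) hN'
    nlinarith
  have h3 : ‖(fun i => ((x i : ℤ) : ℝ) : Fin m → ℝ)‖ ^ (2 * m) ≤ (1 + W) / (α * κ) * N := by
    rw [div_mul_eq_mul_div, le_div_iff₀ (by positivity)]
    nlinarith [mul_le_mul_of_nonneg_left h1 hα.le]
  have h4 : ‖(fun i => ((x i : ℤ) : ℝ) : Fin m → ℝ)‖ ≤ C * (N : ℝ) ^ (1 / (2 * m) : ℝ) := by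
    rw [hC, ← Real.mul_rpow (by positivity) (by positivity)]
    have h5 : ‖(fun i => ((x i : ℤ) : ℝ) : Fin m → ℝ)‖ =
        (‖(fun i => ((x i : ℤ) : ℝ) : Fin m → ℝ)‖ ^ (2 * m)) ^ (1 / (2 * m) : ℝ) := by
      rw [← Real.rpow_natCast, ← Real.rpow_mul (norm_nonneg _)]
      push_cast
      rw [mul_one_div_cancel hm'.ne', Real.rpow_one]
    rw [h5]
    exact Real.rpow_le_rpow (by positivity) h3 (by positivity)
  exact (norm_le_pi_norm (fun i => ((x i : ℤ) : ℝ) : Fin m → ℝ) i).trans h4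

/-- the theorem for positive definite forms -/
theorem posdef_single (hm : 0 < m) (F : MvPolynomial (Fin m) ℤ) (hF : F.IsHomogeneous (2 * m)) (hpos : PosDef F)
    (hdiv : ¬ Summable fun p : {p : ℕ // p.Prime ∧ p % (4 * m) = 1} => vv F p)
    (α : ℝ) (hα : 0 < α) (W g : ℕ) (ε : ℝ) (hε : 0 < ε) :
    ∃ N0 : ℕ, ∀ N, N0 ≤ N → ∀ A : Set ℕ, (∀ n, rep A n ≤ g) → (upto (A ∩ Near F α W) N : ℝ) ≤ ε * Real.sqrt N := by
  obtain ⟨C, hC, hsub⟩ := near_sub hm hF hpos α hα W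
  obtain ⟨N0, hN0⟩ := crit hm F hF hdiv α C hα hC W g ε hε
  refine ⟨max N0 1, fun N hN A hA => ?_⟩
  refine le_trans ?_ (hN0 N ((le_max_left _ _).trans hN) A hA)
  unfold upto
  exact_mod_cast Set.ncard_le_ncard (hsub N ((le_max_right _ _).trans hN) A) (nearVal_finite A F α C W N)

/-- finite families -/
theorem family {ι : Type*} [Fintype ι] (V : ι → Set ℕ) (g : ℕ)
    (h : ∀ j, ∀ ε : ℝ, 0 < ε → ∃ N0 : ℕ, ∀ N, N0 ≤ N → ∀ A : Set ℕ, (∀ n, rep A n ≤ g) →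
      (upto (A ∩ V j) N : ℝ) ≤ ε * Real.sqrt N) (ε : ℝ) (hε : 0 < ε) :
    ∃ N0 : ℕ, ∀ N, N0 ≤ N → ∀ A : Set ℕ, (∀ n, rep A n ≤ g) → (upto (A ∩ ⋃ j, V j) N : ℝ) ≤ ε * Real.sqrt N := by
  classical
  choose N0 hN0 using fun j => h j (ε / (Fintype.card ι + 1)) (by positivity)
  refine ⟨∑ j, N0 j, fun N hN A hA => ?_⟩
  have h1 : upto (A ∩ ⋃ j, V j) N ≤ ∑ j, upto (A ∩ V j) N := by
    unfold upto
    have h2 : {a | a ∈ A ∩ ⋃ j, V j ∧ a ≤ N} = ⋃ j, {a | a ∈ A ∩ V j ∧ a ≤ N} := by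
      ext a
      simp only [Set.mem_ofPred_eq, Set.mem_inter_iff, Set.mem_iUnion]
      constructor
      · rintro ⟨⟨h3, j, h4⟩, h5⟩
        exact ⟨j, ⟨h3, h4⟩, h5⟩
      · rintro ⟨j, ⟨h3, h4⟩, h5⟩
        exact ⟨⟨h3, j, h4⟩, h5⟩
    rw [h2]
    exact Set.ncard_iUnion_le_of_fintype _
  have h3 : ∀ j, (upto (A ∩ V j) N : ℝ) ≤ ε / (Fintype.card ι + 1) * Real.sqrt N := fun j =>
    hN0 j N ((Finset.single_le_sum (f := N0) (fun _ _ => Nat.zero_le _) (Finset.mem_univ j)).trans hN) A hA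
  calc (upto (A ∩ ⋃ j, V j) N : ℝ) ≤ ∑ j, (upto (A ∩ V j) N : ℝ) := by exact_mod_cast h1
    _ ≤ ∑ _j : ι, ε / (Fintype.card ι + 1) * Real.sqrt N := Finset.sum_le_sum fun j _ => h3 j
    _ = Fintype.card ι / (Fintype.card ι + 1) * (ε * Real.sqrt N) := by
        rw [Finset.sum_const, Finset.card_univ, nsmul_eq_mul]
        ring
    _ ≤ 1 * (ε * Real.sqrt N) := by
        refine mul_le_mul_of_nonneg_right ?_ (by positivity)
        rw [div_le_one (by positivity)]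
        linarith
    _ = _ := one_mul _

lemma basis_lower (A : Set ℕ) (hA : ∃ N : ℕ, ∀ n, N ≤ n → ∃ a ∈ A, ∃ b ∈ A, a + b = n) :
    ∃ N1 : ℕ, ∀ N, N1 ≤ N → Real.sqrt N ≤ 2 * upto A N := by
  classical
  obtain ⟨N0, hN0⟩ := hA
  refine ⟨2 * N0 + 1, fun N hN => ?_⟩
  have hfin : {a | a ∈ A ∧ a ≤ N}.Finite := (Set.finite_Iic N).subset fun a ha => ha.2
  set B : Finset ℕ := hfin.toFinset with hB
  have hcard : upto A N = #B := by
    unfold upto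
    rw [hB, Set.ncard_eq_toFinset_card _ hfin]
  have h1 : Finset.Icc N0 N ⊆ (B ×ˢ B).image fun x => x.1 + x.2 := by
    intro n hn
    rw [Finset.mem_Icc] at hn
    obtain ⟨a, ha, b, hb, hab⟩ := hN0 n hn.1
    rw [Finset.mem_image]
    refine ⟨(a, b), ?_, hab⟩
    rw [Finset.mem_product, hB, hfin.mem_toFinset, hfin.mem_toFinset]
    exact ⟨⟨ha, by omega⟩, hb, by omega⟩
  have h2 := (Finset.card_le_card h1).trans Finset.card_image_le
  rw [Nat.card_Icc, Finset.card_product] at h2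
  rw [hcard]
  have h3 : N ≤ 2 * (#B * #B) := by omega
  have h4 : (N : ℝ) ≤ (2 * #B : ℝ) ^ 2 := by
    have h5 : (N : ℝ) ≤ 2 * (#B * #B) := by exact_mod_cast h3
    nlinarith [sq_nonneg (#B : ℝ)]
  exact Real.sqrt_le_iff.2 ⟨by positivity, h4⟩

/-- the Erdős–Turán conclusion from the uniform bound -/
theorem et_of_bound (V : Set ℕ)
    (h : ∀ g : ℕ, ∀ ε : ℝ, 0 < ε → ∃ N0 : ℕ, ∀ N, N0 ≤ N → ∀ A : Set ℕ, (∀ n, rep A n ≤ g) →
      (upto (A ∩ V) N : ℝ) ≤ ε * Real.sqrt N) (A : Set ℕ)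
    (hA : ∃ N : ℕ, ∀ n, N ≤ n → ∃ a ∈ A, ∃ b ∈ A, a + b = n) (δ : ℝ) (hδ : 0 < δ)
    (hprop : ∃ᶠ N : ℕ in atTop, δ * (upto A N : ℝ) ≤ upto (A ∩ V) N) (r : ℕ) : ∃ n, r < rep A n := by
  by_contra hcon
  push Not at hcon
  obtain ⟨N1, hN1⟩ := basis_lower A hA
  obtain ⟨N0, hN0⟩ := h r (δ / 4) (by positivity)
  obtain ⟨N, hN, hN2⟩ := (hprop.and_eventually (eventually_ge_atTop (max (max N0 N1) 1))).exists
  have e1 := hN1 N ((le_max_right _ _).trans ((le_max_left _ _).trans hN2))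
  have e2 := hN0 N ((le_max_left _ _).trans ((le_max_left _ _).trans hN2)) A hcon
  have e3 : (0 : ℝ) < Real.sqrt N := by
    refine Real.sqrt_pos.2 ?_
    exact_mod_cast (le_max_right _ _).trans hN2
  nlinarith

end Pool.Agent.Helper520_bf
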