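import Pool.Agent.Helper520_bf.Desc
import Pool.Agent.Helper520_bf.Pos

/-!
The final form of the theorem.
-/

set_option autoImplicit false
set_option linter.unusedSectionVars false
set_option linter.unusedVariables false

namespace Pool.Agent.Helper520_bf

open Finset MvPolynomial Filter

variable {m : ℕ}

/-- the natural numbers `a` within `W` of `α F(x)` for an integral point `x` with `|x_i| ≤ C (a + 1) ^ (1 / (2 m))` -/
def Vals (F : MvPolynomial (Fin m) ℤ) (α C : ℝ) (W : ℕ) : Set ℕ :=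
  {a | ∃ x : Fin m → ℤ, (∀ i, |((x i : ℤ) : ℝ)| ≤ C * ((a : ℝ) + 1) ^ (1 / (2 * m) : ℝ)) ∧
    |(a : ℝ) - α * ((aeval x F : ℤ) : ℝ)| ≤ W}

/-- the sum of the deviations of `F` modulo the primes `p ≡ 1 (mod 4 m)` diverges -/
def Biased (F : MvPolynomial (Fin m) ℤ) : Prop :=
  ¬ Summable fun p : {p : ℕ // p.Prime ∧ p % (4 * m) = 1} => vv F p

theorem biased_single (hm : 0 < m) (F : MvPolynomial (Fin m) ℤ) (hF : F.IsHomogeneous (2 * m)) (hdiv : Biased F)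
    (α C : ℝ) (hα : 0 < α) (hC : 0 < C) (W g : ℕ) (ε : ℝ) (hε : 0 < ε) :
    ∃ N0 : ℕ, ∀ N, N0 ≤ N → ∀ A : Set ℕ, (∀ n, rep A n ≤ g) → (upto (A ∩ Vals F α C W) N : ℝ) ≤ ε * Real.sqrt N := by
  set κ : ℝ := (2 : ℝ) ^ (1 / (2 * m) : ℝ) with hκ
  have hκ0 : 0 < κ := by positivity
  obtain ⟨N0, hN0⟩ := crit hm F hF hdiv α (C * κ) hα (by positivity) W g ε hε
  refine ⟨max N0 1, fun N hN A hA => ?_⟩
  refine le_trans ?_ (hN0 N ((le_max_left _ _).trans hN) A hA)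
  have hN1 : (1 : ℝ) ≤ N := by exact_mod_cast (le_max_right _ _).trans hN
  unfold upto
  refine Nat.cast_le.2 (Set.ncard_le_ncard ?_ (nearVal_finite A F α (C * κ) W N))
  rintro a ⟨⟨ha, x, hx1, hx2⟩, haN⟩
  refine ⟨ha, haN, x, fun i => (hx1 i).trans ?_, hx2⟩
  rw [mul_assoc, hκ, ← Real.mul_rpow (by norm_num) (by positivity)]
  refine mul_le_mul_of_nonneg_left (Real.rpow_le_rpow (by positivity) ?_ (by positivity)) hC.le
  have : (a : ℝ) ≤ N := by exact_mod_cast haN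
  linarith

lemma near_subset_vals (hm : 0 < m) {F : MvPolynomial (Fin m) ℤ} (hF : F.IsHomogeneous (2 * m)) (h : PosDef F) (α : ℝ) (hα : 0 < α)
    (W : ℕ) : ∃ C : ℝ, 0 < C ∧ Near F α W ⊆ Vals F α C W := by
  obtain ⟨C, hC, hsub⟩ := near_sub hm hF h α hα W
  refine ⟨C, hC, fun a ha => ?_⟩
  obtain ⟨x, hx⟩ := ha
  obtain ⟨_, _, y, hy1, hy2⟩ := hsub (a + 1) (by omega) Set.univ (show a ∈ {b | b ∈ Set.univ ∩ Near F α W ∧ b ≤ a + 1} from
    ⟨⟨Set.mem_univ _, x, hx⟩, by omega⟩)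
  refine ⟨y, fun i => ?_, hy2⟩
  have := hy1 i
  push_cast at this
  exact this

theorem family_all (k : ℕ) (m : Fin k → ℕ) (F : ∀ j, MvPolynomial (Fin (m j)) ℤ) (α C : Fin k → ℝ) (W : Fin k → ℕ)
    (h : ∀ j, 0 < m j ∧ (F j).IsHomogeneous (2 * m j) ∧ Biased (F j) ∧ 0 < α j ∧ 0 < C j) (g : ℕ) (ε : ℝ) (hε : 0 < ε) :
    ∃ N0 : ℕ, ∀ N, N0 ≤ N → ∀ A : Set ℕ, (∀ n, rep A n ≤ g) →
      (upto (A ∩ ⋃ j, Vals (F j) (α j) (C j) (W j)) N : ℝ) ≤ ε * Real.sqrt N :=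
  family (fun j => Vals (F j) (α j) (C j) (W j)) g
    (fun j ε hε => biased_single (h j).1 (F j) (h j).2.1 (h j).2.2.1 (α j) (C j) (h j).2.2.2.1 (h j).2.2.2.2 (W j) g ε hε) ε hε

end Pool.Agent.Helper520_bf
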