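import Pool.Agent.Helper520_bf.Split

/-!
Forms which vanish on two hyperplanes over a number field are badly distributed modulo many primes.
-/

set_option autoImplicit false
set_option linter.unusedSectionVars false
set_option linter.unusedVariables false

namespace Pool.Agent.Helper520_bf

open Finset MvPolynomial NumberField

variable {m : ℕ}

lemma vv_ge (hm : 0 < m) (F : MvPolynomial (Fin m) ℤ) {p : ℕ} (hp : p.Prime) (n : ZMod p) :
    ((sol F p n : ℝ) / (p : ℝ) ^ (m - 1) - 1) ^ 2 ≤ p * vv F p := by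
  have : Fact p.Prime := ⟨hp⟩
  have hp1 : (1 : ℝ) ≤ p := by exact_mod_cast hp.one_lt.le
  refine (local_bounds hm F hp ((p : ℝ) ^ m) (one_le_pow₀ hp1) fun n => ?_).2.2.2 n
  have h1 : sol F p n ≤ p ^ m := by
    rw [← sum_sol F p]
    exact Finset.single_le_sum (f := fun n => sol F p n) (fun _ _ => Nat.zero_le _) (Finset.mem_univ n)
  calc (sol F p n : ℝ) ≤ (p : ℝ) ^ m := by exact_mod_cast h1
    _ ≤ _ := le_mul_of_one_le_right (by positivity) (one_le_pow₀ hp1)

lemma card_pre {G H : Type*} [AddCommGroup G] [AddCommGroup H] [Fintype G] [Fintype H] [DecidableEq H] (f : G →+ H)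
    (hf : Function.Surjective f) (T : Finset H) :
    #{x : G | f x ∈ T} * Fintype.card H = #T * Fintype.card G := by
  classical
  have h1 : ∀ y : H, #{x : G | f x = y} = #{x : G | f x = 0} := by
    intro y
    obtain ⟨x0, hx0⟩ := hf y
    refine Finset.card_bij' (fun x _ => x - x0) (fun x _ => x + x0) ?_ ?_ ?_ ?_
    · intro x hx
      rw [Finset.mem_filter] at hx ⊢
      refine ⟨Finset.mem_univ _, ?_⟩
      rw [map_sub, hx.2, hx0, sub_self]
    · intro x hx
      rw [Finset.mem_filter] at hx ⊢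
      refine ⟨Finset.mem_univ _, ?_⟩
      rw [map_add, hx.2, hx0, zero_add]
    · intro x _
      exact sub_add_cancel _ _
    · intro x _
      exact add_sub_cancel_right _ _
  have h2 : #{x : G | f x ∈ T} = #T * #{x : G | f x = 0} := by
    rw [Finset.card_eq_sum_card_fiberwise (s := ({x : G | f x ∈ T} : Finset G)) (f := f) (t := T)
      fun x hx => Finset.mem_coe.2 (Finset.mem_filter.1 (Finset.mem_coe.1 hx)).2]
    rw [← smul_eq_mul, ← Finset.sum_const]
    refine Finset.sum_congr rfl fun y hy => ?_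
    rw [← h1 y]
    congr 1
    ext x
    simp only [Finset.mem_filter, Finset.mem_univ, true_and]
    exact ⟨fun h => h.2, fun h => ⟨h ▸ hy, h⟩⟩
  have h3 : Fintype.card G = Fintype.card H * #{x : G | f x = 0} := by
    rw [← Finset.card_univ, Finset.card_eq_sum_card_fiberwise (f := f) (t := (univ : Finset H)) fun x _ => Finset.mem_coe.2 (Finset.mem_univ _),
      Finset.sum_congr rfl fun y _ => h1 y, Finset.sum_const, Finset.card_univ, smul_eq_mul]
  rw [h2, h3]
  ring

lemma two_hyp_mod {p : ℕ} [hp : Fact p.Prime] (a b : Fin m → ZMod p) (i j : Fin m) (h : a i * b j ≠ a j * b i)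
    (F : MvPolynomial (Fin m) ℤ)
    (hz : ∀ x : Fin m → ZMod p, (∑ k, a k * x k = 0 ∨ ∑ k, b k * x k = 0) → (aeval x F : ZMod p) = 0) :
    (2 * p - 1) * p ^ m ≤ sol F p 0 * p ^ 2 := by
  classical
  set f : (Fin m → ZMod p) →+ ZMod p × ZMod p :=
    { toFun := fun x => (∑ k, a k * x k, ∑ k, b k * x k)
      map_zero' := by simp
      map_add' := fun x y => by
        refine Prod.ext ?_ ?_
        · show ∑ k, a k * (x k + y k) = ∑ k, a k * x k + ∑ k, a k * y k
          rw [← Finset.sum_add_distrib]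
          exact Finset.sum_congr rfl fun k _ => mul_add _ _ _
        · show ∑ k, b k * (x k + y k) = ∑ k, b k * x k + ∑ k, b k * y k
          rw [← Finset.sum_add_distrib]
          exact Finset.sum_congr rfl fun k _ => mul_add _ _ _ } with hf
  have hij : i ≠ j := by
    rintro rfl
    exact h rfl
  set Δ : ZMod p := a i * b j - a j * b i with hΔ
  have hΔ0 : Δ ≠ 0 := sub_ne_zero.2 h
  have hsurj : Function.Surjective f := by
    rintro ⟨u, v⟩
    set s := (u * b j - v * a j) / Δ with hs
    set t := (v * a i - u * b i) / Δ with ht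
    refine ⟨Pi.single i s + Pi.single j t, ?_⟩
    have hsum : ∀ c : Fin m → ZMod p, ∑ k, c k * (Pi.single i s + Pi.single j t : Fin m → ZMod p) k = c i * s + c j * t := by
      intro c
      simp only [Pi.add_apply, mul_add, Finset.sum_add_distrib]
      congr 1
      · rw [Finset.sum_eq_single i]
        · rw [Pi.single_eq_same]
        · intro k _ hk
          rw [Pi.single_eq_of_ne hk, mul_zero]
        · intro h
          exact absurd (Finset.mem_univ _) h
      · rw [Finset.sum_eq_single j]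
        · rw [Pi.single_eq_same]
        · intro k _ hk
          rw [Pi.single_eq_of_ne hk, mul_zero]
        · intro h
          exact absurd (Finset.mem_univ _) h
    refine Prod.ext ?_ ?_
    · show ∑ k, a k * (Pi.single i s + Pi.single j t : Fin m → ZMod p) k = u
      rw [hsum, hs, ht]
      field_simp
      rw [hΔ]
      ring
    · show ∑ k, b k * (Pi.single i s + Pi.single j t : Fin m → ZMod p) k = v
      rw [hsum, hs, ht]
      field_simp
      rw [hΔ]
      ring
  set T : Finset (ZMod p × ZMod p) := {y | y.1 = 0 ∨ y.2 = 0} with hT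
  have hTcard : #T = 2 * p - 1 := by
    have e1 : T = ({0} : Finset (ZMod p)) ×ˢ (univ : Finset (ZMod p)) ∪ ((univ : Finset (ZMod p)).erase 0) ×ˢ ({0} : Finset (ZMod p)) := by
      ext ⟨y, z⟩
      simp only [hT, Finset.mem_filter, Finset.mem_univ, true_and, Finset.mem_union, Finset.mem_product, Finset.mem_singleton,
        and_true, Finset.mem_erase]
      tauto
    rw [e1, Finset.card_union_of_disjoint]
    · rw [Finset.card_product, Finset.card_product, Finset.card_singleton,
        Finset.card_erase_of_mem (Finset.mem_univ _), Finset.card_univ, ZMod.card]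
      have := hp.out.one_lt
      omega
    · rw [Finset.disjoint_left]
      rintro ⟨y, z⟩ h1 h2
      simp only [Finset.mem_product, Finset.mem_singleton, Finset.mem_erase] at h1 h2
      exact h2.1.1 h1.1
  have h1 := card_pre f hsurj T
  rw [Fintype.card_prod, ZMod.card, Fintype.card_fun, ZMod.card, Fintype.card_fin, hTcard] at h1
  rw [← h1, sol_eq, sq]
  refine Nat.mul_le_mul_right _ (Finset.card_le_card fun x hx => ?_)
  rw [Finset.mem_filter] at hx ⊢
  refine ⟨Finset.mem_univ _, hz x ?_⟩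
  rw [hT, Finset.mem_filter] at hx
  exact hx.2.2

lemma eq_zero_of_pow {S : Type*} [CommRing S] [IsDomain S] {c : S} {d : ℕ} (h : c ^ d = 0) : c = 0 := by
  by_contra hc
  exact pow_ne_zero d hc h

lemma transfer {R S : Type*} [CommRing R] [CommRing S] [IsDomain S] (φ : R →+* S) (hφ : Function.Surjective φ)
    {F : MvPolynomial (Fin m) ℤ} {d : ℕ} (hF : F.IsHomogeneous d) (a : Fin m → R) (i0 : Fin m) (hi0 : φ (a i0) ≠ 0)
    (hz : ∀ x : Fin m → R, ∑ k, a k * x k = 0 → (aeval x F : R) = 0) (x : Fin m → S) (hx : ∑ k, φ (a k) * x k = 0) :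
    (aeval x F : S) = 0 := by
  classical
  choose y hy using fun k => hφ (x k)
  set z : Fin m → R := fun k => a i0 * y k - if k = i0 then ∑ l, a l * y l else 0 with hz'
  have h1 : ∑ k, a k * z k = 0 := by
    rw [hz']
    simp only [mul_sub, Finset.sum_sub_distrib, mul_ite, mul_zero]
    rw [Finset.sum_ite_eq' Finset.univ i0, if_pos (Finset.mem_univ _), Finset.mul_sum, sub_eq_zero]
    refine Finset.sum_congr rfl fun k _ => by ring
  have h2 := congrArg φ (hz z h1)
  rw [map_zero, map_ev] at h2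
  have h3 : (fun k => φ (z k)) = fun k => φ (a i0) * x k := by
    funext k
    have e1 : φ (if k = i0 then ∑ l, a l * y l else 0) = 0 := by
      split_ifs
      · rw [map_sum, ← hx]
        refine Finset.sum_congr rfl fun l _ => ?_
        rw [map_mul, hy]
      · exact map_zero _
    rw [hz']
    simp only
    rw [map_sub, e1, sub_zero, map_mul, hy]
  rw [h3, ev_scale hF] at h2
  rcases mul_eq_zero.1 h2 with h | h
  · exact absurd ((eq_zero_of_pow h)) hi0
  · exact h

lemma exists_nat_dvd {K : Type} [Field K] [NumberField K] (z : 𝓞 K) (hz : z ≠ 0) : ∃ n : ℕ, n ≠ 0 ∧ z ∣ (n : 𝓞 K) := by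
  refine ⟨Ideal.absNorm (Ideal.span {z}), ?_, ?_⟩
  · rw [Ne, Ideal.absNorm_eq_zero_iff, Ideal.span_singleton_eq_bot]
    exact hz
  · exact Ideal.mem_span_singleton.1 (Ideal.absNorm_mem _)

theorem two_hyp_div (hm : 0 < m) {F : MvPolynomial (Fin m) ℤ} (hF : F.IsHomogeneous (2 * m)) {K : Type} [Field K]
    [NumberField K] (a b : Fin m → 𝓞 K) (i j : Fin m) (hij : a i * b j ≠ a j * b i)
    (ha : ∀ x : Fin m → 𝓞 K, ∑ k, a k * x k = 0 → (aeval x F : 𝓞 K) = 0)
    (hb : ∀ x : Fin m → 𝓞 K, ∑ k, b k * x k = 0 → (aeval x F : 𝓞 K) = 0)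
    (ζ : 𝓞 K) (hζ : IsPrimitiveRoot ζ (4 * m)) :
    ¬ Summable fun p : {p : ℕ // p.Prime ∧ p % (4 * m) = 1} => vv F p := by
  intro hs
  obtain ⟨n, hn0, w, hw⟩ := exists_nat_dvd (a i * b j - a j * b i) (sub_ne_zero.2 hij)
  set c : ℕ := n * (4 * m) with hc
  have hc0 : c ≠ 0 := mul_ne_zero hn0 (by omega)
  -- the local statement
  have hloc : ∀ p : ℕ, (p.Prime ∧ Nonempty (𝓞 K →+* ZMod p)) → ¬ ((p : ℤ) ∣ (c : ℤ)) →
      p % (4 * m) = 1 ∧ 1 / 4 * (1 / (p : ℝ)) ≤ vv F p := by
    rintro p ⟨hp, ⟨φ⟩⟩ hpc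
    have : Fact p.Prime := ⟨hp⟩
    have hpc' : ¬ p ∣ c := fun h => hpc (by exact_mod_cast h)
    have hpn : ((n : ℕ) : ZMod p) ≠ 0 := by
      rw [Ne, ZMod.natCast_eq_zero_iff]
      exact fun h => hpc' (Dvd.dvd.mul_right h _)
    have hp4m : (((4 * m : ℕ)) : ZMod p) ≠ 0 := by
      rw [Ne, ZMod.natCast_eq_zero_iff]
      exact fun h => hpc' (Dvd.dvd.mul_left h _)
    have : NeZero (((4 * m : ℕ)) : ZMod p) := ⟨hp4m⟩
    constructor
    · -- the congruence
      have e1 : Polynomial.IsRoot (Polynomial.cyclotomic (4 * m) (𝓞 K)) ζ := hζ.isRoot_cyclotomic (by omega)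
      have e2 : Polynomial.IsRoot (Polynomial.cyclotomic (4 * m) (ZMod p)) (φ ζ) := by
        have := e1.map (f := φ)
        rwa [Polynomial.map_cyclotomic] at this
      have e3 : IsPrimitiveRoot (φ ζ) (4 * m) := (Polynomial.isRoot_cyclotomic_iff).1 e2
      have e4 : φ ζ ≠ 0 := e3.ne_zero (by omega)
      have e5 : (4 * m) ∣ p - 1 := e3.dvd_of_pow_eq_one _ (ZMod.pow_card_sub_one_eq_one e4)
      obtain ⟨k, hk⟩ := e5
      have hp1 := hp.one_lt
      have hk' : p = 1 + 4 * m * k := by omega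
      rw [hk', Nat.add_mul_mod_self_left]
      exact Nat.mod_eq_of_lt (by omega)
    · -- the zeros
      have hφs : Function.Surjective φ := ZMod.ringHom_surjective φ
      have e1 : φ (a i) * φ (b j) ≠ φ (a j) * φ (b i) := by
        intro h
        have e2 : φ (a i * b j - a j * b i) = 0 := by rw [map_sub, map_mul, map_mul, h, sub_self]
        have e3 := congrArg φ hw
        rw [map_mul, e2, zero_mul, map_natCast] at e3
        exact hpn e3
      have ea : ∃ i0, φ (a i0) ≠ 0 := by
        by_contra hcon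
        push Not at hcon
        exact e1 (by rw [hcon i, hcon j]; ring)
      have eb : ∃ i0, φ (b i0) ≠ 0 := by
        by_contra hcon
        push Not at hcon
        exact e1 (by rw [hcon i, hcon j]; ring)
      obtain ⟨ia, hia⟩ := ea
      obtain ⟨ib, hib⟩ := eb
      have e4 := two_hyp_mod (fun k => φ (a k)) (fun k => φ (b k)) i j e1 F (fun x hx => by
        rcases hx with hx | hx
        · exact transfer φ hφs hF a ia hia ha x hx
        · exact transfer φ hφs hF b ib hib hb x hx)
      have e5 := vv_ge hm F hp 0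
      have hp0 : (0 : ℝ) < p := by exact_mod_cast hp.pos
      have hp2 : (2 : ℝ) ≤ p := by exact_mod_cast hp.two_le
      have e6 : (2 * (p : ℝ) - 1) * (p : ℝ) ^ m ≤ (sol F p 0 : ℝ) * (p : ℝ) ^ 2 := by
        have e7 : ((2 * p - 1 : ℕ) : ℝ) = 2 * (p : ℝ) - 1 := by
          rw [Nat.cast_sub (by have := hp.one_lt; omega)]
          push_cast
          ring
        rw [← e7]
        exact_mod_cast e4
      have e8 : 1 / 2 ≤ (sol F p 0 : ℝ) / (p : ℝ) ^ (m - 1) - 1 := by
        have e9 : (3 : ℝ) / 2 ≤ (sol F p 0 : ℝ) / (p : ℝ) ^ (m - 1) := by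
          rw [le_div_iff₀ (by positivity)]
          have e10 : (p : ℝ) ^ m = p * (p : ℝ) ^ (m - 1) := by
            rw [← pow_succ']
            congr 1
            omega
          rw [e10] at e6
          have e11 : (3 / 2 * (p : ℝ) ^ (m - 1)) * (p : ℝ) ^ 2 ≤ (sol F p 0 : ℝ) * (p : ℝ) ^ 2 := by
            refine le_trans ?_ e6
            have : 0 < (p : ℝ) ^ (m - 1) := by positivity
            nlinarith [mul_pos hp0 this]
          exact le_of_mul_le_mul_right e11 (by positivity)
        linarith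
      have e12 : 1 / 4 ≤ ((sol F p 0 : ℝ) / (p : ℝ) ^ (m - 1) - 1) ^ 2 := by nlinarith
      have e13 := e12.trans e5
      rw [← div_le_iff₀' hp0] at e13
      refine le_trans (le_of_eq ?_) e13
      field_simp
  -- conclusion
  have h1 := not_summable_remove (fun p : ℕ => 1 / (p : ℝ)) (fun p => p.Prime ∧ Nonempty (𝓞 K →+* ZMod p)) (c : ℤ)
    (by exact_mod_cast hc0) (fun p h => h.1) (split_div K)
  apply h1
  have h2 : Summable (Set.indicator {p : ℕ | p.Prime ∧ p % (4 * m) = 1} (vv F)) := summable_subtype_iff_indicator.1 hs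
  have h3 : Summable (Set.indicator {p : ℕ | (p.Prime ∧ Nonempty (𝓞 K →+* ZMod p)) ∧ ¬ (p : ℤ) ∣ (c : ℤ)} fun p : ℕ => 1 / (p : ℝ)) := by
    refine Summable.of_nonneg_of_le (fun p => ?_) (fun p => ?_) (h2.mul_left 4)
    · exact Set.indicator_nonneg (fun p _ => by positivity) p
    · by_cases hp : (p.Prime ∧ Nonempty (𝓞 K →+* ZMod p)) ∧ ¬ (p : ℤ) ∣ (c : ℤ)
      · have h4 := hloc p hp.1 hp.2
        rw [Set.indicator_of_mem (show p ∈ {p : ℕ | (p.Prime ∧ Nonempty (𝓞 K →+* ZMod p)) ∧ ¬ (p : ℤ) ∣ (c : ℤ)} from hp),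
          Set.indicator_of_mem (show p ∈ {p : ℕ | p.Prime ∧ p % (4 * m) = 1} from ⟨hp.1.1, h4.1⟩)]
        linarith [h4.2]
      · rw [Set.indicator_of_notMem (fun h : p ∈ {p : ℕ | (p.Prime ∧ Nonempty (𝓞 K →+* ZMod p)) ∧ ¬ (p : ℤ) ∣ (c : ℤ)} => hp h)]
        refine mul_nonneg (by norm_num) (Set.indicator_nonneg (fun p hp => ?_) p)
        exact vv_nonneg hm F hp.1
  exact summable_subtype_iff_indicator.2 h3

end Pool.Agent.Helper520_bf
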