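import Pool.Agent.H484R2.Pit
import Pool.Agent.Helper520_bf.Crit

/-!
Sets of primes with a divergent sum of `1 / p`.
-/

set_option autoImplicit false
set_option linter.unusedSectionVars false
set_option linter.unusedVariables false

namespace Pool.Agent.Helper520_bf

open Finset NumberField Filter Topology

lemma theta_sum_le (N : ℕ) : ∑ p ∈ (range (N + 1)).filter Nat.Prime, Real.log p ≤ 2 * N := by
  rw [← H332.PIT.theta_eq]
  have h1 := Chebyshev.theta_le_log4_mul_x (x := (N : ℝ)) (Nat.cast_nonneg _)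
  have h2 : Real.log 4 ≤ 2 := by
    have h3 : (4 : ℝ) = 2 ^ 2 := by norm_num
    rw [h3, Real.log_pow]
    have := Real.log_two_lt_d9
    push_cast
    linarith
  have h3 : Real.log 4 * N ≤ 2 * N := mul_le_mul_of_nonneg_right h2 (Nat.cast_nonneg _)
  linarith

/-- a set of primes with `∑_{p ≤ N} log p ≥ c N` has a divergent sum of `1 / p` -/
theorem div_of_theta (Pr : Set ℕ) [DecidablePred (fun p => p ∈ Pr)] (hPr : ∀ p ∈ Pr, p.Prime) (c : ℝ) (hc : 0 < c)
    (h : ∃ N0 : ℕ, ∀ N, N0 ≤ N → c * (N : ℝ) ≤ ∑ p ∈ (range (N + 1)).filter (fun p => p ∈ Pr), Real.log p) :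
    ¬ Summable fun p : Pr => 1 / ((p : ℕ) : ℝ) := by
  classical
  intro hs
  obtain ⟨N0, hN0⟩ := h
  obtain ⟨n, hn⟩ := exists_nat_ge (4 / c)
  rw [div_le_iff₀ hc] at hn
  -- the base of the blocks
  set B : ℕ := n + N0 + 2 with hB
  have hB1 : 1 < B := by omega
  have hBr : (1 : ℝ) < B := by exact_mod_cast hB1
  have hBc : 4 ≤ c * B := by
    rw [hB]
    push_cast
    have : (0 : ℝ) ≤ N0 := Nat.cast_nonneg _
    nlinarith
  have hlogB : 0 < Real.log B := Real.log_pos hBr
  set blk : ℕ → Finset ℕ := fun k => (Finset.Ioc (B ^ (k + 1)) (B ^ (k + 2))).filter (fun p => p ∈ Pr) with hblk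
  have hblk1 : ∀ k : ℕ, c / (2 * Real.log B) * (1 / (k + 2 : ℝ)) ≤ ∑ p ∈ blk k, 1 / (p : ℝ) := by
    intro k
    have hBk : (0 : ℝ) < (B : ℝ) ^ (k + 2) := by positivity
    have e1 : c * ((B ^ (k + 2) : ℕ) : ℝ) ≤ ∑ p ∈ (range (B ^ (k + 2) + 1)).filter (fun p => p ∈ Pr), Real.log p := by
      refine hN0 _ ?_
      have : B ≤ B ^ (k + 2) := Nat.le_self_pow (by omega) _
      omega
    have e2 : ∑ p ∈ (range (B ^ (k + 2) + 1)).filter (fun p => p ∈ Pr), Real.log p ≤
        ∑ p ∈ blk k, Real.log p + 2 * ((B ^ (k + 1) : ℕ) : ℝ) := by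
      refine le_trans ?_ (add_le_add le_rfl (theta_sum_le (B ^ (k + 1))))
      rw [← Finset.sum_union]
      · refine Finset.sum_le_sum_of_subset_of_nonneg ?_ ?_
        · intro p hp
          rw [Finset.mem_filter, Finset.mem_range] at hp
          rw [Finset.mem_union, hblk, Finset.mem_filter, Finset.mem_filter, Finset.mem_Ioc, Finset.mem_range]
          rcases le_or_gt p (B ^ (k + 1)) with h | h
          · exact Or.inr ⟨by omega, hPr p hp.2⟩
          · exact Or.inl ⟨⟨h, by omega⟩, hp.2⟩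
        · intro p hp _
          refine Real.log_nonneg ?_
          rw [Finset.mem_union, hblk, Finset.mem_filter, Finset.mem_filter] at hp
          rcases hp with h | h
          · exact_mod_cast (hPr p h.2).one_lt.le
          · exact_mod_cast h.2.one_lt.le
      · rw [Finset.disjoint_left]
        intro p hp hp'
        rw [hblk, Finset.mem_filter, Finset.mem_Ioc] at hp
        rw [Finset.mem_filter, Finset.mem_range] at hp'
        omega
    have e3 : ∑ p ∈ blk k, Real.log p ≤ (∑ p ∈ blk k, 1 / (p : ℝ)) * ((B : ℝ) ^ (k + 2) * ((k + 2) * Real.log B)) := by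
      rw [Finset.sum_mul]
      refine Finset.sum_le_sum fun p hp => ?_
      rw [hblk, Finset.mem_filter, Finset.mem_Ioc] at hp
      have hp0 : (0 : ℝ) < p := by exact_mod_cast (hPr p hp.2).pos
      have hp2 : (p : ℝ) ≤ (B : ℝ) ^ (k + 2) := by exact_mod_cast hp.1.2
      have f1 : Real.log p ≤ (k + 2) * Real.log B := by
        have := Real.log_le_log hp0 hp2
        rw [Real.log_pow] at this
        push_cast at this
        exact this
      have f2 : 1 ≤ 1 / (p : ℝ) * (B : ℝ) ^ (k + 2) := by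
        rw [one_div, inv_mul_eq_div, one_le_div hp0]
        exact hp2
      have f3 : 0 ≤ (k + 2) * Real.log B := by positivity
      calc Real.log p ≤ 1 * ((k + 2) * Real.log B) := by rw [one_mul]; exact f1
        _ ≤ (1 / (p : ℝ) * (B : ℝ) ^ (k + 2)) * ((k + 2) * Real.log B) := mul_le_mul_of_nonneg_right f2 f3
        _ = _ := by ring
    have e4 : c * (B : ℝ) ^ (k + 2) / 2 ≤ ∑ p ∈ blk k, Real.log p := by
      have f1 := e1.trans e2
      push_cast at f1
      have f2 : 2 * (B : ℝ) ^ (k + 1) ≤ c * (B : ℝ) ^ (k + 2) / 2 := by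
        rw [le_div_iff₀ (by norm_num)]
        calc 2 * (B : ℝ) ^ (k + 1) * 2 = 4 * (B : ℝ) ^ (k + 1) := by ring
          _ ≤ (c * B) * (B : ℝ) ^ (k + 1) := mul_le_mul_of_nonneg_right hBc (by positivity)
          _ = _ := by ring
      linarith
    have e5 := e4.trans e3
    have e6 : 0 < (B : ℝ) ^ (k + 2) * ((k + 2) * Real.log B) := by positivity
    rw [← div_le_iff₀ e6] at e5
    refine le_trans (le_of_eq ?_) e5
    field_simp
  -- the blocks are disjoint
  have hsum : ∀ k, ∑ i ∈ range k, ∑ p ∈ blk i, 1 / (p : ℝ) ≤ ∑' p : Pr, 1 / ((p : ℕ) : ℝ) := by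
    intro k
    have hdis : ∀ i ∈ range k, ∀ j ∈ range k, i ≠ j → Disjoint (blk i) (blk j) := by
      intro i _ j _ hij
      rw [Finset.disjoint_left]
      intro p hp hp'
      rw [hblk, Finset.mem_filter, Finset.mem_Ioc] at hp hp'
      rcases Nat.lt_or_gt_of_ne hij with h | h
      · have := Nat.pow_le_pow_right hB1.le (by omega : i + 2 ≤ j + 1)
        omega
      · have := Nat.pow_le_pow_right hB1.le (by omega : j + 2 ≤ i + 1)
        omega
    rw [← Finset.sum_biUnion hdis]
    set U := (range k).biUnion blk with hU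
    have hUm : ∀ p ∈ U, p ∈ Pr := by
      intro p hp
      rw [hU, Finset.mem_biUnion] at hp
      obtain ⟨i, _, hp⟩ := hp
      rw [hblk, Finset.mem_filter] at hp
      exact hp.2
    have e1 : ∑ p ∈ U, 1 / (p : ℝ) = ∑ p ∈ U.attach.image (fun p : {x // x ∈ U} => (⟨p.1, hUm p.1 p.2⟩ : Pr)), 1 / ((p : ℕ) : ℝ) := by
      rw [Finset.sum_image, Finset.sum_attach U (fun p => 1 / (p : ℝ))]
      intro a _ b _ hab
      exact Subtype.ext (congrArg (fun z : Pr => (z : ℕ)) hab)
    rw [e1]
    exact hs.sum_le_tsum _ fun p _ => by positivity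
  have hharm : ¬ Summable fun k : ℕ => c / (2 * Real.log B) * (1 / (k + 2 : ℝ)) := by
    rw [summable_mul_left_iff (by positivity)]
    have e1 := (summable_nat_add_iff (f := fun k : ℕ => 1 / (k : ℝ)) 2).not.2 Real.not_summable_one_div_natCast
    intro h
    apply e1
    refine h.congr fun k => ?_
    push_cast
    rfl
  apply hharm
  refine summable_of_sum_range_le (c := ∑' p : Pr, 1 / ((p : ℕ) : ℝ)) (fun k => by positivity) fun k => ?_
  exact (Finset.sum_le_sum fun i _ => hblk1 i).trans (hsum k)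

end Pool.Agent.Helper520_bf
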