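import Pool.Agent.R410.LW.Main
import Pool.Agent.Helper520_bf.Theta

/-!
The number of the zeros of polynomials over number fields modulo primes, from the theorem of Lang and Weil in the form
of `Pool.Agent.R410.LW.landau`.
-/

set_option autoImplicit false
set_option linter.unusedSectionVars false
set_option linter.unusedVariables false

namespace Pool.Agent.Helper520_bf

open Finset MvPolynomial NumberField

variable {m : ℕ}

lemma exists_var {K : Type} [Field K] {P : MvPolynomial (Fin m) K} (hP : Irreducible P) : ∃ j, j ∈ P.vars := by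
  by_contra hcon
  push Not at hcon
  have h1 : P.vars = ∅ := Finset.eq_empty_of_forall_notMem hcon
  rw [vars_eq_empty_iff_eq_C] at h1
  have h2 : P.coeff 0 ≠ 0 := by
    intro h
    rw [h, C_0] at h1
    exact hP.ne_zero h1
  apply hP.not_isUnit
  rw [h1]
  exact (isUnit_iff_ne_zero.2 h2).map C

/-- the coordinates except one are algebraically independent on a hypersurface -/
lemma alg_indep {K : Type} [Field K] [CharZero K] {P : MvPolynomial (Fin m) K} (hP : Irreducible P) {M : Type} [Field M] [CharZero M]
    (τ : MvPolynomial (Fin m) K →+* M) (hker : ∀ G, τ G = 0 → P ∣ G) (j : Fin m) (hj : j ∈ P.vars) :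
    AlgebraicIndependent ℚ (fun i : {i : Fin m // i ≠ j} => τ (X i.1)) := by
  classical
  show Function.Injective (aeval fun i : {i : Fin m // i ≠ j} => τ (X i.1))
  rw [injective_iff_map_eq_zero]
  intro H hH
  set ν : MvPolynomial {i : Fin m // i ≠ j} ℚ →+* MvPolynomial (Fin m) K :=
    ((rename (R := K) (Subtype.val : {i : Fin m // i ≠ j} → Fin m)) : MvPolynomial {i : Fin m // i ≠ j} K →+* MvPolynomial (Fin m) K).comp
      (MvPolynomial.map (algebraMap ℚ K)) with hν
  have h1 : τ.comp ν = (aeval fun i : {i : Fin m // i ≠ j} => τ (X i.1)).toRingHom := by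
    refine MvPolynomial.ringHom_ext (fun q => ?_) fun i => ?_
    · have : (τ.comp ν).comp C = ((aeval fun i : {i : Fin m // i ≠ j} => τ (X i.1)).toRingHom).comp (C : ℚ →+* _) :=
        RingHom.ext_rat _ _
      exact congrArg (fun f => f q) this
    · rw [hν]
      simp
  have h2 : τ (ν H) = 0 := by
    have := congrArg (fun f => f H) h1
    simp only [RingHom.comp_apply] at this
    rw [this]
    exact hH
  obtain ⟨R, hR⟩ := hker _ h2
  have hνinj : Function.Injective ν := by
    rw [hν]
    exact (rename_injective _ Subtype.val_injective).comp (MvPolynomial.map_injective _ (algebraMap ℚ K).injective)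
  by_contra hH0
  have hne : ν H ≠ 0 := fun h => hH0 (hνinj (by rw [h, map_zero]))
  have hR0 : R ≠ 0 := by
    rintro rfl
    rw [mul_zero] at hR
    exact hne hR
  have hdeg := degreeOf_mul_eq (n := j) hP.ne_zero hR0
  rw [← hR] at hdeg
  have h3 : degreeOf j (ν H) = 0 := by
    by_contra h4
    have h5 : j ∈ (ν H).vars := by
      rw [mem_vars_iff_degreeOf_ne_zero]
      exact h4
    obtain ⟨i, _, hi⟩ := mem_vars_rename _ _ h5
    exact i.2 hi
  have h6 : degreeOf j P ≠ 0 := by
    rwa [← mem_vars_iff_degreeOf_ne_zero]
  omega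

end Pool.Agent.Helper520_bf
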