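import Pool.Agent.Helper520_bf.LwA

/-!
The number of the zeros of polynomials over number fields modulo primes, continued.
-/

set_option autoImplicit false
set_option linter.unusedSectionVars false
set_option linter.unusedVariables false

namespace Pool.Agent.Helper520_bf

open Finset MvPolynomial NumberField

variable {m : ℕ}

lemma finite_hom (K : Type) [Field K] [NumberField K] (p : ℕ) [NeZero p] : Finite (𝓞 K →+* ZMod p) := by
  obtain ⟨S, hS⟩ := (inferInstance : Module.Finite ℤ (𝓞 K)).fg_top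
  refine Finite.of_injective (β := {s // s ∈ S} → ZMod p) (fun φ s => φ s.1) ?_
  intro φ ψ h
  have h1 : φ.toAddMonoidHom.toIntLinearMap = ψ.toAddMonoidHom.toIntLinearMap := by
    refine LinearMap.ext_on hS ?_
    intro s hs
    exact congrFun h ⟨s, hs⟩
  refine RingHom.ext fun z => ?_
  exact congrArg (fun f => f z) h1

/-- the conditions on a pair -/
def Pt (K : Type) [Field K] [NumberField K] (P : MvPolynomial (Fin m) K) (Q : MvPolynomial (Fin m) (𝓞 K)) (p : ℕ)
    (y : (𝓞 K →+* ZMod p) × (Fin m → ZMod p)) : Prop :=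
  eval₂ y.1 y.2 Q ≠ 0 ∧ ∀ G : MvPolynomial (Fin m) (𝓞 K), P ∣ MvPolynomial.map (algebraMap (𝓞 K) K) G → eval₂ y.1 y.2 G = 0

theorem lw_core {K : Type} [Field K] [NumberField K] {M : Type} [Field M] (τ : MvPolynomial (Fin m) K →+* M)
    {P : MvPolynomial (Fin m) K} (hP : Irreducible P) (hker : ∀ G, τ G = 0 ↔ P ∣ G)
    (hfrac : ∀ z : M, ∃ g h, z = τ g / τ h) (Q : MvPolynomial (Fin m) (𝓞 K))
    (hQ : ¬ P ∣ MvPolynomial.map (algebraMap (𝓞 K) K) Q) :
    ∃ (L : Type) (_ : Field L) (_ : NumberField L) (C : ℝ) (N : ℕ), 0 ≤ C ∧ N ≠ 0 ∧ ∀ p : ℕ, p.Prime → ¬ p ∣ N →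
      ((Nat.card (𝓞 L →+* ZMod p) : ℝ) - C / Real.sqrt p) * (p : ℝ) ^ (m - 1) ≤
        Nat.card {y : (𝓞 K →+* ZMod p) × (Fin m → ZMod p) // Pt K P Q p y} := by
  classical
  -- the characteristic
  have hcK : Function.Injective (τ.comp (C : K →+* MvPolynomial (Fin m) K)) := (τ.comp C).injective
  have hchar : CharZero M := charZero_of_injective_ringHom hcK
  -- the integral model
  set ρ : MvPolynomial (Fin m) (𝓞 K) →+* M := τ.comp (MvPolynomial.map (algebraMap (𝓞 K) K)) with hρ
  have hft0 : Algebra.FiniteType ℤ (MvPolynomial (Fin m) (𝓞 K)) := by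
    have h1 : Algebra.FiniteType ℤ (𝓞 K) := inferInstance
    have h2 : Algebra.FiniteType (𝓞 K) (MvPolynomial (Fin m) (𝓞 K)) := inferInstance
    exact Algebra.FiniteType.trans h1 h2
  have hft : Algebra.FiniteType ℤ ρ.range := by
    have h := Pool.Agent.R410.LW.ft_int _ hft0
    exact Algebra.FiniteType.of_surjective ρ.rangeRestrict.toIntAlgHom ρ.rangeRestrict_surjective
  have hclosure : Subfield.closure (Set.range ρ) = ⊤ := by
    rw [eq_top_iff]
    intro z _
    set Cf := Subfield.closure (Set.range ρ) with hCf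
    have hρC : ∀ g, ρ g ∈ Cf := fun g => Subfield.subset_closure ⟨g, rfl⟩
    have hτ : ∀ g : MvPolynomial (Fin m) K, τ g ∈ Cf := by
      intro g
      induction g using MvPolynomial.induction_on with
      | C a =>
        obtain ⟨u, v, hv, rfl⟩ := IsFractionRing.div_surjective (A := 𝓞 K) a
        have h1 : τ (C (algebraMap (𝓞 K) K u / algebraMap (𝓞 K) K v)) = ρ (C u) / ρ (C v) := by
          rw [hρ, RingHom.comp_apply, RingHom.comp_apply, MvPolynomial.map_C, MvPolynomial.map_C]
          exact map_div₀ (τ.comp C) _ _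
        rw [h1]
        exact div_mem (hρC _) (hρC _)
      | add g h hg hh =>
        rw [map_add]
        exact add_mem hg hh
      | mul_X g i hg =>
        rw [map_mul]
        refine mul_mem hg ?_
        have h1 : τ (X i) = ρ (X i) := by
          rw [hρ, RingHom.comp_apply, MvPolynomial.map_X]
        rw [h1]
        exact hρC _
    obtain ⟨g, h, rfl⟩ := hfrac z
    exact div_mem (hτ g) (hτ h)
  have hinj : Function.Injective (algebraMap ρ.range M) := fun x y h => Subtype.ext h
  have hfr : IsFractionRing ρ.range M := by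
    refine Pool.Agent.R410.LW.frac_of_closure hinj ?_
    have h1 : Set.range (algebraMap ρ.range M) = Set.range ρ := by
      ext z
      constructor
      · rintro ⟨x, rfl⟩
        exact x.2
      · intro hz
        exact ⟨⟨z, hz⟩, rfl⟩
    rw [h1]
    exact hclosure
  have hFG : Pool.Agent.R410.LW.FG M := by
    obtain ⟨S, hS⟩ := hft0.out
    refine ⟨S.image ρ, ?_⟩
    rw [eq_top_iff, ← hclosure, Subfield.closure_le]
    rintro z ⟨g, rfl⟩
    have hg : g ∈ Algebra.adjoin ℤ (S : Set (MvPolynomial (Fin m) (𝓞 K))) := by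
      rw [hS]
      trivial
    induction hg using Algebra.adjoin_induction with
    | mem g hg =>
      refine Subfield.subset_closure ?_
      rw [Finset.coe_image]
      exact ⟨g, hg, rfl⟩
    | algebraMap r =>
      have : ρ (algebraMap ℤ _ r) = (r : M) := by
        rw [eq_intCast, map_intCast]
      rw [this]
      exact intCast_mem _ r
    | add g h _ _ hg hh =>
      rw [map_add]
      exact add_mem hg hh
    | mul g h _ _ hg hh =>
      rw [map_mul]
      exact mul_mem hg hh
  -- the transcendence degree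
  have hfin : Algebra.trdeg ℚ M < Cardinal.aleph0 := by
    obtain ⟨S, hS⟩ := hFG
    have h1 : FinTrdeg ℚ M := by
      refine ⟨⟨IntermediateField.adjoin ℚ (S : Set M), IntermediateField.fg_adjoin_of_finite S.finite_toSet, ?_⟩⟩
      have h2 : IntermediateField.adjoin ℚ (S : Set M) = ⊤ := by
        rw [eq_top_iff]
        intro z _
        have h3 : z ∈ Subfield.closure (S : Set M) := by
          rw [hS]
          trivial
        have h4 : Subfield.closure (S : Set M) ≤ (IntermediateField.adjoin ℚ (S : Set M)).toSubfield := by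
          rw [Subfield.closure_le]
          exact IntermediateField.subset_adjoin ℚ (S : Set M)
        exact h4 h3
      rw [h2]
      infer_instance
    exact trdeg_lt_aleph0 ℚ M
  obtain ⟨d, hd⟩ := Cardinal.lt_aleph0.1 hfin
  have hdm : m - 1 ≤ d := by
    obtain ⟨j, hj⟩ := exists_var hP
    have h1 := (alg_indep hP τ (fun G => (hker G).1) j hj).cardinalMk_le_trdeg
    rw [hd] at h1
    have h2 : Cardinal.mk {i : Fin m // i ≠ j} = ((m - 1 : ℕ) : Cardinal) := by
      rw [Cardinal.mk_fintype]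
      congr 1
      rw [Fintype.card_subtype_compl, Fintype.card_fin, Fintype.card_subtype_eq]
    rw [h2] at h1
    exact_mod_cast h1
  obtain ⟨L, iL, nL, hL⟩ := Pool.Agent.R410.LW.landau d M hFG hd
  have hlandau := hL ρ.range
  obtain ⟨s, hs0, hs⟩ := hlandau
  have hQρ : ρ.rangeRestrict Q ≠ 0 := by
    intro h
    have h1 : ρ Q = 0 := congrArg Subtype.val h
    exact hQ ((hker _).1 h1)
  obtain ⟨C, N, hC, hN, hbound⟩ := hs (s * ρ.rangeRestrict Q) (mul_ne_zero hs0 hQρ) (Dvd.intro _ rfl)
  refine ⟨L, iL, nL, C, N, hC, hN, fun p hp hpN => ?_⟩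
  have : Fact p.Prime := ⟨hp⟩
  have hb := hbound (ZMod p) (by rw [Ne, ZMod.natCast_eq_zero_iff]; exact hpN)
  rw [Nat.card_zmod] at hb
  have hp0 : (0 : ℝ) < p := by exact_mod_cast hp.pos
  have hsq : 0 < Real.sqrt p := Real.sqrt_pos.2 hp0
  have hfinhom := finite_hom K p
  -- the injection
  have hinjpt : Nat.card {ψ : ρ.range →+* ZMod p // ψ (s * ρ.rangeRestrict Q) ≠ 0} ≤
      Nat.card {y : (𝓞 K →+* ZMod p) × (Fin m → ZMod p) // Pt K P Q p y} := by
    have key : ∀ ψ : ρ.range →+* ZMod p, ∀ G : MvPolynomial (Fin m) (𝓞 K),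
        ψ (ρ.rangeRestrict G) = eval₂ ((ψ.comp ρ.rangeRestrict).comp MvPolynomial.C) (fun i => ψ (ρ.rangeRestrict (X i))) G := by
      intro ψ G
      have h1 : ψ.comp ρ.rangeRestrict = eval₂Hom ((ψ.comp ρ.rangeRestrict).comp MvPolynomial.C) (fun i => ψ (ρ.rangeRestrict (X i))) := by
        refine MvPolynomial.ringHom_ext (fun r => ?_) fun i => ?_
        · rw [eval₂Hom_C]
          rfl
        · rw [eval₂Hom_X']
          rfl
      exact congrArg (fun f => f G) h1
    refine Nat.card_le_card_of_injective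
      (fun ψ => ⟨((ψ.1.comp ρ.rangeRestrict).comp MvPolynomial.C, fun i => ψ.1 (ρ.rangeRestrict (X i))), ?_, ?_⟩) ?_
    · rw [← key]
      intro h
      apply ψ.2
      rw [map_mul, h, mul_zero]
    · intro G hG
      rw [← key]
      have h1 : ρ.rangeRestrict G = 0 := Subtype.ext ((hker _).2 hG)
      rw [h1, map_zero]
    · intro ψ ψ' h
      refine Subtype.ext (RingHom.ext fun a => ?_)
      obtain ⟨G, rfl⟩ := ρ.rangeRestrict_surjective a
      rw [key, key]
      have h1 := congrArg Subtype.val h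
      have h2 := Prod.ext_iff.1 h1
      simp only at h2
      rw [h2.1, h2.2]
  -- the lower bound
  have h1 : ((Nat.card (𝓞 L →+* ZMod p) : ℝ) - C / Real.sqrt p) * (p : ℝ) ^ d ≤
      Nat.card {ψ : ρ.range →+* ZMod p // ψ (s * ρ.rangeRestrict Q) ≠ 0} := by
    rw [← le_div_iff₀ hsq] at hb
    have h2 := (abs_le.1 hb).1
    have h3 : C * (p : ℝ) ^ d / Real.sqrt p = C / Real.sqrt p * (p : ℝ) ^ d := by ring
    rw [h3] at h2
    linarith
  have h2 : ((Nat.card (𝓞 L →+* ZMod p) : ℝ) - C / Real.sqrt p) * (p : ℝ) ^ (m - 1) ≤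
      Nat.card {ψ : ρ.range →+* ZMod p // ψ (s * ρ.rangeRestrict Q) ≠ 0} := by
    rcases le_or_gt 0 ((Nat.card (𝓞 L →+* ZMod p) : ℝ) - C / Real.sqrt p) with h | h
    · refine le_trans ?_ h1
      refine mul_le_mul_of_nonneg_left ?_ h
      exact pow_le_pow_right₀ (by exact_mod_cast hp.one_lt.le) hdm
    · exact (mul_nonpos_of_nonpos_of_nonneg h.le (by positivity)).trans (Nat.cast_nonneg _)
  exact h2.trans (by exact_mod_cast hinjpt)

end Pool.Agent.Helper520_bf
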