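import Pool.Agent.Helper520_bf.LwB
import Pool.Agent.Helper520_bf.Lin

/-!
Forms with two different irreducible factors over a number field are badly distributed modulo many primes.
-/

set_option autoImplicit false
set_option linter.unusedSectionVars false
set_option linter.unusedVariables false

namespace Pool.Agent.Helper520_bf

open Finset MvPolynomial NumberField Filter Topology

variable {m : ℕ}

theorem lw_P {K : Type} [Field K] [NumberField K] {P : MvPolynomial (Fin m) K} (hP : Irreducible P)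
    (Q : MvPolynomial (Fin m) (𝓞 K)) (hQ : ¬ P ∣ MvPolynomial.map (algebraMap (𝓞 K) K) Q) :
    ∃ (L : Type) (_ : Field L) (_ : NumberField L) (C : ℝ) (N : ℕ), 0 ≤ C ∧ N ≠ 0 ∧ ∀ p : ℕ, p.Prime → ¬ p ∣ N →
      ((Nat.card (𝓞 L →+* ZMod p) : ℝ) - C / Real.sqrt p) * (p : ℝ) ^ (m - 1) ≤
        Nat.card {y : (𝓞 K →+* ZMod p) × (Fin m → ZMod p) // Pt K P Q p y} := by
  have hprime : (Ideal.span {P}).IsPrime := (Ideal.span_singleton_prime hP.ne_zero).2 hP.prime
  have hdom : IsDomain (MvPolynomial (Fin m) K ⧸ Ideal.span {P}) := Ideal.Quotient.isDomain _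
  refine lw_core (M := FractionRing (MvPolynomial (Fin m) K ⧸ Ideal.span {P}))
    ((algebraMap _ (FractionRing (MvPolynomial (Fin m) K ⧸ Ideal.span {P}))).comp (Ideal.Quotient.mk (Ideal.span {P}))) hP ?_ ?_ Q hQ
  · intro G
    rw [RingHom.comp_apply, FaithfulSMul.algebraMap_eq_zero_iff, Ideal.Quotient.eq_zero_iff_mem, Ideal.mem_span_singleton]
  · intro z
    obtain ⟨a, b, _, rfl⟩ := IsFractionRing.div_surjective (A := MvPolynomial (Fin m) K ⧸ Ideal.span {P}) z
    obtain ⟨g, rfl⟩ := Ideal.Quotient.mk_surjective a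
    obtain ⟨h, rfl⟩ := Ideal.Quotient.mk_surjective b
    exact ⟨g, h, rfl⟩

lemma clear_poly {K : Type} [Field K] [NumberField K] (P : MvPolynomial (Fin m) K) :
    ∃ (Q : MvPolynomial (Fin m) (𝓞 K)) (d : 𝓞 K), d ≠ 0 ∧
      MvPolynomial.map (algebraMap (𝓞 K) K) Q = C (algebraMap (𝓞 K) K d) * P := by
  classical
  obtain ⟨d, hd⟩ := IsLocalization.exist_integer_multiples_of_finite (nonZeroDivisors (𝓞 K)) (fun s : {s // s ∈ P.support} => P.coeff s.1)
  choose a ha using hd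
  refine ⟨∑ s : {s // s ∈ P.support}, monomial s.1 (a s), d, nonZeroDivisors.coe_ne_zero d, ?_⟩
  rw [map_sum]
  simp_rw [map_monomial, ha]
  conv_rhs => rw [P.as_sum, Finset.mul_sum]
  rw [← Finset.sum_coe_sort P.support]
  refine Finset.sum_congr rfl fun s _ => ?_
  rw [C_mul_monomial, Algebra.smul_def]

lemma ev_G {K : Type} [Field K] [NumberField K] (F : MvPolynomial (Fin m) ℤ) {p : ℕ} (φ : 𝓞 K →+* ZMod p) (x : Fin m → ZMod p) :
    eval₂ φ x (MvPolynomial.map (algebraMap ℤ (𝓞 K)) F) = aeval x F := by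
  rw [eval₂_map, aeval_def]
  congr 1
  exact RingHom.ext_int _ _

theorem two_factors (F : MvPolynomial (Fin m) ℤ) {K : Type} [Field K] [NumberField K] (P1 P2 : MvPolynomial (Fin m) K)
    (h1 : Irreducible P1) (h2 : Irreducible P2) (hna : ¬ P1 ∣ P2)
    (hF1 : P1 ∣ MvPolynomial.map (algebraMap ℤ K) F) (hF2 : P2 ∣ MvPolynomial.map (algebraMap ℤ K) F) :
    ∃ (L1 : Type) (_ : Field L1) (_ : NumberField L1) (L2 : Type) (_ : Field L2) (_ : NumberField L2) (C : ℝ) (N : ℕ),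
      0 ≤ C ∧ N ≠ 0 ∧ ∀ p : ℕ, p.Prime → ¬ p ∣ N →
      ((Nat.card (𝓞 L1 →+* ZMod p) : ℝ) + Nat.card (𝓞 L2 →+* ZMod p) - C / Real.sqrt p) * (p : ℝ) ^ (m - 1) ≤
        Nat.card (𝓞 K →+* ZMod p) * sol F p 0 := by
  classical
  obtain ⟨Q, d, hd, hQ⟩ := clear_poly P2
  have hdK : algebraMap (𝓞 K) K d ≠ 0 := by rwa [Ne, FaithfulSMul.algebraMap_eq_zero_iff]
  have hunit : IsUnit (C (algebraMap (𝓞 K) K d) : MvPolynomial (Fin m) K) := (isUnit_iff_ne_zero.2 hdK).map C
  have hQ1 : ¬ P1 ∣ MvPolynomial.map (algebraMap (𝓞 K) K) Q := by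
    rw [hQ, hunit.dvd_mul_left]
    exact hna
  have hQ2 : P2 ∣ MvPolynomial.map (algebraMap (𝓞 K) K) Q := by
    rw [hQ]
    exact Dvd.intro_left _ rfl
  have hone : ¬ P2 ∣ MvPolynomial.map (algebraMap (𝓞 K) K) (1 : MvPolynomial (Fin m) (𝓞 K)) := by
    rw [map_one]
    exact fun h => h2.not_isUnit (isUnit_of_dvd_one h)
  obtain ⟨L1, iL1, nL1, C1, N1, hC1, hN1, hb1⟩ := lw_P h1 Q hQ1
  obtain ⟨L2, iL2, nL2, C2, N2, hC2, hN2, hb2⟩ := lw_P h2 1 hone
  refine ⟨L1, iL1, nL1, L2, iL2, nL2, C1 + C2, N1 * N2, add_nonneg hC1 hC2, mul_ne_zero hN1 hN2, fun p hp hpN => ?_⟩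
  have : Fact p.Prime := ⟨hp⟩
  have hfin := finite_hom K p
  have e1 := hb1 p hp fun h => hpN (Dvd.dvd.mul_right h _)
  have e2 := hb2 p hp fun h => hpN (Dvd.dvd.mul_left h _)
  set G := MvPolynomial.map (algebraMap ℤ (𝓞 K)) F with hG
  have hGK : MvPolynomial.map (algebraMap (𝓞 K) K) G = MvPolynomial.map (algebraMap ℤ K) F := by
    rw [hG, MvPolynomial.map_map]
    congr 1
  have hz1 : ∀ y, Pt K P1 Q p y → (aeval y.2 F : ZMod p) = 0 := fun y hy => by
    rw [← ev_G F y.1 y.2]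
    exact hy.2 G (by rw [hGK]; exact hF1)
  have hz2 : ∀ y, Pt K P2 1 p y → (aeval y.2 F : ZMod p) = 0 := fun y hy => by
    rw [← ev_G F y.1 y.2]
    exact hy.2 G (by rw [hGK]; exact hF2)
  have hcard : Nat.card ({y : (𝓞 K →+* ZMod p) × (Fin m → ZMod p) // Pt K P1 Q p y} ⊕
      {y : (𝓞 K →+* ZMod p) × (Fin m → ZMod p) // Pt K P2 1 p y}) ≤
      Nat.card ((𝓞 K →+* ZMod p) × {x : Fin m → ZMod p // (aeval x F : ZMod p) = 0}) := by
    refine Nat.card_le_card_of_injective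
      (Sum.elim (fun y => (y.1.1, ⟨y.1.2, hz1 y.1 y.2⟩)) (fun y => (y.1.1, ⟨y.1.2, hz2 y.1 y.2⟩))) ?_
    rintro (y | y) (y' | y') h
    · have h3 := Prod.ext_iff.1 h
      simp only [Sum.elim_inl] at h3
      exact congrArg Sum.inl (Subtype.ext (Prod.ext h3.1 (congrArg Subtype.val h3.2)))
    · exfalso
      have h3 := Prod.ext_iff.1 h
      simp only [Sum.elim_inl, Sum.elim_inr] at h3
      have h4 : y.1 = y'.1 := Prod.ext h3.1 (congrArg Subtype.val h3.2)
      apply y.2.1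
      rw [h4]
      exact y'.2.2 Q hQ2
    · exfalso
      have h3 := Prod.ext_iff.1 h
      simp only [Sum.elim_inl, Sum.elim_inr] at h3
      have h4 : y'.1 = y.1 := (Prod.ext h3.1 (congrArg Subtype.val h3.2)).symm
      apply y'.2.1
      rw [h4]
      exact y.2.2 Q hQ2
    · have h3 := Prod.ext_iff.1 h
      simp only [Sum.elim_inr] at h3
      exact congrArg Sum.inr (Subtype.ext (Prod.ext h3.1 (congrArg Subtype.val h3.2)))
  rw [Nat.card_sum, Nat.card_prod] at hcard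
  have hcard' : (Nat.card {y : (𝓞 K →+* ZMod p) × (Fin m → ZMod p) // Pt K P1 Q p y} : ℝ) +
      Nat.card {y : (𝓞 K →+* ZMod p) × (Fin m → ZMod p) // Pt K P2 1 p y} ≤
      Nat.card (𝓞 K →+* ZMod p) * sol F p 0 := by
    exact_mod_cast hcard
  refine le_trans (le_of_eq ?_) ((add_le_add e1 e2).trans hcard')
  ring

lemma mod_of_hom (hm : 0 < m) {K : Type} [Field K] [NumberField K] (ζ : 𝓞 K) (hζ : IsPrimitiveRoot ζ (4 * m)) {p : ℕ}
    (hp : p.Prime) (hpm : ¬ p ∣ 4 * m) (φ : 𝓞 K →+* ZMod p) : p % (4 * m) = 1 := by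
  have : Fact p.Prime := ⟨hp⟩
  have hp4m : (((4 * m : ℕ)) : ZMod p) ≠ 0 := by
    rwa [Ne, ZMod.natCast_eq_zero_iff]
  have : NeZero (((4 * m : ℕ)) : ZMod p) := ⟨hp4m⟩
  have e1 : Polynomial.IsRoot (Polynomial.cyclotomic (4 * m) (𝓞 K)) ζ := hζ.isRoot_cyclotomic (by omega)
  have e2 : Polynomial.IsRoot (Polynomial.cyclotomic (4 * m) (ZMod p)) (φ ζ) := by
    have := e1.map (f := φ)
    rwa [Polynomial.map_cyclotomic] at this
  have e3 : IsPrimitiveRoot (φ ζ) (4 * m) := (Polynomial.isRoot_cyclotomic_iff).1 e2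
  have e4 : φ ζ ≠ 0 := e3.ne_zero (by omega)
  have e5 : (4 * m) ∣ p - 1 := e3.dvd_of_pow_eq_one _ (ZMod.pow_card_sub_one_eq_one e4)
  obtain ⟨k, hk⟩ := e5
  have hp1 := hp.one_lt
  have hk' : p = 1 + 4 * m * k := by omega
  rw [hk', Nat.add_mul_mod_self_left]
  exact Nat.mod_eq_of_lt (by omega)

/-- transfer of divergence -/
lemma div_transfer (hm : 0 < m) (F : MvPolynomial (Fin m) ℤ) (Pr : Set ℕ) (c : ℝ) (hc : 0 < c)
    (hloc : ∀ p ∈ Pr, p.Prime ∧ p % (4 * m) = 1 ∧ c * (1 / (p : ℝ)) ≤ vv F p)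
    (hdiv : ¬ Summable fun p : Pr => 1 / ((p : ℕ) : ℝ)) :
    ¬ Summable fun p : {p : ℕ // p.Prime ∧ p % (4 * m) = 1} => vv F p := by
  intro hs
  apply hdiv
  have h2 : Summable (Set.indicator {p : ℕ | p.Prime ∧ p % (4 * m) = 1} (vv F)) := summable_subtype_iff_indicator.1 hs
  have h3 : Summable (Set.indicator Pr fun p : ℕ => 1 / (p : ℝ)) := by
    refine Summable.of_nonneg_of_le (fun p => ?_) (fun p => ?_) (h2.mul_left c⁻¹)
    · exact Set.indicator_nonneg (fun p _ => by positivity) p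
    · by_cases hp : p ∈ Pr
      · have h4 := hloc p hp
        rw [Set.indicator_of_mem hp,
          Set.indicator_of_mem (show p ∈ {p : ℕ | p.Prime ∧ p % (4 * m) = 1} from ⟨h4.1, h4.2.1⟩)]
        rw [← div_eq_inv_mul, le_div_iff₀ hc]
        linarith [h4.2.2]
      · rw [Set.indicator_of_notMem hp]
        refine mul_nonneg (by positivity) (Set.indicator_nonneg (fun p hp => ?_) p)
        exact vv_nonneg hm F hp.1
  exact summable_subtype_iff_indicator.2 h3

lemma TT_nonneg_term (L : Type) [Field L] [NumberField L] (p : ℕ) (hp : p.Prime) :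
    0 ≤ (Nat.card (𝓞 L →+* ZMod p) : ℝ) * Real.log p :=
  mul_nonneg (Nat.cast_nonneg _) (Real.log_nonneg (by exact_mod_cast hp.one_lt.le))

theorem two_factors_div (hm : 0 < m) {F : MvPolynomial (Fin m) ℤ} (hF : F.IsHomogeneous (2 * m)) (hF0 : F ≠ 0)
    {K : Type} [Field K] [NumberField K] (ζ : 𝓞 K) (hζ : IsPrimitiveRoot ζ (4 * m)) (P1 P2 : MvPolynomial (Fin m) K)
    (h1 : Irreducible P1) (h2 : Irreducible P2) (hna : ¬ P1 ∣ P2)
    (hF1 : P1 ∣ MvPolynomial.map (algebraMap ℤ K) F) (hF2 : P2 ∣ MvPolynomial.map (algebraMap ℤ K) F) :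
    ¬ Summable fun p : {p : ℕ // p.Prime ∧ p % (4 * m) = 1} => vv F p := by
  classical
  obtain ⟨s0, hs0⟩ : ∃ s, F.coeff s ≠ 0 := by
    by_contra hcon
    push Not at hcon
    exact hF0 (MvPolynomial.ext _ _ fun s => by rw [hcon s, coeff_zero])
  obtain ⟨L1, iL1, nL1, L2, iL2, nL2, C, N, hC, hN, hb⟩ := two_factors F P1 P2 h1 h2 hna hF1 hF2
  have hn : 0 < Module.finrank ℚ K := Module.finrank_pos
  have hn' : (0 : ℝ) < Module.finrank ℚ K := by exact_mod_cast hn
  set n := Module.finrank ℚ K with hndef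
  set D : ℝ := ((2 * m : ℕ) : ℝ) with hD
  have hD0 : 0 < D := by
    rw [hD]
    exact_mod_cast (by omega : 0 < 2 * m)
  set N' : ℕ := N * (F.coeff s0).natAbs * (4 * m) with hN'
  have hN'0 : N' ≠ 0 := mul_ne_zero (mul_ne_zero hN (Int.natAbs_ne_zero.2 hs0)) (by omega)
  obtain ⟨p0, hp0⟩ := exists_nat_ge ((16 * C) ^ 2)
  -- good primes
  set Gd : ℕ → Prop := fun p => p.Prime ∧ ¬ p ∣ N' ∧ p0 ≤ p with hGd
  set z : ℕ → ℝ := fun p => (sol F p 0 : ℝ) / (p : ℝ) ^ (m - 1) with hz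
  have hgood : ∀ p, Gd p → (Nat.card (𝓞 L1 →+* ZMod p) : ℝ) + Nat.card (𝓞 L2 →+* ZMod p) - Nat.card (𝓞 K →+* ZMod p) - 1 / 16 ≤
      Nat.card (𝓞 K →+* ZMod p) * (z p - 1) := by
    intro p hp
    have hpp : (0 : ℝ) < p := by exact_mod_cast hp.1.pos
    have e1 := hb p hp.1 fun h => hp.2.1 (Dvd.dvd.mul_right (Dvd.dvd.mul_right h _) _)
    have hsq : 0 < Real.sqrt p := Real.sqrt_pos.2 hpp
    have e2 : C / Real.sqrt p ≤ 1 / 16 := by
      rw [div_le_iff₀ hsq]
      have e3 : 16 * C ≤ Real.sqrt p := by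
        refine Real.le_sqrt_of_sq_le (hp0.trans ?_)
        exact_mod_cast hp.2.2
      linarith
    have hpw : (0 : ℝ) < (p : ℝ) ^ (m - 1) := by positivity
    rw [← le_div_iff₀ hpw] at e1
    have e3 : (Nat.card (𝓞 K →+* ZMod p) : ℝ) * sol F p 0 / (p : ℝ) ^ (m - 1) = Nat.card (𝓞 K →+* ZMod p) * z p := by
      rw [hz, mul_div_assoc]
    rw [e3] at e1
    linarith
  have hzD : ∀ p, Gd p → z p ≤ D := by
    intro p hp
    have hpp : (0 : ℝ) < p := by exact_mod_cast hp.1.pos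
    rw [hz]
    simp only
    rw [div_le_iff₀ (by positivity)]
    refine sol_le hm hF (by omega) hs0 hp.1 (fun h => hp.2.1 ?_) 0
    exact Dvd.dvd.mul_right (Dvd.dvd.mul_left (Int.natCast_dvd.1 h) _) _
  -- the set of primes
  set Pr : Set ℕ := {p | Gd p ∧ Nonempty (𝓞 K →+* ZMod p) ∧ 5 / 4 ≤ z p} with hPr
  refine div_transfer hm F Pr (1 / 16) (by norm_num) ?_ ?_
  · rintro p ⟨hp, ⟨φ⟩, hzp⟩
    refine ⟨hp.1, mod_of_hom hm ζ hζ hp.1 (fun h => hp.2.1 (Dvd.dvd.mul_left h _)) φ, ?_⟩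
    have e1 := vv_ge hm F hp.1 0
    have e2 : (1 : ℝ) / 16 ≤ (z p - 1) ^ 2 := by nlinarith
    have hpp : (0 : ℝ) < p := by exact_mod_cast hp.1.pos
    have e3 := e2.trans e1
    rw [← div_le_iff₀' hpp] at e3
    refine le_trans (le_of_eq ?_) e3
    field_simp
  · refine div_of_theta Pr (fun p hp => hp.1.1) (1 / (5 * (n * D))) (by positivity) ?_
    -- the averages
    have hlow : ∀ (L : Type) [Field L] [NumberField L], ∀ᶠ M : ℕ in atTop, (9 / 10 : ℝ) * M ≤ H332.PIT.TT L M := by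
      intro L _ _
      have h3 := H332.PIT.TT_tendsto (K := L) (Pool.Agent.H484R2.continuation L)
      filter_upwards [h3.eventually (lt_mem_nhds (show (9 / 10 : ℝ) < 1 by norm_num)), eventually_ge_atTop 1] with M hM hM1
      have : (0 : ℝ) < M := by exact_mod_cast hM1
      rw [lt_div_iff₀ this] at hM
      exact hM.le
    have hup : ∀ (L : Type) [Field L] [NumberField L], ∀ᶠ M : ℕ in atTop, H332.PIT.TT L M ≤ (11 / 10 : ℝ) * M := by
      intro L _ _
      have h3 := H332.PIT.TT_tendsto (K := L) (Pool.Agent.H484R2.continuation L)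
      filter_upwards [h3.eventually (gt_mem_nhds (show (1 : ℝ) < 11 / 10 by norm_num)), eventually_ge_atTop 1] with M hM hM1
      have : (0 : ℝ) < M := by exact_mod_cast hM1
      rw [div_lt_iff₀ this] at hM
      exact hM.le
    -- the contribution of the bad primes
    set bad : Finset ℕ := (range (N' + p0 + 1)).filter Nat.Prime with hbad
    set E : ℝ := ∑ p ∈ bad, ((Nat.card (𝓞 L1 →+* ZMod p) : ℝ) * Real.log p + (Nat.card (𝓞 L2 →+* ZMod p) : ℝ) * Real.log p) with hE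
    obtain ⟨N3, hN3⟩ := exists_nat_ge (10 * E)
    obtain ⟨N4, hN4⟩ := ((hlow L1).and ((hlow L2).and (hup K))).exists_forall_of_atTop
    refine ⟨max N3 N4, fun M hM => ?_⟩
    obtain ⟨a1, a2, a3⟩ := hN4 M ((le_max_right _ _).trans hM)
    have a4 : 10 * E ≤ M := hN3.trans (by exact_mod_cast (le_max_left _ _).trans hM)
    set good : Finset ℕ := (range (M + 1)).filter Gd with hgoodset
    have hsub : good ⊆ (range (M + 1)).filter Nat.Prime := by
      intro p hp
      rw [hgoodset, Finset.mem_filter] at hp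
      rw [Finset.mem_filter]
      exact ⟨hp.1, hp.2.1⟩
    -- lower bound
    have b1 : H332.PIT.TT L1 M + H332.PIT.TT L2 M - E ≤
        ∑ p ∈ good, ((Nat.card (𝓞 L1 →+* ZMod p) : ℝ) + Nat.card (𝓞 L2 →+* ZMod p)) * Real.log p := by
      have c1 : H332.PIT.TT L1 M + H332.PIT.TT L2 M ≤
          ∑ p ∈ good, ((Nat.card (𝓞 L1 →+* ZMod p) : ℝ) + Nat.card (𝓞 L2 →+* ZMod p)) * Real.log p + E := by
        unfold H332.PIT.TT
        rw [← Finset.sum_add_distrib]
        have c2 : ∑ p ∈ good, ((Nat.card (𝓞 L1 →+* ZMod p) : ℝ) + Nat.card (𝓞 L2 →+* ZMod p)) * Real.log p =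
            ∑ p ∈ good, ((Nat.card (𝓞 L1 →+* ZMod p) : ℝ) * Real.log p + (Nat.card (𝓞 L2 →+* ZMod p) : ℝ) * Real.log p) :=
          Finset.sum_congr rfl fun p _ => by ring
        rw [c2, hE]
        have c3 : (range (M + 1)).filter Nat.Prime ⊆ good ∪ bad := by
          intro p hp
          rw [Finset.mem_filter, Finset.mem_range] at hp
          rw [Finset.mem_union, hgoodset, hbad, Finset.mem_filter, Finset.mem_filter, Finset.mem_range, Finset.mem_range]
          by_cases h : ¬ p ∣ N' ∧ p0 ≤ p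
          · exact Or.inl ⟨hp.1, hp.2, h.1, h.2⟩
          · refine Or.inr ⟨?_, hp.2⟩
            by_contra hcon
            apply h
            refine ⟨fun hd => ?_, by omega⟩
            have := Nat.le_of_dvd (Nat.pos_of_ne_zero hN'0) hd
            omega
        have c4 : ∀ p ∈ good ∪ bad, 0 ≤ (Nat.card (𝓞 L1 →+* ZMod p) : ℝ) * Real.log p + (Nat.card (𝓞 L2 →+* ZMod p) : ℝ) * Real.log p := by
          intro p hp
          have hpp : p.Prime := by
            rw [Finset.mem_union, hgoodset, hbad, Finset.mem_filter, Finset.mem_filter] at hp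
            rcases hp with h | h
            · exact h.2.1
            · exact h.2
          exact add_nonneg (TT_nonneg_term L1 p hpp) (TT_nonneg_term L2 p hpp)
        refine (Finset.sum_le_sum_of_subset_of_nonneg c3 fun p hp _ => c4 p hp).trans ?_
        rw [← Finset.sum_union_inter]
        refine le_add_of_nonneg_right (Finset.sum_nonneg fun p hp => ?_)
        exact c4 p (Finset.mem_union_left _ (Finset.mem_inter.1 hp).1)
      linarith
    have b2 : ∑ p ∈ good, (Nat.card (𝓞 K →+* ZMod p) : ℝ) * Real.log p ≤ H332.PIT.TT K M := by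
      unfold H332.PIT.TT
      refine Finset.sum_le_sum_of_subset_of_nonneg hsub fun p hp _ => ?_
      exact TT_nonneg_term K p (Finset.mem_filter.1 hp).2
    have b3 : ∑ p ∈ good, Real.log p ≤ 2 * M := by
      refine le_trans (Finset.sum_le_sum_of_subset_of_nonneg hsub fun p hp _ => ?_) (theta_sum_le M)
      exact Real.log_nonneg (by exact_mod_cast (Finset.mem_filter.1 hp).2.one_lt.le)
    have b4 : ∑ p ∈ good, ((Nat.card (𝓞 L1 →+* ZMod p) : ℝ) + Nat.card (𝓞 L2 →+* ZMod p)) * Real.log p -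
        ∑ p ∈ good, (Nat.card (𝓞 K →+* ZMod p) : ℝ) * Real.log p - 1 / 16 * ∑ p ∈ good, Real.log p ≤
        ∑ p ∈ good, (Nat.card (𝓞 K →+* ZMod p) : ℝ) * (z p - 1) * Real.log p := by
      rw [Finset.mul_sum, ← Finset.sum_sub_distrib, ← Finset.sum_sub_distrib]
      refine Finset.sum_le_sum fun p hp => ?_
      rw [hgoodset, Finset.mem_filter] at hp
      have hlog : 0 ≤ Real.log p := Real.log_nonneg (by exact_mod_cast hp.2.1.one_lt.le)
      have := mul_le_mul_of_nonneg_right (hgood p hp.2) hlog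
      linarith
    -- upper bound
    have b5 : ∑ p ∈ good, (Nat.card (𝓞 K →+* ZMod p) : ℝ) * (z p - 1) * Real.log p ≤
        n * D * ∑ p ∈ (range (M + 1)).filter (fun p => p ∈ Pr), Real.log p +
          1 / 4 * ∑ p ∈ good, (Nat.card (𝓞 K →+* ZMod p) : ℝ) * Real.log p := by
      have c1 : (range (M + 1)).filter (fun p => p ∈ Pr) = good.filter (fun p => p ∈ Pr) := by
        ext p
        simp only [hgoodset, Finset.mem_filter]
        constructor
        · rintro ⟨h3, h4⟩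
          exact ⟨⟨h3, h4.1⟩, h4⟩
        · rintro ⟨⟨h3, _⟩, h4⟩
          exact ⟨h3, h4⟩
      rw [c1]
      clear_value good
      rw [Finset.sum_filter, Finset.mul_sum, Finset.mul_sum, ← Finset.sum_add_distrib]
      refine Finset.sum_le_sum fun p hp => ?_
      rw [hgoodset, Finset.mem_filter] at hp
      have hlog : 0 ≤ Real.log p := Real.log_nonneg (by exact_mod_cast hp.2.1.one_lt.le)
      have hcn : (Nat.card (𝓞 K →+* ZMod p) : ℝ) ≤ n := H332.PIT.hc_cast_le hp.2.1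
      have hc0 : (0 : ℝ) ≤ Nat.card (𝓞 K →+* ZMod p) := Nat.cast_nonneg _
      by_cases hpPr : p ∈ Pr
      · rw [if_pos hpPr]
        have c2 : (Nat.card (𝓞 K →+* ZMod p) : ℝ) * (z p - 1) ≤ n * D := by
          have c3 : z p - 1 ≤ D := by linarith [hzD p hp.2]
          have c4 : 0 ≤ z p - 1 := by linarith [hpPr.2.2]
          exact mul_le_mul hcn c3 c4 hn'.le
        have c5 := mul_le_mul_of_nonneg_right c2 hlog
        have c6 : 0 ≤ 1 / 4 * ((Nat.card (𝓞 K →+* ZMod p) : ℝ) * Real.log p) := by positivity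
        linarith
      · rw [if_neg hpPr, mul_zero, zero_add]
        by_cases hne : Nonempty (𝓞 K →+* ZMod p)
        · have c2 : z p < 5 / 4 := by
            by_contra hcon
            push Not at hcon
            exact hpPr ⟨hp.2, hne, hcon⟩
          have c3 : (Nat.card (𝓞 K →+* ZMod p) : ℝ) * (z p - 1) ≤ Nat.card (𝓞 K →+* ZMod p) * (1 / 4) :=
            mul_le_mul_of_nonneg_left (by linarith) hc0
          have := mul_le_mul_of_nonneg_right c3 hlog
          linarith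
        · rw [not_nonempty_iff] at hne
          rw [Nat.card_of_isEmpty]
          simp
    have hfinal : M / 5 ≤ n * D * ∑ p ∈ (range (M + 1)).filter (fun p => p ∈ Pr), Real.log p := by
      have hM0 : (0 : ℝ) ≤ M := Nat.cast_nonneg _
      linarith
    rw [one_div, inv_mul_le_iff₀ (by positivity)]
    linarith

end Pool.Agent.Helper520_bf
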