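import Pool.Agent.Helper520_bf.LwC

/-!
Forms which are powers over a number field are badly distributed modulo many primes.
-/

set_option autoImplicit false
set_option linter.unusedSectionVars false
set_option linter.unusedVariables false

namespace Pool.Agent.Helper520_bf

open Finset MvPolynomial NumberField

variable {m : ℕ}

lemma card_image_half {p : ℕ} [Fact p.Prime] (ω : ZMod p) (hω : ω ≠ 1) (e : ℕ) (he : e ≠ 0) (hωe : ω ^ e = 1) :
    2 * #(Finset.univ.image fun y : ZMod p => y ^ e) ≤ p + 1 := by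
  classical
  have hω0 : ω ≠ 0 := by
    rintro rfl
    rw [zero_pow he] at hωe
    exact zero_ne_one hωe
  have h1 : 2 * #((Finset.univ.erase (0 : ZMod p)).image fun y : ZMod p => y ^ e) ≤ #(Finset.univ.erase (0 : ZMod p)) := by
    refine Finset.mul_card_image_le_card _ 2 fun a ha => ?_
    rw [Finset.mem_image] at ha
    obtain ⟨y, hy, hya⟩ := ha
    have hy0 : y ≠ 0 := (Finset.mem_erase.1 hy).1
    have h2 : ({y, ω * y} : Finset (ZMod p)) ⊆ (Finset.univ.erase (0 : ZMod p)).filter (fun x => x ^ e = a) := by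
      intro z hz
      rw [Finset.mem_insert, Finset.mem_singleton] at hz
      rw [Finset.mem_filter, Finset.mem_erase]
      rcases hz with rfl | rfl
      · exact ⟨⟨hy0, Finset.mem_univ _⟩, hya⟩
      · exact ⟨⟨mul_ne_zero hω0 hy0, Finset.mem_univ _⟩, by rw [mul_pow, hωe, one_mul]; exact hya⟩
    have h3 : #({y, ω * y} : Finset (ZMod p)) = 2 := by
      refine Finset.card_pair fun h => hω ?_
      exact (mul_right_cancel₀ hy0 (by rw [one_mul]; exact h)).symm
    rw [← h3]
    exact Finset.card_le_card h2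
  have h4 : #(Finset.univ.erase (0 : ZMod p)) = p - 1 := by
    rw [Finset.card_erase_of_mem (Finset.mem_univ _), Finset.card_univ, ZMod.card]
  have h5 : Finset.univ.image (fun y : ZMod p => y ^ e) ⊆
      insert (0 : ZMod p) ((Finset.univ.erase (0 : ZMod p)).image fun y : ZMod p => y ^ e) := by
    intro z hz
    rw [Finset.mem_image] at hz
    obtain ⟨y, _, rfl⟩ := hz
    rw [Finset.mem_insert, Finset.mem_image]
    by_cases hy : y = 0
    · left
      rw [hy, zero_pow he]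
    · exact Or.inr ⟨y, Finset.mem_erase.2 ⟨hy, Finset.mem_univ _⟩, rfl⟩
  have h6 := (Finset.card_le_card h5).trans (Finset.card_insert_le _ _)
  have hp := (Fact.out : p.Prime).one_lt
  omega

lemma vv_of_image (hm : 0 < m) (F : MvPolynomial (Fin m) ℤ) {p : ℕ} (hp : p.Prime) (hp3 : 3 ≤ p) (S : Finset (ZMod p))
    (hS : 2 * #S ≤ p + 1) (h : ∀ x : Fin m → ZMod p, (aeval x F : ZMod p) ∈ S) : 1 / 2 ≤ vv F p := by
  classical
  have : Fact p.Prime := ⟨hp⟩
  have : NeZero p := ⟨hp.ne_zero⟩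
  have h1 : ∑ n ∈ S, (sol F p n : ℝ) = (p : ℝ) ^ m := by
    have e1 := sum_sol F p
    rw [← Finset.sum_subset (Finset.subset_univ S)] at e1
    · exact_mod_cast e1
    · intro n _ hn
      rw [sol_eq, Finset.card_eq_zero, Finset.filter_eq_empty_iff]
      intro x _ hx
      exact hn (hx ▸ h x)
  have h2 : ∑ n ∈ S, (sol F p n : ℝ) ^ 2 ≤ (mom F p 2 : ℝ) := by
    rw [mom_eq]
    push_cast
    exact Finset.sum_le_sum_of_subset_of_nonneg (Finset.subset_univ S) fun n _ _ => by positivity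
  have h3 := sq_sum_le_card_mul_sum_sq (s := S) (f := fun n => (sol F p n : ℝ))
  rw [h1] at h3
  have hS' : 2 * (#S : ℝ) ≤ p + 1 := by exact_mod_cast hS
  have hp3' : (3 : ℝ) ≤ p := by exact_mod_cast hp3
  have h4 : ((p : ℝ) ^ m) ^ 2 ≤ (p + 1) / 2 * (mom F p 2 : ℝ) := by
    refine h3.trans ?_
    refine mul_le_mul (by linarith) h2 (Finset.sum_nonneg fun n _ => by positivity) (by linarith)
  have h5 : 3 / 2 ≤ M2 F p := by
    unfold M2
    rw [le_div_iff₀ (by positivity)]
    have e1 : ((p : ℝ) ^ m) ^ 2 = p * (p : ℝ) ^ (2 * m - 1) := by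
      rw [← pow_mul, ← pow_succ']
      congr 1
      omega
    rw [e1] at h4
    have e2 : 0 < (p : ℝ) ^ (2 * m - 1) := by positivity
    by_contra hcon
    push Not at hcon
    have e3 : (p + 1) / 2 * (mom F p 2 : ℝ) < (p + 1) / 2 * (3 / 2 * (p : ℝ) ^ (2 * m - 1)) :=
      mul_lt_mul_of_pos_left hcon (by linarith)
    have e4 : (p + 1) / 2 * (3 / 2 * (p : ℝ) ^ (2 * m - 1)) ≤ p * (p : ℝ) ^ (2 * m - 1) := by nlinarith
    linarith
  rw [M2_eq] at h5
  linarith

lemma totalDegree_pow_eq {K : Type} [Field K] (P : MvPolynomial (Fin m) K) (hP : P ≠ 0) (e : ℕ) :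
    (P ^ e).totalDegree = e * P.totalDegree := by
  induction e with
  | zero => rw [pow_zero, totalDegree_one, zero_mul]
  | succ e ih =>
    rw [pow_succ, totalDegree_mul_of_isDomain (pow_ne_zero _ hP) hP, ih]
    ring

theorem pow_case (hm : 0 < m) {F : MvPolynomial (Fin m) ℤ} (hF : F.IsHomogeneous (2 * m)) (hF0 : F ≠ 0)
    {K : Type} [Field K] [NumberField K] (ζ : 𝓞 K) (hζ : IsPrimitiveRoot ζ (4 * m)) (P : MvPolynomial (Fin m) K) (c : K)
    (e : ℕ) (he : 2 ≤ e) (hFP : MvPolynomial.map (algebraMap ℤ K) F = C c * P ^ e) :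
    ¬ Summable fun p : {p : ℕ // p.Prime ∧ p % (4 * m) = 1} => vv F p := by
  classical
  -- the exponent divides the degree
  have hFK0 : MvPolynomial.map (algebraMap ℤ K) F ≠ 0 := by
    intro h
    exact hF0 (MvPolynomial.map_injective _ (algebraMap ℤ K).injective_int (by rw [h, map_zero]))
  have hc0 : c ≠ 0 := by
    rintro rfl
    rw [C_0, zero_mul] at hFP
    exact hFK0 hFP
  have hP0 : P ≠ 0 := by
    rintro rfl
    rw [zero_pow (by omega), mul_zero] at hFP
    exact hFK0 hFP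
  have hdeg : (MvPolynomial.map (algebraMap ℤ K) F).totalDegree = 2 * m := (hF.map _).totalDegree hFK0
  have hdvd : e ∣ 2 * m := by
    rw [hFP, totalDegree_mul_of_isDomain (by rwa [Ne, C_eq_zero]) (pow_ne_zero _ hP0), totalDegree_C, zero_add,
      totalDegree_pow_eq P hP0] at hdeg
    exact ⟨_, hdeg.symm⟩
  -- denominators
  obtain ⟨Q, d, hd, hQ⟩ := clear_poly P
  obtain ⟨a, b, hb, hab⟩ := IsFractionRing.div_surjective (A := 𝓞 K) c
  have hb0 : b ≠ 0 := nonZeroDivisors.ne_zero hb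
  have hbK : algebraMap (𝓞 K) K b ≠ 0 := by rwa [Ne, FaithfulSMul.algebraMap_eq_zero_iff]
  have hid : C (d ^ e * b) * MvPolynomial.map (algebraMap ℤ (𝓞 K)) F = C a * Q ^ e := by
    apply MvPolynomial.map_injective _ (FaithfulSMul.algebraMap_injective (𝓞 K) K)
    have hGK : MvPolynomial.map (algebraMap (𝓞 K) K) (MvPolynomial.map (algebraMap ℤ (𝓞 K)) F) = MvPolynomial.map (algebraMap ℤ K) F := by
      rw [MvPolynomial.map_map]
      congr 1
    rw [map_mul (MvPolynomial.map (algebraMap (𝓞 K) K)) (C (d ^ e * b)), map_mul (MvPolynomial.map (algebraMap (𝓞 K) K)) (C a),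
      map_pow (MvPolynomial.map (algebraMap (𝓞 K) K)) Q, hGK, hQ, hFP, MvPolynomial.map_C, MvPolynomial.map_C,
      map_mul (algebraMap (𝓞 K) K), map_pow (algebraMap (𝓞 K) K), C_mul, C_pow]
    have e1 : algebraMap (𝓞 K) K b * c = algebraMap (𝓞 K) K a := by
      rw [← hab]
      field_simp
    have e2 : (C (algebraMap (𝓞 K) K a) : MvPolynomial (Fin m) K) = C (algebraMap (𝓞 K) K b) * C c := by
      rw [← C_mul, e1]
    rw [e2]
    ring
  obtain ⟨nd, hnd, wd, hwd⟩ := exists_nat_dvd d hd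
  obtain ⟨nb, hnb, wb, hwb⟩ := exists_nat_dvd b hb0
  set N' : ℕ := nd * nb * (4 * m) with hN'
  have hN'0 : N' ≠ 0 := mul_ne_zero (mul_ne_zero hnd hnb) (by omega)
  refine div_transfer hm F {p : ℕ | (p.Prime ∧ Nonempty (𝓞 K →+* ZMod p)) ∧ ¬ (p : ℤ) ∣ (N' : ℤ)} (1 / 2) (by norm_num) ?_ ?_
  · rintro p ⟨⟨hp, ⟨φ⟩⟩, hpN⟩
    have : Fact p.Prime := ⟨hp⟩
    have hpN' : ¬ p ∣ N' := fun h => hpN (by exact_mod_cast h)
    have hp4 : ¬ p ∣ 4 * m := fun h => hpN' (Dvd.dvd.mul_left h _)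
    have hmod := mod_of_hom hm ζ hζ hp hp4 φ
    refine ⟨hp, hmod, ?_⟩
    have hp3 : 3 ≤ p := by
      by_contra hcon
      have h1 := hp.two_le
      have h2 : p = 2 := by omega
      apply hp4
      rw [h2]
      exact Dvd.dvd.mul_right (by norm_num) _
    have hnz : ∀ (u : 𝓞 K) (n : ℕ) (w : 𝓞 K), n ∣ N' → (n : 𝓞 K) = u * w → φ u ≠ 0 := by
      intro u n w hn hw h
      have e1 := congrArg φ hw
      rw [map_mul, h, zero_mul, map_natCast, ZMod.natCast_eq_zero_iff] at e1
      exact hpN' (e1.trans hn)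
    have hφd : φ d ≠ 0 := hnz d nd wd (Dvd.intro _ (by rw [hN', mul_assoc])) hwd
    have hφb : φ b ≠ 0 := hnz b nb wb ⟨nd * (4 * m), by rw [hN']; ring⟩ hwb
    -- the root of unity
    have hp4m : (((4 * m : ℕ)) : ZMod p) ≠ 0 := by
      rwa [Ne, ZMod.natCast_eq_zero_iff]
    have : NeZero (((4 * m : ℕ)) : ZMod p) := ⟨hp4m⟩
    have e1 : Polynomial.IsRoot (Polynomial.cyclotomic (4 * m) (𝓞 K)) ζ := hζ.isRoot_cyclotomic (by omega)
    have e2 : Polynomial.IsRoot (Polynomial.cyclotomic (4 * m) (ZMod p)) (φ ζ) := by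
      have := e1.map (f := φ)
      rwa [Polynomial.map_cyclotomic] at this
    have e3 : IsPrimitiveRoot (φ ζ) (4 * m) := (Polynomial.isRoot_cyclotomic_iff).1 e2
    obtain ⟨k, hk⟩ := hdvd
    have e4 : IsPrimitiveRoot (φ ζ ^ (2 * k)) e := e3.pow (by omega) (by
      calc 4 * m = 2 * (2 * m) := by ring
        _ = 2 * k * e := by rw [hk]; ring)
    have e5 := card_image_half (φ ζ ^ (2 * k)) (e4.ne_one (by omega)) e (by omega) e4.pow_eq_one
    set w : ZMod p := φ a / (φ d ^ e * φ b) with hw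
    have e6 : ∀ x : Fin m → ZMod p, (aeval x F : ZMod p) ∈
        (Finset.univ.image fun y : ZMod p => y ^ e).image fun z => w * z := by
      intro x
      rw [Finset.mem_image]
      refine ⟨(eval₂ φ x Q) ^ e, Finset.mem_image.2 ⟨eval₂ φ x Q, Finset.mem_univ _, rfl⟩, ?_⟩
      have f1 := congrArg (eval₂ φ x) hid
      rw [eval₂_mul, eval₂_mul, eval₂_pow, eval₂_C, eval₂_C, ev_G, map_mul, map_pow] at f1
      rw [hw]
      field_simp
      linear_combination -f1
    have e7 := vv_of_image hm F hp hp3 _ (le_trans (Nat.mul_le_mul_left 2 Finset.card_image_le) e5) e6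
    have hp1 : (1 : ℝ) ≤ p := by exact_mod_cast hp.one_lt.le
    have e8 : 1 / (p : ℝ) ≤ 1 := by
      rw [div_le_one (by linarith)]
      exact hp1
    linarith
  · exact not_summable_remove (fun p : ℕ => 1 / (p : ℝ)) (fun p => p.Prime ∧ Nonempty (𝓞 K →+* ZMod p)) (N' : ℤ)
      (by exact_mod_cast hN'0) (fun p h => h.1) (split_div K)

end Pool.Agent.Helper520_bf
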