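import Pool.Agent.Helper520_bf.Theta

/-!
The sum of `1 / p` over the primes which have a prime ideal of degree one above them.
-/

set_option autoImplicit false
set_option linter.unusedSectionVars false
set_option linter.unusedVariables false

namespace Pool.Agent.Helper520_bf

open Finset NumberField Filter Topology

/-- the primes with a prime ideal of degree one -/
def hp1 (K : Type) [Field K] [NumberField K] : Set ℕ := {p : ℕ | p.Prime ∧ Nonempty (𝓞 K →+* ZMod p)}

noncomputable instance decHp1 (K : Type) [Field K] [NumberField K] : DecidablePred (fun p => p ∈ hp1 K) :=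
  Classical.decPred _

lemma lower_theta (K : Type) [Field K] [NumberField K] :
    ∃ N0 : ℕ, ∀ N, N0 ≤ N → (N : ℝ) / (2 * Module.finrank ℚ K) ≤
      ∑ p ∈ (range (N + 1)).filter (fun p => p ∈ hp1 K), Real.log p := by
  classical
  have hn : 0 < Module.finrank ℚ K := Module.finrank_pos
  have hn' : (0 : ℝ) < Module.finrank ℚ K := by exact_mod_cast hn
  have h1 := H332.PIT.TT_tendsto (K := K) (Pool.Agent.H484R2.continuation K)
  have h2 : ∀ᶠ N : ℕ in atTop, (1 : ℝ) / 2 < H332.PIT.TT K N / N := h1.eventually (lt_mem_nhds (by norm_num))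
  obtain ⟨N0, hN0⟩ := (h2.and (eventually_ge_atTop 1)).exists_forall_of_atTop
  refine ⟨N0, fun N hN => ?_⟩
  obtain ⟨h3, h4⟩ := hN0 N hN
  have hN1 : (0 : ℝ) < N := by exact_mod_cast h4
  rw [lt_div_iff₀ hN1] at h3
  have h5 : H332.PIT.TT K N ≤ Module.finrank ℚ K * ∑ p ∈ (range (N + 1)).filter (fun p => p ∈ hp1 K), Real.log p := by
    unfold H332.PIT.TT
    rw [Finset.mul_sum]
    have e1 : ∑ p ∈ (range (N + 1)).filter Nat.Prime, (Nat.card (𝓞 K →+* ZMod p) : ℝ) * Real.log p =
        ∑ p ∈ (range (N + 1)).filter (fun p => p ∈ hp1 K), (Nat.card (𝓞 K →+* ZMod p) : ℝ) * Real.log p := by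
      symm
      refine Finset.sum_subset ?_ ?_
      · intro p hp
        rw [Finset.mem_filter] at hp ⊢
        exact ⟨hp.1, hp.2.1⟩
      · intro p hp hp'
        rw [Finset.mem_filter] at hp hp'
        have e2 : ¬ Nonempty (𝓞 K →+* ZMod p) := fun h => hp' ⟨hp.1, hp.2, h⟩
        rw [not_nonempty_iff] at e2
        rw [Nat.card_of_isEmpty, Nat.cast_zero, zero_mul]
    rw [e1]
    refine Finset.sum_le_sum fun p hp => ?_
    rw [Finset.mem_filter] at hp
    refine mul_le_mul_of_nonneg_right (H332.PIT.hc_cast_le hp.2.1) (Real.log_nonneg ?_)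
    exact_mod_cast hp.2.1.one_lt.le
  rw [div_le_iff₀ (by positivity)]
  nlinarith

theorem split_div (K : Type) [Field K] [NumberField K] :
    ¬ Summable fun p : hp1 K => 1 / ((p : ℕ) : ℝ) := by
  classical
  intro hs
  have hn : 0 < Module.finrank ℚ K := Module.finrank_pos
  have hn' : (0 : ℝ) < Module.finrank ℚ K := by exact_mod_cast hn
  obtain ⟨N0, hN0⟩ := lower_theta K
  set n := Module.finrank ℚ K with hn0
  -- the base of the blocks
  set B : ℕ := 8 * n + N0 + 2 with hB
  have hB1 : 1 < B := by omega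
  have hBr : (1 : ℝ) < B := by exact_mod_cast hB1
  have hlogB : 0 < Real.log B := Real.log_pos hBr
  set blk : ℕ → Finset ℕ := fun k => (Finset.Ioc (B ^ (k + 1)) (B ^ (k + 2))).filter (fun p => p ∈ hp1 K) with hblk
  have hblk1 : ∀ k : ℕ, 1 / (4 * n * Real.log B) * (1 / (k + 2 : ℝ)) ≤ ∑ p ∈ blk k, 1 / (p : ℝ) := by
    intro k
    have hBk : (0 : ℝ) < (B : ℝ) ^ (k + 2) := by positivity
    have e1 : ((B ^ (k + 2) : ℕ) : ℝ) / (2 * n) ≤ ∑ p ∈ (range (B ^ (k + 2) + 1)).filter (fun p => p ∈ hp1 K), Real.log p := by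
      refine hN0 _ ?_
      have : B ≤ B ^ (k + 2) := Nat.le_self_pow (by omega) _
      omega
    have e2 : ∑ p ∈ (range (B ^ (k + 2) + 1)).filter (fun p => p ∈ hp1 K), Real.log p ≤
        ∑ p ∈ blk k, Real.log p + 2 * ((B ^ (k + 1) : ℕ) : ℝ) := by
      refine le_trans ?_ (add_le_add le_rfl (theta_sum_le (B ^ (k + 1))))
      rw [← Finset.sum_union]
      · refine Finset.sum_le_sum_of_subset_of_nonneg ?_ ?_
        · intro p hp
          rw [Finset.mem_filter, Finset.mem_range] at hp
          rw [Finset.mem_union, hblk, Finset.mem_filter, Finset.mem_filter, Finset.mem_Ioc, Finset.mem_range]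
          rcases le_or_gt p (B ^ (k + 1)) with h | h
          · exact Or.inr ⟨by omega, hp.2.1⟩
          · exact Or.inl ⟨⟨h, by omega⟩, hp.2⟩
        · intro p hp _
          refine Real.log_nonneg ?_
          rw [Finset.mem_union, hblk, Finset.mem_filter, Finset.mem_filter] at hp
          rcases hp with h | h
          · exact_mod_cast h.2.1.one_lt.le
          · exact_mod_cast h.2.one_lt.le
      · rw [Finset.disjoint_left]
        intro p hp hp'
        rw [hblk, Finset.mem_filter, Finset.mem_Ioc] at hp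
        rw [Finset.mem_filter, Finset.mem_range] at hp'
        omega
    have e3 : ∑ p ∈ blk k, Real.log p ≤ (∑ p ∈ blk k, 1 / (p : ℝ)) * ((B : ℝ) ^ (k + 2) * ((k + 2) * Real.log B)) := by
      rw [Finset.sum_mul]
      refine Finset.sum_le_sum fun p hp => ?_
      rw [hblk, Finset.mem_filter, Finset.mem_Ioc] at hp
      have hp0 : (0 : ℝ) < p := by exact_mod_cast hp.2.1.pos
      have hp2 : (p : ℝ) ≤ (B : ℝ) ^ (k + 2) := by exact_mod_cast hp.1.2
      have f1 : Real.log p ≤ (k + 2) * Real.log B := by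
        have := Real.log_le_log hp0 hp2
        rw [Real.log_pow] at this
        push_cast at this
        exact this
      have f2 : 1 ≤ 1 / (p : ℝ) * (B : ℝ) ^ (k + 2) := by
        rw [one_div, inv_mul_eq_div, one_le_div hp0]
        exact hp2
      have f3 : 0 ≤ (k + 2) * Real.log B := by positivity
      calc Real.log p ≤ 1 * ((k + 2) * Real.log B) := by rw [one_mul]; exact f1
        _ ≤ (1 / (p : ℝ) * (B : ℝ) ^ (k + 2)) * ((k + 2) * Real.log B) := mul_le_mul_of_nonneg_right f2 f3
        _ = _ := by ring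
    have e4 : (B : ℝ) ^ (k + 2) / (4 * n) ≤ ∑ p ∈ blk k, Real.log p := by
      have f1 := e1.trans e2
      push_cast at f1
      have f2 : 2 * (B : ℝ) ^ (k + 1) ≤ (B : ℝ) ^ (k + 2) / (4 * n) := by
        rw [le_div_iff₀ (by positivity)]
        have f3 : (8 * n : ℝ) ≤ B := by
          rw [hB]
          push_cast
          have : (0 : ℝ) ≤ N0 := Nat.cast_nonneg _
          linarith
        calc 2 * (B : ℝ) ^ (k + 1) * (4 * n) = (8 * n) * (B : ℝ) ^ (k + 1) := by ring
          _ ≤ B * (B : ℝ) ^ (k + 1) := mul_le_mul_of_nonneg_right f3 (by positivity)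
          _ = _ := by ring
      have f4 : (B : ℝ) ^ (k + 2) / (2 * n) = (B : ℝ) ^ (k + 2) / (4 * n) + (B : ℝ) ^ (k + 2) / (4 * n) := by
        field_simp
        ring
      rw [f4] at f1
      linarith
    have e5 := e4.trans e3
    have e6 : 0 < (B : ℝ) ^ (k + 2) * ((k + 2) * Real.log B) := by positivity
    rw [← div_le_iff₀ e6] at e5
    refine le_trans (le_of_eq ?_) e5
    field_simp
  -- the blocks are disjoint
  have hsum : ∀ k, ∑ i ∈ range k, ∑ p ∈ blk i, 1 / (p : ℝ) ≤ ∑' p : hp1 K, 1 / ((p : ℕ) : ℝ) := by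
    intro k
    have hdis : ∀ i ∈ range k, ∀ j ∈ range k, i ≠ j → Disjoint (blk i) (blk j) := by
      intro i _ j _ hij
      rw [Finset.disjoint_left]
      intro p hp hp'
      rw [hblk, Finset.mem_filter, Finset.mem_Ioc] at hp hp'
      rcases Nat.lt_or_gt_of_ne hij with h | h
      · have := Nat.pow_le_pow_right hB1.le (by omega : i + 2 ≤ j + 1)
        omega
      · have := Nat.pow_le_pow_right hB1.le (by omega : j + 2 ≤ i + 1)
        omega
    rw [← Finset.sum_biUnion hdis]
    set U := (range k).biUnion blk with hU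
    have hUm : ∀ p ∈ U, p ∈ hp1 K := by
      intro p hp
      rw [hU, Finset.mem_biUnion] at hp
      obtain ⟨i, _, hp⟩ := hp
      rw [hblk, Finset.mem_filter] at hp
      exact hp.2
    have e1 : ∑ p ∈ U, 1 / (p : ℝ) = ∑ p ∈ U.attach.image (fun p : {x // x ∈ U} => (⟨p.1, hUm p.1 p.2⟩ : hp1 K)), 1 / ((p : ℕ) : ℝ) := by
      rw [Finset.sum_image, Finset.sum_attach U (fun p => 1 / (p : ℝ))]
      intro a _ b _ hab
      exact Subtype.ext (congrArg (fun z : hp1 K => (z : ℕ)) hab)
    rw [e1]
    exact hs.sum_le_tsum _ fun p _ => by positivity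
  have hharm : ¬ Summable fun k : ℕ => 1 / (4 * n * Real.log B) * (1 / (k + 2 : ℝ)) := by
    rw [summable_mul_left_iff (by positivity)]
    have e1 := (summable_nat_add_iff (f := fun k : ℕ => 1 / (k : ℝ)) 2).not.2 Real.not_summable_one_div_natCast
    intro h
    apply e1
    refine h.congr fun k => ?_
    push_cast
    rfl
  apply hharm
  refine summable_of_sum_range_le (c := ∑' p : hp1 K, 1 / ((p : ℕ) : ℝ)) (fun k => by positivity) fun k => ?_
  exact (Finset.sum_le_sum fun i _ => hblk1 i).trans (hsum k)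

end Pool.Agent.Helper520_bf
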