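import Pool.Agent.Helper520_bf.Box

/-!
The upper bound for the number of pairs, and the choice of the blocks of primes.
-/

set_option autoImplicit false
set_option linter.unusedSectionVars false
set_option linter.unusedVariables false

namespace Pool.Agent.Helper520_bf

open Finset MvPolynomial

variable {m : ℕ}

/-- the number of ordered pairs of elements of `A` with sum `n` -/
noncomputable def rep (A : Set ℕ) (n : ℕ) : ℕ := ({p : ℕ × ℕ | p.1 ∈ A ∧ p.2 ∈ A ∧ p.1 + p.2 = n} : Set (ℕ × ℕ)).ncard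

lemma rep_ge (A : Set ℕ) (n : ℕ) (P : Finset (ℕ × ℕ)) (h : ∀ p ∈ P, p.1 ∈ A ∧ p.2 ∈ A ∧ p.1 + p.2 = n) :
    #P ≤ rep A n := by
  unfold rep
  rw [← Set.ncard_coe_finset]
  refine Set.ncard_le_ncard (fun p hp => h p (Finset.mem_coe.1 hp)) ?_
  refine (((Finset.range (n + 1)) ×ˢ (Finset.range (n + 1))).finite_toSet).subset ?_
  rintro ⟨a, b⟩ ⟨_, _, h3⟩
  simp only at h3
  rw [Finset.mem_coe, Finset.mem_product, Finset.mem_range, Finset.mem_range]
  exact ⟨by omega, by omega⟩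

/-- the number of natural numbers close to a real number -/
noncomputable def nearNat (y : ℝ) (V : ℕ) : Finset ℕ := Finset.Icc ⌈y - V⌉₊ (⌈y - V⌉₊ + 2 * V)

lemma mem_nearNat {y : ℝ} {V n : ℕ} (h : |(n : ℝ) - y| ≤ V) : n ∈ nearNat y V := by
  unfold nearNat
  rw [Finset.mem_Icc]
  obtain ⟨h4, h5⟩ := abs_le.1 h
  constructor
  · rw [Nat.ceil_le]
    linarith
  · have h6 : y - V ≤ ⌈y - V⌉₊ := Nat.le_ceil _
    have h7 : (n : ℝ) ≤ ((⌈y - V⌉₊ + 2 * V : ℕ) : ℝ) := by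
      push_cast at h5 ⊢
      linarith
    exact_mod_cast h7

lemma card_nearNat (y : ℝ) (V : ℕ) : #(nearNat y V) = 2 * V + 1 := by
  unfold nearNat
  rw [Nat.card_Icc]
  omega

theorem upper (A : Set ℕ) (g : ℕ) (hA : ∀ n, rep A n ≤ g) (F : MvPolynomial (Fin m) ℤ) (α : ℝ) (hα : 0 < α)
    (W N Q : ℕ) (hQ : 0 < Q) (S : Finset (Fin m → ℤ)) (φ : (Fin m → ℤ) → ℕ) (hφ : Set.InjOn φ S)
    (hφA : ∀ s ∈ S, φ s ∈ A ∧ φ s ≤ N ∧ |(φ s : ℝ) - α * ((aeval s F : ℤ) : ℝ)| ≤ W) :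
    (#{x ∈ S ×ˢ S | ((Q : ℕ) : ℤ) ∣ (aeval x.1 F : ℤ) + aeval x.2 F} : ℝ) ≤
      g * (4 * W + 1) * ((2 * N + 4 * W) / (α * Q) + 1) := by
  classical
  set P := ({x ∈ S ×ˢ S | ((Q : ℕ) : ℤ) ∣ (aeval x.1 F : ℤ) + aeval x.2 F} : Finset ((Fin m → ℤ) × (Fin m → ℤ))) with hP
  have hQ' : (0 : ℝ) < Q := by exact_mod_cast hQ
  have hαQ : 0 < α * Q := by positivity
  -- the multiples
  set k1 : ℤ := ⌈-(2 * W : ℝ) / (α * Q)⌉ with hk1
  set k2 : ℤ := ⌊(2 * N + 2 * W : ℝ) / (α * Q)⌋ with hk2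
  set I : Finset ℕ := (Finset.Icc k1 k2).biUnion fun k => nearNat (α * Q * k) (2 * W) with hI
  have hmap : ∀ x ∈ P, φ x.1 + φ x.2 ∈ I := by
    intro x hx
    rw [hP, Finset.mem_filter, Finset.mem_product] at hx
    obtain ⟨⟨h1, h2⟩, k, hk⟩ := hx
    obtain ⟨a1, a2, a3⟩ := hφA _ h1
    obtain ⟨b1, b2, b3⟩ := hφA _ h2
    have e1 : (((aeval x.1 F : ℤ) : ℝ) + ((aeval x.2 F : ℤ) : ℝ)) = Q * k := by exact_mod_cast hk
    have e2 : |((φ x.1 + φ x.2 : ℕ) : ℝ) - α * Q * k| ≤ ((2 * W : ℕ) : ℝ) := by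
      have e3 : ((φ x.1 + φ x.2 : ℕ) : ℝ) - α * Q * k = ((φ x.1 : ℝ) - α * ((aeval x.1 F : ℤ) : ℝ)) +
          ((φ x.2 : ℝ) - α * ((aeval x.2 F : ℤ) : ℝ)) := by
        push_cast
        linear_combination α * e1
      rw [e3]
      refine (abs_add_le _ _).trans ?_
      push_cast
      linarith
    rw [hI, Finset.mem_biUnion]
    refine ⟨k, ?_, mem_nearNat e2⟩
    have a2' : (φ x.1 : ℝ) ≤ N := by exact_mod_cast a2
    have b2' : (φ x.2 : ℝ) ≤ N := by exact_mod_cast b2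
    obtain ⟨e4, e5⟩ := abs_le.1 e2
    push_cast at e4 e5
    rw [Finset.mem_Icc, hk1, hk2, Int.ceil_le, Int.le_floor]
    have a0 : (0 : ℝ) ≤ φ x.1 := Nat.cast_nonneg _
    have b0 : (0 : ℝ) ≤ φ x.2 := Nat.cast_nonneg _
    constructor
    · rw [div_le_iff₀ hαQ]
      linarith
    · rw [le_div_iff₀ hαQ]
      linarith
  have hIcard : (#I : ℝ) ≤ (4 * W + 1) * ((2 * N + 4 * W) / (α * Q) + 1) := by
    have e1 : #I ≤ #(Finset.Icc k1 k2) * (2 * (2 * W) + 1) := by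
      refine Finset.card_biUnion_le_card_mul _ _ _ fun k _ => ?_
      rw [card_nearNat]
    have e2 : (#(Finset.Icc k1 k2) : ℝ) ≤ (2 * N + 4 * W) / (α * Q) + 1 := by
      rw [Int.card_Icc]
      have e3 : ((k2 + 1 - k1 : ℤ) : ℝ) ≤ (2 * N + 4 * W) / (α * Q) + 1 := by
        have e4 : (k2 : ℝ) ≤ (2 * N + 2 * W : ℝ) / (α * Q) := Int.floor_le _
        have e5 : (-(2 * W : ℝ) / (α * Q)) ≤ k1 := Int.le_ceil _
        have e6 : (2 * N + 4 * W : ℝ) / (α * Q) = (2 * N + 2 * W : ℝ) / (α * Q) - (-(2 * W : ℝ) / (α * Q)) := by ring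
        rw [e6]
        push_cast
        linarith
      have e7 : (0 : ℝ) ≤ (2 * N + 4 * W) / (α * Q) + 1 := by positivity
      rcases le_or_gt 0 (k2 + 1 - k1) with h | h
      · have e8 : (((k2 + 1 - k1).toNat : ℕ) : ℝ) = ((k2 + 1 - k1 : ℤ) : ℝ) := by
          have : (((k2 + 1 - k1).toNat : ℕ) : ℤ) = k2 + 1 - k1 := Int.toNat_of_nonneg h
          exact_mod_cast this
        rw [e8]
        exact e3
      · rw [Int.toNat_of_nonpos h.le]
        simpa using e7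
    calc (#I : ℝ) ≤ (#(Finset.Icc k1 k2) : ℝ) * (2 * (2 * W) + 1) := by exact_mod_cast e1
      _ ≤ ((2 * N + 4 * W) / (α * Q) + 1) * (2 * (2 * W) + 1) := mul_le_mul_of_nonneg_right e2 (by positivity)
      _ = _ := by ring
  have hcard : #P ≤ #I * g := by
    rw [Finset.card_eq_sum_card_fiberwise (f := fun x : (Fin m → ℤ) × (Fin m → ℤ) => φ x.1 + φ x.2) (t := I) hmap]
    calc ∑ b ∈ I, #{x ∈ P | φ x.1 + φ x.2 = b} ≤ ∑ _b ∈ I, g := by
          refine Finset.sum_le_sum fun b _ => ?_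
          refine le_trans ?_ (hA b)
          have e1 : #{x ∈ P | φ x.1 + φ x.2 = b} =
              #(({x ∈ P | φ x.1 + φ x.2 = b} : Finset _).image fun x => (φ x.1, φ x.2)) := by
            rw [Finset.card_image_of_injOn]
            intro x hx y hy hxy
            rw [Finset.mem_coe, Finset.mem_filter, hP, Finset.mem_filter, Finset.mem_product] at hx hy
            have hxy' := Prod.ext_iff.1 hxy
            exact Prod.ext (hφ hx.1.1.1 hy.1.1.1 hxy'.1) (hφ hx.1.1.2 hy.1.1.2 hxy'.2)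
          rw [e1]
          refine rep_ge A b _ fun p hp => ?_
          rw [Finset.mem_image] at hp
          obtain ⟨x, hx, rfl⟩ := hp
          rw [Finset.mem_filter, hP, Finset.mem_filter, Finset.mem_product] at hx
          exact ⟨(hφA _ hx.1.1.1).1, (hφA _ hx.1.1.2).1, hx.2⟩
      _ = #I * g := by rw [Finset.sum_const, smul_eq_mul]
  calc (#P : ℝ) ≤ #I * g := by exact_mod_cast hcard
    _ ≤ ((4 * W + 1) * ((2 * N + 4 * W) / (α * Q) + 1)) * g := mul_le_mul_of_nonneg_right hIcard (by positivity)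
    _ = _ := by ring

/-! ### the blocks -/

lemma one_add_sum_le (s : Finset ℕ) (f : ℕ → ℝ) (h : ∀ p ∈ s, 0 ≤ f p) : 1 + ∑ p ∈ s, f p ≤ ∏ p ∈ s, (1 + f p) := by
  classical
  induction s using Finset.induction_on with
  | empty => simp
  | insert a s ha ih =>
    rw [Finset.sum_insert ha, Finset.prod_insert ha]
    have h1 := ih fun p hp => h p (Finset.mem_insert_of_mem hp)
    have h2 := h a (Finset.mem_insert_self _ _)
    have h3 : 0 ≤ ∑ p ∈ s, f p := Finset.sum_nonneg fun p hp => h p (Finset.mem_insert_of_mem hp)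
    nlinarith [mul_le_mul_of_nonneg_left h1 (by linarith : 0 ≤ 1 + f a), mul_nonneg h2 h3]

lemma pick (Pr : Set ℕ) (f : ℕ → ℝ) (D : ℝ) (hf0 : ∀ p ∈ Pr, 0 ≤ f p) (hfD : ∀ p ∈ Pr, 1 + f p ≤ D)
    (hdiv : ¬ Summable fun p : Pr => f p) (K : ℝ) (hK : 1 < K) (U : Finset ℕ) :
    ∃ T : Finset ℕ, (∀ p ∈ T, p ∈ Pr) ∧ Disjoint T U ∧ K ≤ ∏ p ∈ T, (1 + f p) ∧ ∏ p ∈ T, (1 + f p) ≤ K * D := by
  classical
  -- a finite set with a large sum
  have h1 : ∃ A : Finset Pr, K + ∑ p ∈ U, |f p| < ∑ p ∈ A, f p := by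
    by_contra hcon
    push Not at hcon
    exact hdiv (summable_of_sum_le (fun p => hf0 p p.2) hcon)
  obtain ⟨A, hA⟩ := h1
  set A' : Finset ℕ := (A.map (Function.Embedding.subtype _)) \ U with hA'
  have hA'Pr : ∀ p ∈ A', p ∈ Pr := by
    intro p hp
    rw [hA', Finset.mem_sdiff, Finset.mem_map] at hp
    obtain ⟨⟨q, _, rfl⟩, _⟩ := hp
    exact q.2
  have hA'U : Disjoint A' U := Finset.sdiff_disjoint
  have hsum : K ≤ ∏ p ∈ A', (1 + f p) := by
    have e1 : ∑ p ∈ A, f p = ∑ p ∈ A.map (Function.Embedding.subtype _), f p := by rw [Finset.sum_map]; rfl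
    have e2 : ∑ p ∈ A.map (Function.Embedding.subtype _), f p ≤ ∑ p ∈ A', f p + ∑ p ∈ U, |f p| := by
      rw [← Finset.sum_inter_add_sum_sdiff (A.map (Function.Embedding.subtype _)) U, add_comm]
      refine add_le_add le_rfl ?_
      calc ∑ p ∈ A.map (Function.Embedding.subtype _) ∩ U, f p ≤ ∑ p ∈ A.map (Function.Embedding.subtype _) ∩ U, |f p| :=
            Finset.sum_le_sum fun p _ => le_abs_self _
        _ ≤ ∑ p ∈ U, |f p| := Finset.sum_le_sum_of_subset_of_nonneg Finset.inter_subset_right fun p _ _ => abs_nonneg _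
    have e3 : 1 + ∑ p ∈ A', f p ≤ ∏ p ∈ A', (1 + f p) := one_add_sum_le A' f fun p hp => hf0 p (hA'Pr p hp)
    linarith
  -- a minimal subset
  obtain ⟨T, hT⟩ := (A'.powerset.filter fun T => K ≤ ∏ p ∈ T, (1 + f p)).exists_min_image (fun T => #T)
    ⟨A', by rw [Finset.mem_filter, Finset.mem_powerset]; exact ⟨le_rfl, hsum⟩⟩
  obtain ⟨hT1, hT2⟩ := hT
  rw [Finset.mem_filter, Finset.mem_powerset] at hT1
  refine ⟨T, fun p hp => hA'Pr p (hT1.1 hp), Finset.disjoint_of_subset_left hT1.1 hA'U, hT1.2, ?_⟩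
  have hTne : T.Nonempty := by
    rw [Finset.nonempty_iff_ne_empty]
    rintro rfl
    have := hT1.2
    rw [Finset.prod_empty] at this
    linarith
  obtain ⟨p, hp⟩ := hTne
  have hpPr := hA'Pr p (hT1.1 hp)
  have h3 : ∏ q ∈ T.erase p, (1 + f q) < K := by
    by_contra hcon
    push Not at hcon
    have := hT2 (T.erase p) (by
      rw [Finset.mem_filter, Finset.mem_powerset]
      exact ⟨(Finset.erase_subset _ _).trans hT1.1, hcon⟩)
    rw [Finset.card_erase_of_mem hp] at this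
    have := Finset.card_pos.2 ⟨p, hp⟩
    omega
  rw [← Finset.mul_prod_erase T (fun q => 1 + f q) hp, mul_comm]
  refine mul_le_mul h3.le (hfD p hpPr) ?_ (by linarith)
  have := hf0 p hpPr
  linarith

theorem blocks (Pr : Set ℕ) (f : ℕ → ℝ) (D : ℝ) (hf0 : ∀ p ∈ Pr, 0 ≤ f p) (hfD : ∀ p ∈ Pr, 1 + f p ≤ D)
    (hdiv : ¬ Summable fun p : Pr => f p) (K : ℝ) (hK : 1 < K) :
    ∃ T : ℕ → Finset ℕ, (∀ j, ∀ p ∈ T j, p ∈ Pr) ∧ (∀ i j, i ≠ j → Disjoint (T i) (T j)) ∧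
      ∀ j, K ≤ ∏ p ∈ T j, (1 + f p) ∧ ∏ p ∈ T j, (1 + f p) ≤ K * D := by
  classical
  obtain ⟨T, hT1, hT2⟩ := exists_seq_of_forall_finset_exists
    (fun T : Finset ℕ => (∀ p ∈ T, p ∈ Pr) ∧ K ≤ ∏ p ∈ T, (1 + f p) ∧ ∏ p ∈ T, (1 + f p) ≤ K * D)
    (fun T T' => Disjoint T T') (fun s _ => by
      obtain ⟨T, h1, h2, h3, h4⟩ := pick Pr f D hf0 hfD hdiv K hK (s.biUnion id)
      refine ⟨T, ⟨h1, h3, h4⟩, fun x hx => ?_⟩
      exact (Finset.disjoint_of_subset_right (Finset.subset_biUnion_of_mem id hx) h2).symm)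
  refine ⟨T, fun j => (hT1 j).1, fun i j hij => ?_, fun j => (hT1 j).2⟩
  rcases Nat.lt_or_gt_of_ne hij with h | h
  · exact hT2 i j h
  · exact (hT2 j i h).symm

lemma vv_nonneg (hm : 0 < m) (F : MvPolynomial (Fin m) ℤ) {p : ℕ} (hp : p.Prime) : 0 ≤ vv F p := by
  have : Fact p.Prime := ⟨hp⟩
  have hp1 : (1 : ℝ) ≤ p := by exact_mod_cast hp.one_lt.le
  refine (local_bounds hm F hp ((p : ℝ) ^ m) (one_le_pow₀ hp1) fun n => ?_).1
  have h1 : sol F p n ≤ p ^ m := by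
    rw [← sum_sol F p]
    exact Finset.single_le_sum (f := fun n => sol F p n) (fun _ _ => Nat.zero_le _) (Finset.mem_univ n)
  calc (sol F p n : ℝ) ≤ (p : ℝ) ^ m := by exact_mod_cast h1
    _ ≤ _ := le_mul_of_one_le_right (by positivity) (one_le_pow₀ hp1)

end Pool.Agent.Helper520_bf
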